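import Pool.Agent.H57.Sets

/-!
# The key lemma
-/

set_option linter.unusedSectionVars false

open Finset CoxeterSystem

namespace H57

variable {B : Type*} [Fintype B] [DecidableEq B]
variable {W : Type*} [Group W] {M : CoxeterMatrix B}

lemma hA_congr (h : B → ℤ) {L L' : List (B × Bool)} (e : L.map Prod.fst = L'.map Prod.fst) :
    hA h L = hA h L' := by
  induction L generalizing h L' with
  | nil =>
    cases L' with
    | nil => rfl
    | cons y L' => simp at e
  | cons x L ih =>
    cases L' with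
    | nil => simp at e
    | cons y L' =>
      simp only [List.map_cons, List.cons.injEq] at e
      rw [hA_cons, hA_cons, e.1, ih _ e.2]

lemma alt_congr (h : B → ℤ) {L L' : List (B × Bool)} (e : L.map Prod.fst = L'.map Prod.fst)
    (hL : Alt M h L) : Alt M h L' := by
  induction L generalizing h L' with
  | nil =>
    cases L' with
    | nil => trivial
    | cons y L' => simp at e
  | cons x L ih =>
    cases L' with
    | nil => simp at e
    | cons y L' =>
      simp only [List.map_cons, List.cons.injEq] at e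
      rw [alt_cons] at hL ⊢
      rw [← e.1]
      exact ⟨hL.1, ih _ e.2 hL.2⟩

lemma rr_adj (d x y : B → ℝ) : ipr M (rr M d x) y = ipr M x (rr M d y) := by
  simp only [rr, map_sub, map_smul, LinearMap.sub_apply, LinearMap.smul_apply, smul_eq_mul,
    ipr_comm d y]
  ring

/-- the flagged word of a pattern -/
def patL (M1 M2 M3 : List (B × Bool)) (q1 q2 : B) : List (B × Bool) :=
  M1 ++ (q1, false) :: (M2 ++ (q2, true) :: M3)

/-- The data of a pattern. -/
structure Pat (cs : CoxeterSystem M W) (M1 M2 M3 : List (B × Bool)) (h : B → ℤ)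
    (z : (B → ℝ) →ₗ[ℝ] ℝ) (u q1 q2 u' : B) : Prop where
  red : Red cs (patL M1 M2 M3 q1 q2)
  alt : Alt M h (patL M1 M2 M3 q1 q2)
  snk : Snk M h u
  src : Src M (hA h (patL M1 M2 M3 q1 q2)) u'
  root2 : act cs (pr cs M1 * pr cs M2) (al q2) = act cs (pr cs M1) (al q1)
  neg : ipr M (al u) (act cs (pr cs M1) (al q1)) < 0
  close : act cs (pr cs (patL M1 M2 M3 q1 q2)) (al u') = rr M (act cs (pr cs M1) (al q1)) (al u)
  z0 : z (act cs (pr cs M1) (al q1)) = 0
  zskip : ∀ L₁ s L₂, patL M1 M2 M3 q1 q2 = L₁ ++ (s, false) :: L₂ →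
    0 ≤ z (act cs (pr cs L₁) (al s))
  zmid : ∀ L₁ s L₂, M2 = L₁ ++ (s, false) :: L₂ → 0 < z (act cs (pr cs M1 * pr cs L₁) (al s))

variable {cs : CoxeterSystem M W} [Finite W]

lemma act_prefix_nonneg {L₁ L₂ : List (B × Bool)} {v : B → ℝ} (hred : Red cs (L₁ ++ L₂))
    (hv : IsRoot cs v) (hv0 : 0 ≤ v) (hL : 0 ≤ act cs (pr cs (L₁ ++ L₂))⁻¹ v) :
    0 ≤ act cs (pr cs L₁)⁻¹ v := by
  rw [← notMem_inver hv hv0] at hL ⊢
  exact fun h => hL (inver_pr_subset hred h)

/-- Step 7: positivity coming from the middle part. -/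
lemma mid_pos {M2 : List (B × Bool)} {h : B → ℤ} {z : (B → ℝ) →ₗ[ℝ] ℝ} {q1 q2 : B}
    (hred : Red cs M2) (halt : Alt M h M2) (hsnk : Snk M h q1) (hsrc : Src M (hA h M2) q2)
    (hroot : act cs (pr cs M2) (al q2) = al q1) (hz : z (al q1) = 0)
    (hzmid : ∀ L₁ s L₂, M2 = L₁ ++ (s, false) :: L₂ → 0 < z (act cs (pr cs L₁) (al s)))
    (γ : B → ℝ) (hγ0 : 0 ≤ γ) (hγ : ∀ L₁ L₂, M2 = L₁ ++ L₂ → 0 ≤ act cs (pr cs L₁)⁻¹ γ)
    (hneg : ipr M γ (al q1) < 0) : 0 < z (SK cs M2 γ) := by
  set v := pr cs M2 with hv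
  have hroot' : act cs v⁻¹ (al q1) = al q2 := by rw [← hroot, act_inv_act]
  -- the loop of `α_{q1}`
  have hpre : ∀ L₁ L₂, M2 = L₁ ++ L₂ → 0 ≤ act cs (pr cs L₁)⁻¹ (al q1) := by
    intro L₁ L₂ he
    subst he
    apply act_prefix_nonneg hred (isRoot_al cs q1) (al_nonneg q1)
    rw [← hv, hroot']
    exact al_nonneg q2
  have hid1 := main_identity cs halt (al q1)
  rw [← hv, hroot', Hop_al, map_smul, hroot, Hop_al, SU_eq_sum hred, ← hv, pairing_sum hroot'] at hid1
  set N := (∑ β ∈ inver cs v, (ipr M (al q1) β) ^ 2) / 2 with hN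
  have hSK1 : SK cs M2 (al q1) =
      ((((hA h M2 q2 : ℤ) : ℝ) - h q1 - N) / 2) • al q1 := by
    have h1 : (2 : ℝ) • SK cs M2 (al q1) = (((hA h M2 q2 : ℤ) : ℝ) - h q1 - N) • al q1 := by
      rw [sub_smul, sub_smul, hid1]; module
    rw [div_eq_inv_mul, mul_smul, ← h1, smul_smul]
    norm_num
  have hSK0 : SK cs M2 (al q1) = 0 := by
    have h1 := SK_pos_or (cs := cs) M2 (al q1) z (fun L₁ s L₂ he =>
      ⟨hpre L₁ _ he s, hzmid L₁ s L₂ he⟩)
    rcases h1 with h1 | h1
    · rw [hSK1, map_smul, hz, smul_zero] at h1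
      exact absurd h1 (lt_irrefl _)
    · exact h1
  have hSU1 : SU cs M2 (al q1) = (((hA h M2 q2 : ℤ) : ℝ) - h q1) • al q1 := by
    have h1 := main_identity cs halt (al q1)
    rw [← hv, hroot', Hop_al, map_smul, hroot, Hop_al, hSK0, smul_zero, add_zero] at h1
    rw [sub_smul, h1]; abel
  have h2 := SK_pos_or (cs := cs) M2 γ z (fun L₁ s L₂ he => ⟨hγ L₁ _ he s, hzmid L₁ s L₂ he⟩)
  rcases h2 with h2 | h2
  · exact h2
  exfalso
  have hid2 := main_identity cs halt γ
  rw [h2, smul_zero, add_zero, ← hv] at hid2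
  have hp := congrArg (fun x => ipr M x (al q1)) hid2
  simp only [map_add, LinearMap.add_apply] at hp
  have e1 : ipr M (act cs v (Hop (hA h M2) (act cs v⁻¹ γ))) (al q1) =
      ipr M (Hop (hA h M2) (act cs v⁻¹ γ)) (al q2) := by
    rw [← hroot, ipr, act_form]
  have e2 : ipr M (act cs v⁻¹ γ) (al q2) = ipr M γ (al q1) := by
    rw [← hroot', ipr, act_form]
  have e3 : ipr M (SU cs M2 γ) (al q1) = ipr M γ (SU cs M2 (al q1)) := by
    rw [SU_eq_sum hred, SU_eq_sum hred, map_sum, map_sum, LinearMap.sum_apply]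
    refine Finset.sum_congr rfl fun β _ => ?_
    rw [map_smul, map_smul, LinearMap.smul_apply, ipr_comm β (al q1)]
    simp only [smul_eq_mul]
    ring
  rw [e1, ipr_Hop_src hsrc, e2, ipr_Hop_snk hsnk, e3, hSU1, map_smul, smul_eq_mul] at hp
  have h3 : 0 ≤ act cs v⁻¹ γ := hγ M2 [] (by simp)
  have h4 := h3 q2
  have h5 := hγ0 q1
  simp only [Pi.zero_apply] at h4 h5
  nlinarith

namespace Pat

variable {M1 M2 M3 : List (B × Bool)} {h : B → ℤ} {z : (B → ℝ) →ₗ[ℝ] ℝ} {u q1 q2 u' : B}

lemma eqP : patL M1 M2 M3 q1 q2 = (M1 ++ (q1, false) :: M2) ++ (q2, true) :: M3 := by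
  simp [patL]

lemma eqP' : patL M1 M2 M3 q1 q2 = ((M1 ++ (q1, false) :: M2) ++ [(q2, true)]) ++ M3 := by
  simp [patL]

theorem key
    (G : (B → ℝ) → Prop) (hGact : ∀ w v, G v → G (act cs w v))
    (hGorth : ∀ v v', IsRoot cs v → IsRoot cs v' → G v → ipr M v v' ≠ 0 → G v')
    (hNB : ∀ η δ e, IsRoot cs η → IsRoot cs δ → IsRoot cs e → G η → ipr M η δ < 0 →
      0 < ipr M e δ → 0 < ipr M η e → ∃ x y : ℝ, 0 ≤ x ∧ 0 ≤ y ∧ e = x • η + y • δ) :
    ∀ (n : ℕ) (M1 M2 M3 : List (B × Bool)) (h : B → ℤ) (z : (B → ℝ) →ₗ[ℝ] ℝ) (u q1 q2 u' : B),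
      M1.length = n → Pat cs M1 M2 M3 h z u q1 q2 u' → G (al u) → 0 < z (al u) := by
  classical
  intro n
  induction n using Nat.strong_induction_on with
  | _ n ih =>
  intro M1 M2 M3 h z u q1 q2 u' hn hp hGu
  have h0 := M_ne_zero cs
  set δ := act cs (pr cs M1) (al q1) with hδ
  set L := patL M1 M2 M3 q1 q2 with hL
  set P := M1 ++ (q1, false) :: M2 with hP
  have hLP : L = P ++ (q2, true) :: M3 := eqP
  have hLP' : L = (P ++ [(q2, true)]) ++ M3 := eqP'
  set r := pr cs L with hr
  set a := pr cs P with ha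
  have ha' : a = pr cs M1 * pr cs M2 := by simp [ha, hP]
  have hred := hp.red
  have hδroot : IsRoot cs δ := (isRoot_al cs q1).image _
  have haq : act cs a (al q2) = δ := by rw [ha', hp.root2]
  have haq' : act cs a⁻¹ δ = al q2 := by rw [← haq, act_inv_act]
  have hδ0 : 0 ≤ δ := by
    rw [← haq]
    exact Red.root_nonneg (L' := M3) (by rw [← hLP]; exact hred)
  have hδr : δ ∈ inver cs r := by
    rw [hr, mem_inver_pr hred]
    exact ⟨P, q2, M3, hLP, haq.symm⟩
  have hδneg : act cs r⁻¹ δ ≤ 0 := (mem_inver.mp hδr).2.2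
  set c := - ipr M (al u) δ with hc
  have hc0 : 0 < c := by rw [hc]; have := hp.neg; linarith
  set θ := rr M δ (al u) with hθ
  have hθ' : θ = al u + c • δ := by rw [hθ, rr, hc]; module
  have hclose : act cs r (al u') = θ := hp.close
  have hclose' : act cs r⁻¹ θ = al u' := by rw [← hclose, act_inv_act]
  have hθroot : IsRoot cs θ := hδroot.reflect (isRoot_al cs u)
  have hθ0 : 0 ≤ θ := by
    rw [hθ']; exact add_nonneg (al_nonneg u) (smul_nonneg hc0.le hδ0)
  have hηr : 0 ≤ act cs r⁻¹ (al u) := by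
    have : al u = θ - c • δ := by rw [hθ']; abel
    rw [this, map_sub, map_smul, hclose']
    have h1 := al_nonneg u'
    have h2 : c • act cs r⁻¹ δ ≤ 0 := smul_nonpos_of_nonneg_of_nonpos hc0.le hδneg
    exact sub_nonneg.mpr (h2.trans h1)
  have hηpre : ∀ L₁ L₂, L = L₁ ++ L₂ → 0 ≤ act cs (pr cs L₁)⁻¹ (al u) := by
    intro L₁ L₂ he
    apply act_prefix_nonneg (L₂ := L₂) (by rw [← he]; exact hred) (isRoot_al cs u) (al_nonneg u)
    rw [← he]; exact hηr
  have hθpre : ∀ L₁ L₂, L = L₁ ++ L₂ → 0 ≤ act cs (pr cs L₁)⁻¹ θ := by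
    intro L₁ L₂ he
    apply act_prefix_nonneg (L₂ := L₂) (by rw [← he]; exact hred) hθroot hθ0
    rw [← he, ← hr, hclose']; exact al_nonneg u'
  have hzδ : z δ = 0 := hp.z0
  have hzθ : z θ = z (al u) := by rw [hθ', map_add, map_smul, hzδ]; simp
  -- the element `b`
  set Lb := P ++ (q2, false) :: M3 with hLb
  set b := pr cs Lb with hb
  have hbr : ∀ x, act cs b x = rr M δ (act cs r x) := by
    intro x
    have e1 : b = a * pr cs M3 := by rw [hb, hLb, pr_append, pr_cons_false]
    have e2 : r = a * (cs.simple q2 * pr cs M3) := by rw [hr, hLP, pr_append, pr_cons_true]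
    rw [e1, e2, act_mul, act_mul, act_mul, ← haq, act_conj_rr, ← act_simple_eq_rr cs,
      act_simple_simple]
  have hbu : act cs b⁻¹ (al u) = al u' := by
    rw [act_inv_of_act_eq hδroot hbr, ← hθ, hclose']
  set N := (∑ β ∈ inver cs b, (ipr M (al u) β) ^ 2) / 2 with hN
  -- Step 5: the height bound
  have hbound : N ≤ (hA h L u' : ℤ) - h u := by
    have hHas : Has cs (L.map Prod.fst) b := ⟨Lb, by rw [hLP, hLb]; simp, rfl⟩
    obtain ⟨K, hK1, hK2, hK3, hK4⟩ := exists_pos_facet _ _ hHas
    have halt : Alt M h K := alt_congr h hK1.symm hp.alt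
    have hid := main_identity cs halt (al u)
    rw [hA_congr h hK1, hK2, hbu, Hop_al, map_smul, Hop_al, SU_eq_sum hK3, hK2,
      pairing_sum hbu, ← hN] at hid
    have hbu' : act cs b (al u') = al u := by rw [← hbu, act_act_inv]
    rw [hbu'] at hid
    have h1 := congrFun hid u
    simp only [Pi.add_apply, Pi.smul_apply, smul_eq_mul, al_self, mul_one] at h1
    have h2 := SK_apply_nonneg (cs := cs) K (al u) (fun L₁ s L₂ he => by
      refine ⟨?_, hK4 L₁ s L₂ he⟩
      have h3 : 0 ≤ act cs (pr cs L₁)⁻¹ (al u) := by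
        apply act_prefix_nonneg (L₂ := (s, false) :: L₂) (by rw [← he]; exact hK3)
          (isRoot_al cs u) (al_nonneg u)
        rw [← he, hK2, hbu]; exact al_nonneg u'
      exact h3 s) u
    linarith
  -- Step 6: crossings
  have hcross : ∀ e ∈ crossing cs a r δ, 0 ≤ ipr M (al u) e * z e := by
    intro e he
    rw [crossing, Finset.mem_filter] at he
    obtain ⟨he1, he2⟩ := he
    have he1' := he1
    rw [mem_inver] at he1'
    obtain ⟨g1, g2, g3⟩ := he1'
    have g1' : IsRoot cs (rr M δ e) := hδroot.reflect g1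
    set f := - rr M δ e with hf
    have hfr : IsRoot cs f := g1'.neg
    have hf0 : 0 ≤ f := (mem_inver.mp he2).2.1
    have hδa : δ ∉ inver cs a := by
      rw [notMem_inver hδroot hδ0, haq']; exact al_nonneg q2
    have heδ : e ≠ δ := by rintro h1; rw [h1] at he1; exact hδa he1
    have hne_neg : ∀ β : B → ℝ, 0 ≤ β → β ≠ -δ := by
      rintro β hβ rfl
      exact hδroot.not_both hδ0 (neg_nonneg.mp hβ)
    have hpos_eδ : 0 < ipr M e δ := by
      by_contra hcon
      push Not at hcon
      have h1 : 0 ≤ rr M δ e := by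
        have : rr M δ e = e + (- ipr M e δ) • δ := by rw [rr]; module
        rw [this]
        exact add_nonneg g2 (smul_nonneg (by linarith) hδ0)
      exact g1'.not_both h1 (by rw [← neg_nonneg]; exact hf0)
    -- `f` is not an inversion of `a`
    have hfa : f ∉ inver cs a := by
      rw [notMem_inver hfr hf0, hf, map_neg, act_conj_inv haq', ← act_simple_eq_rr cs]
      apply neg_nonneg.mpr
      refine (g1.image _).simple_act_nonpos h0 g3 ?_
      intro h4
      apply hne_neg e g2
      have : e = act cs a (act cs a⁻¹ e) := by rw [act_act_inv]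
      rw [this, h4, map_neg, haq]
    -- `e` is an inversion of `pr M1`
    have hredP : Red cs (M1 ++ ((q1, false) :: M2)) := by
      have := hred
      rw [← hL, hLP] at this
      exact this.left
    have heM1 : e ∈ inver cs (pr cs M1) := by
      by_contra hcon
      rw [notMem_inver g1 g2] at hcon
      apply hfa
      rw [ha, hP]
      apply inver_pr_subset hredP
      rw [mem_inver]
      refine ⟨hfr, hf0, ?_⟩
      have h1 : act cs (pr cs M1)⁻¹ δ = al q1 := by rw [hδ, act_inv_act]
      rw [hf, map_neg, act_conj_inv h1, ← act_simple_eq_rr cs]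
      apply neg_nonpos.mpr
      refine (g1.image _).simple_act_nonneg h0 hcon ?_
      intro h4
      apply heδ
      have : e = act cs (pr cs M1) (act cs (pr cs M1)⁻¹ e) := by rw [act_act_inv]
      rw [this, h4]
    -- no bad pairs
    have hle : ipr M (al u) e ≤ 0 := by
      by_contra hcon
      push Not at hcon
      obtain ⟨x, y, hx, hy, hxy⟩ := hNB (al u) δ e (isRoot_al cs u) hδroot g1 hGu hp.neg
        hpos_eδ hcon
      have h1 : 0 ≤ act cs (pr cs M1)⁻¹ e := by
        rw [hxy, map_add, map_smul, map_smul, hδ, act_inv_act]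
        refine add_nonneg (smul_nonneg hx ?_) (smul_nonneg hy (al_nonneg q1))
        exact hηpre M1 _ rfl
      exact (g1.image _).not_both h1 (mem_inver.mp heM1).2.2
    -- the induction hypothesis
    have hez : z e < 0 := by
      have hredM1 : Red cs M1 := hredP.left
      obtain ⟨M1a, q, M1b, hM1, hroot_e⟩ := (mem_inver_pr hredM1 e).mp heM1
      have hfP' : f ∉ inver cs (pr cs (P ++ [(q2, true)])) := by
        have e1 : pr cs (P ++ [(q2, true)]) = a * cs.simple q2 := by simp [ha]
        rw [e1, inver_mul_simple (by rw [haq]; exact hδ0), Finset.mem_insert, haq]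
        rintro (h1 | h1)
        · apply heδ
          have h4 : rr M δ e = -δ := neg_eq_iff_eq_neg.mp h1
          calc e = rr M δ (rr M δ e) := by rw [rr_rr hδroot]
            _ = rr M δ (-δ) := by rw [h4]
            _ = δ := by rw [rr_neg, rr_self hδroot, neg_neg]
        · exact hfa h1
      have hredL' : Red cs ((P ++ [(q2, true)]) ++ M3) := by rw [← hLP']; exact hred
      obtain ⟨M3a, q', M3b, hM3, hroot_f⟩ := exists_of_mem_of_notMem hredL'
        (by rw [← hLP']; exact he2) hfP'
      -- the new pattern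
      set g := pr cs M1a * cs.simple q with hg
      have hgpr : g = pr cs (M1a ++ [(q, true)]) := by simp [hg]
      have hLnew : L = (M1a ++ [(q, true)]) ++ (patL M1b M2 M3a q1 q2 ++ (q', true) :: M3b) := by
        rw [hL, patL, hM1, hM3, patL]; simp
      have hredL : Red cs ((M1a ++ [(q, true)]) ++
          (patL M1b M2 M3a q1 q2 ++ (q', true) :: M3b)) := by rw [← hLnew]; exact hred
      have haltL := hp.alt
      rw [← hL, hLnew, alt_append, alt_append, alt_append] at haltL
      obtain ⟨⟨halt1, halt2⟩, halt3, halt4⟩ := haltL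
      have hM1pr : pr cs M1 = g * pr cs M1b := by
        rw [hM1, hg]; simp [mul_assoc]
      have hgal : act cs g (al q) = -e := by
        rw [hg, act_mul, act_simple_al, map_neg, hroot_e]
      have hδnew : act cs g (act cs (pr cs M1b) (al q1)) = δ := by
        rw [← act_mul, ← hM1pr]
      have hneg_e : ipr M (-e) δ < 0 := by
        rw [map_neg, LinearMap.neg_apply]; linarith
      have hnew : Pat cs M1b M2 M3a (hA h (M1a ++ [(q, true)])) (z ∘ₗ act cs g) q q1 q2 q' := by
        refine ⟨hredL.right.left, halt3, ?_, ?_, ?_, ?_, ?_, ?_, ?_, ?_⟩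
        · rw [hA_append]
          simp only [alt_cons] at halt2
          simpa using halt2.1.snk_bump
        · rw [alt_cons] at halt4
          exact halt4.1
        · apply act_injective cs g
          rw [hδnew, ← act_mul, ← mul_assoc, ← hM1pr]
          exact hp.root2
        · rw [← act_form cs g, hgal, hδnew]
          exact hneg_e
        · apply act_injective cs g
          rw [← act_conj_rr, hgal, hδnew, rr_neg, ← hf, hroot_f, ← act_mul]
          congr 2
          rw [hP, hM1, hg, patL]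
          simp [mul_assoc]
        · rw [LinearMap.comp_apply, hδnew, hzδ]
        · intro L₁ s L₂ he'
          rw [LinearMap.comp_apply, ← act_mul, hgpr, ← pr_append]
          apply hp.zskip _ _ (L₂ ++ (q', true) :: M3b)
          rw [← hL, hLnew, he']
          simp
        · intro L₁ s L₂ he'
          rw [LinearMap.comp_apply, ← act_mul, ← mul_assoc, ← hM1pr]
          exact hp.zmid _ _ _ he'
      have hlen : M1b.length < n := by
        rw [← hn, hM1]; simp; omega
      have hGq : G (al q) := by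
        have h1 : G δ := hGorth _ _ (isRoot_al cs u) hδroot hGu hp.neg.ne
        have h2 : G (-e) := hGorth _ _ hδroot g1.neg h1 (by
          rw [ipr_comm]; exact hneg_e.ne)
        have h3 := hGact g⁻¹ _ h2
        rwa [← hgal, act_inv_act] at h3
      have h1 := ih _ hlen M1b M2 M3a _ _ q q1 q2 q' rfl hnew hGq
      rw [LinearMap.comp_apply, hgal, map_neg] at h1
      linarith
    exact mul_nonneg_of_nonpos_of_nonpos hle hez.le
  -- Step 7: positivity from the middle part
  have hzSKP : 0 < z (SK cs P (al u)) := by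
    have hpr1 : ∀ L₁, pr cs (M1 ++ (q1, false) :: L₁) = pr cs M1 * pr cs L₁ := by
      intro L₁; simp
    have haltL := hp.alt
    rw [patL, alt_append, alt_cons, alt_append, alt_cons] at haltL
    obtain ⟨halt1, halt2, halt3, halt4, halt5⟩ := haltL
    rw [hP, SK_append, SK_cons_false, map_add, map_add, map_smul, ← hδ, map_add, map_smul, hzδ,
      smul_zero, zero_add]
    have h1 : 0 ≤ z (SK cs M1 (al u)) := by
      apply SK_nonneg
      intro L₁ s L₂ he
      have he' : L = L₁ ++ (s, false) :: (L₂ ++ (q1, false) :: (M2 ++ (q2, true) :: M3)) := by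
        rw [hL, patL, he]; simp
      exact ⟨hηpre _ _ he' s, hp.zskip _ _ _ he'⟩
    have h2 : 0 < (z ∘ₗ act cs (pr cs M1)) (SK cs M2 (act cs (pr cs M1)⁻¹ (al u))) := by
      have hredM2 : Red cs M2 := by
        have h3 : Red cs (M1 ++ ((q1, false) :: (M2 ++ (q2, true) :: M3))) := hred
        have h4 : Red cs ([(q1, false)] ++ (M2 ++ (q2, true) :: M3)) := h3.right
        exact h4.right.left
      refine mid_pos (q1 := q1) (q2 := q2) hredM2 halt3 halt2.snk_bump halt4 ?_ ?_ ?_ _ ?_ ?_ ?_
      · apply act_injective cs (pr cs M1)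
        rw [← act_mul]; exact hp.root2
      · rw [LinearMap.comp_apply, ← hδ, hzδ]
      · intro L₁ s L₂ he
        rw [LinearMap.comp_apply, ← act_mul]
        exact hp.zmid _ _ _ he
      · exact hηpre M1 _ rfl
      · intro L₁ L₂ he
        rw [← act_mul, ← mul_inv_rev, ← hpr1]
        apply hηpre _ (L₂ ++ (q2, true) :: M3)
        rw [hL, patL, he]; simp
      · have h3 := act_form cs (pr cs M1) (act cs (pr cs M1)⁻¹ (al u)) (al q1)
        rw [act_act_inv] at h3
        rw [ipr, ← h3]
        exact hp.neg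
    rw [LinearMap.comp_apply] at h2
    linarith
  -- the last part
  have hz3 : 0 ≤ z (act cs (pr cs (P ++ [(q2, true)]))
      (SK cs M3 (act cs (pr cs (P ++ [(q2, true)]))⁻¹ θ))) := by
    have h1 := SK_nonneg (cs := cs) M3 (act cs (pr cs (P ++ [(q2, true)]))⁻¹ θ)
      (z ∘ₗ act cs (pr cs (P ++ [(q2, true)]))) (fun L₁ s L₂ he => by
        have he' : L = ((P ++ [(q2, true)]) ++ L₁) ++ (s, false) :: L₂ := by
          rw [hLP', he]; simp
        refine ⟨?_, ?_⟩
        · rw [← act_mul, ← mul_inv_rev, ← pr_append]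
          exact hθpre _ _ he' s
        · rw [LinearMap.comp_apply, ← act_mul, ← pr_append]
          exact hp.zskip _ _ _ he')
    simpa using h1
  -- the identities
  have haltP : Alt M h P := by
    have := hp.alt
    rw [← hL, hLP, alt_append] at this
    exact this.1
  have haltP' : Alt M h (P ++ [(q2, true)]) := by
    have := hp.alt
    rw [← hL, hLP', alt_append] at this
    exact this.1
  have hredP : Red cs P := by
    have := hred
    rw [← hL, hLP] at this
    exact this.left
  have hredP' : Red cs (P ++ [(q2, true)]) := by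
    have := hred
    rw [← hL, hLP'] at this
    exact this.left
  have I1 := congrArg z (main_identity cs haltP (al u))
  have I2 := congrArg z (main_identity cs haltP' θ)
  have I3 := congrArg z (main_identity cs hp.alt θ)
  have I4 := congrArg z (main_identity cs haltP θ)
  rw [← hL, ← hr, hclose', Hop_al, map_smul, hclose, map_smul, hzθ, map_add, map_add,
    map_smul] at I3
  rw [← ha, Hop_al, map_add, map_add, map_smul, map_smul] at I1
  rw [map_add, map_add, map_smul] at I2
  rw [← ha, map_add, map_add, map_smul] at I4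
  have I5 : z (act cs a (Hop (hA h P) (act cs a⁻¹ θ))) =
      z (act cs a (Hop (hA h P) (act cs a⁻¹ (al u)))) := by
    rw [hθ', map_add, map_smul, haq', Hop_add, Hop_smul, Hop_al, map_add, map_smul, map_smul, haq,
      map_add, map_smul, map_smul, hzδ]
    simp
  -- the sums
  have hG : ∀ β, ipr M θ β * z β = ipr M (al u) (rr M δ β) * z (rr M δ β) := by
    intro β
    rw [hθ, rr_adj]
    congr 1
    rw [rr, map_sub, map_smul, hzδ]; simp
  have hSUP : z (SU cs P (al u)) = ∑ β ∈ inver cs a, ipr M (al u) β * z β := by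
    rw [SU_eq_sum hredP, map_sum]
    refine Finset.sum_congr rfl fun β _ => ?_
    rw [map_smul, smul_eq_mul]
  have hinvP' : inver cs (pr cs (P ++ [(q2, true)])) = insert δ (inver cs a) := by
    have e1 : pr cs (P ++ [(q2, true)]) = a * cs.simple q2 := by simp [ha]
    rw [e1, inver_mul_simple (by rw [haq]; exact hδ0), haq]
  have hsub : insert δ (inver cs a) ⊆ inver cs r := by
    rw [← hinvP', hr, hLP']
    apply inver_pr_subset
    rw [← hLP']; exact hred
  have hsub' : inver cs a ⊆ inver cs r := (Finset.subset_insert _ _).trans hsub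
  have hSUL : z (SU cs L θ) - z (SU cs (P ++ [(q2, true)]) θ) =
      ∑ β ∈ inver cs r \ insert δ (inver cs a), ipr M (al u) (rr M δ β) * z (rr M δ β) := by
    rw [SU_eq_sum hred, SU_eq_sum hredP', hinvP', ← hL, ← hr, map_sum, map_sum]
    simp only [map_smul, smul_eq_mul]
    rw [← Finset.sum_sdiff hsub]
    simp only [hG]
    ring
  have hdec := sum_decomp hδroot hδ0 haq' hsub' hδr hbr (fun β => ipr M (al u) β * z β)
    (fun x => by simp)
  have hpair : ∑ β ∈ inver cs b, ipr M (al u) β * z β = N * z (al u) := by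
    have h1 := congrArg z (pairing_sum hbu)
    rw [map_sum, map_smul, smul_eq_mul, ← hN] at h1
    rw [← h1]
    refine Finset.sum_congr rfl fun β _ => ?_
    rw [map_smul, smul_eq_mul]
  have hcr : 0 ≤ ∑ β ∈ crossing cs a r δ, ipr M (al u) β * z β := Finset.sum_nonneg hcross
  have hSKL : z (SK cs L θ) = z (SK cs (P ++ [(q2, true)]) θ) +
      z (act cs (pr cs (P ++ [(q2, true)]))
        (SK cs M3 (act cs (pr cs (P ++ [(q2, true)]))⁻¹ θ))) := by
    rw [hLP', SK_append, map_add]
  -- relation between `P` and `P ++ [(q2,true)]`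
  have hSUP' : z (SU cs (P ++ [(q2, true)]) θ) = z (SU cs P θ) := by
    rw [SU_append]
    simp only [SU_cons_true, SU_nil, map_zero, add_zero]
    rw [map_smul, map_add, map_smul, ← ha, haq, hzδ]
    simp
  have hSKP' : z (SK cs (P ++ [(q2, true)]) θ) = z (SK cs P θ) := by
    rw [SK_append]
    simp
  simp only [smul_eq_mul] at I1 I2 I3 I4
  -- conclude
  have hfinal : (((hA h L u' : ℤ) : ℝ) - h u - N) * z (al u) =
      2 * z (SK cs P (al u)) + 2 * z (act cs (pr cs (P ++ [(q2, true)]))
        (SK cs M3 (act cs (pr cs (P ++ [(q2, true)]))⁻¹ θ))) +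
      2 * ∑ β ∈ crossing cs a r δ, ipr M (al u) β * z β := by
    linarith
  by_contra hcon
  push Not at hcon
  have h1 : (((hA h L u' : ℤ) : ℝ) - h u - N) * z (al u) ≤ 0 :=
    mul_nonpos_of_nonneg_of_nonpos (by linarith) hcon
  linarith

end Pat

end H57
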