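import Pool.Agent.H57.Forest
import Pool.Agent.H57.Key

/-!
# Alternating words and height functions
-/

set_option linter.unusedSectionVars false

open Finset CoxeterSystem

namespace H57

variable {B : Type*} [Fintype B] [DecidableEq B]
variable {W : Type*} [Group W] {M : CoxeterMatrix B}

/-- the subword of the occurrences of `s` and `t`. -/
def two (s t : B) (Q : List B) : List B := Q.filter fun x => decide (x = s ∨ x = t)

lemma two_comm (s t : B) (Q : List B) : two s t Q = two t s Q := by
  unfold two
  congr 1
  funext x
  simp only [or_comm]

lemma two_cons_left (s t : B) (Q : List B) : two s t (s :: Q) = s :: two s t Q := by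
  simp [two]

lemma two_cons_right (s t : B) (Q : List B) : two s t (t :: Q) = t :: two s t Q := by
  simp [two]

lemma two_cons_ne {s t a : B} (h1 : a ≠ s) (h2 : a ≠ t) (Q : List B) :
    two s t (a :: Q) = two s t Q := by
  simp [two, h1, h2]

/-- occurrences of non-commuting letters alternate. -/
def AltW (M : CoxeterMatrix B) (Q : List B) : Prop :=
  ∀ s t, s ≠ t → M s t ≠ 2 → (two s t Q).IsChain (· ≠ ·)

lemma AltW.tail {a : B} {Q : List B} (h : AltW M (a :: Q)) : AltW M Q := by
  intro s t hst hM
  have h1 := h s t hst hM
  by_cases ha : a = s
  · subst ha
    rw [two_cons_left] at h1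
    exact h1.tail
  · by_cases hb : a = t
    · subst hb
      rw [two_cons_right] at h1
      exact h1.tail
    · rwa [two_cons_ne ha hb] at h1

/-- compatibility of heights with the heads of the subwords. -/
def HInv (M : CoxeterMatrix B) (h : B → ℤ) (Q : List B) : Prop :=
  ∀ s t, s ≠ t → M s t ≠ 2 → (two s t Q).head? = some s → h t = h s + 1

lemma head_ne {a : B} {L : List B} (h : (a :: L).IsChain (· ≠ ·)) : L.head? ≠ some a := by
  cases L with
  | nil => simp
  | cons b L =>
    rw [List.isChain_cons_cons] at h
    simp only [List.head?_cons, ne_eq, Option.some.injEq]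
    exact fun e => h.1 e.symm

theorem alt_of_altW {h : B → ℤ} {L : List (B × Bool)} (hQ : AltW M (L.map Prod.fst))
    (hI : HInv M h (L.map Prod.fst)) : Alt M h L := by
  induction L generalizing h with
  | nil => trivial
  | cons x L ih =>
    obtain ⟨a, b⟩ := x
    simp only [List.map_cons] at hQ hI
    rw [alt_cons]
    refine ⟨?_, ih hQ.tail ?_⟩
    · intro p hp hM
      apply hI a p (Ne.symm hp) (by rwa [M.symmetric])
      rw [two_cons_left]; rfl
    · intro s t hst hM hhead
      have h1 := hQ s t hst hM
      have h2 := hI s t hst hM
      by_cases ha : a = s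
      · subst ha
        rw [two_cons_left] at h1
        exact absurd hhead (head_ne h1)
      · by_cases hb : a = t
        · subst hb
          have h3 := hI a s (Ne.symm hst) (by rwa [M.symmetric])
          rw [two_cons_left] at h3
          have h4 := h3 rfl
          simp only [bump, Function.update_self, Function.update_of_ne hst]
          omega
        · rw [two_cons_ne ha hb] at h2
          simp only [bump]
          rw [Function.update_of_ne (Ne.symm ha), Function.update_of_ne (Ne.symm hb)]
          exact h2 hhead

/-- an alternating word admits a height function. -/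
theorem exists_height (cs : CoxeterSystem M W) [Finite W] (Q : List B) (hQ : AltW M Q) :
    ∃ h : B → ℤ, ∀ L : List (B × Bool), L.map Prod.fst = Q → Alt M h L := by
  classical
  obtain ⟨h, hh⟩ := exists_potential cs (G := ℤ) (fun s t =>
    (if (two s t Q).head? = some t then 1 else 0) - (if (two s t Q).head? = some s then 1 else 0))
    (by intro s t; rw [two_comm t s]; ring)
  refine ⟨h, ?_⟩
  rintro L rfl
  apply alt_of_altW hQ
  intro s t hst hM hhead
  have h1 := hh s t hst hM
  rw [hhead] at h1
  simp only [Option.some.injEq, hst, if_false, if_true] at h1
  omega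

end H57
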