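import Pool.Agent.H57.Walk

/-!
# Heights and the rank one increments
-/

set_option linter.unusedSectionVars false

open Finset CoxeterSystem

namespace H57

variable {B : Type*} [Fintype B] [DecidableEq B]
variable {W : Type*} [Group W] {M : CoxeterMatrix B}

/-- the diagonal operator attached to a height function. -/
def Hop (h : B → ℤ) (x : B → ℝ) : B → ℝ := fun p => (h p : ℝ) * x p

lemma Hop_add (h : B → ℤ) (x y : B → ℝ) : Hop h (x + y) = Hop h x + Hop h y := by
  funext p; simp [Hop]; ring

lemma Hop_smul (h : B → ℤ) (c : ℝ) (x : B → ℝ) : Hop h (c • x) = c • Hop h x := by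
  funext p; simp [Hop]; ring

lemma Hop_al (h : B → ℤ) (s : B) : Hop h (al s) = (h s : ℝ) • al s := by
  funext p
  by_cases hp : p = s
  · subst hp; simp [Hop]
  · simp [Hop, al_ne hp]

/-- reading the letter `s` raises its height by `2`. -/
def bump (h : B → ℤ) (s : B) : B → ℤ := Function.update h s (h s + 2)

/-- the heights after reading a word. -/
def hA (h : B → ℤ) : List (B × Bool) → (B → ℤ)
  | [] => h
  | x :: L => hA (bump h x.1) L

@[simp] lemma hA_nil (h : B → ℤ) : hA h [] = h := rfl
@[simp] lemma hA_cons (h : B → ℤ) (x : B × Bool) (L : List (B × Bool)) :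
    hA h (x :: L) = hA (bump h x.1) L := rfl

lemma hA_append (h : B → ℤ) (L L' : List (B × Bool)) : hA h (L ++ L') = hA (hA h L) L' := by
  induction L generalizing h with
  | nil => rfl
  | cons x L ih => simp [ih]

/-- `s` is a source: all its neighbours are one step higher. -/
def Src (M : CoxeterMatrix B) (h : B → ℤ) (s : B) : Prop :=
  ∀ p, p ≠ s → M p s ≠ 2 → h p = h s + 1

/-- `s` is a sink: all its neighbours are one step lower. -/
def Snk (M : CoxeterMatrix B) (h : B → ℤ) (s : B) : Prop :=
  ∀ p, p ≠ s → M p s ≠ 2 → h p = h s - 1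

/-- the word is alternating with respect to the height function: each letter is a source when it
is read. -/
def Alt (M : CoxeterMatrix B) : (B → ℤ) → List (B × Bool) → Prop
  | _, [] => True
  | h, x :: L => Src M h x.1 ∧ Alt M (bump h x.1) L

@[simp] lemma alt_nil (h : B → ℤ) : Alt M h [] := trivial
@[simp] lemma alt_cons (h : B → ℤ) (x : B × Bool) (L : List (B × Bool)) :
    Alt M h (x :: L) ↔ Src M h x.1 ∧ Alt M (bump h x.1) L := Iff.rfl

lemma alt_append (h : B → ℤ) (L L' : List (B × Bool)) :
    Alt M h (L ++ L') ↔ Alt M h L ∧ Alt M (hA h L) L' := by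
  induction L generalizing h with
  | nil => simp
  | cons x L ih => simp [ih, and_assoc]

lemma Src.snk_bump {h : B → ℤ} {s : B} (hs : Src M h s) : Snk M (bump h s) s := by
  intro p hp hM
  simp only [bump, Function.update_of_ne hp, Function.update_self]
  rw [hs p hp hM]; ring

lemma gram_eq_zero {p s : B} (h : M p s = 2) : gram M p s = 0 := by
  simp [gram, h]

lemma sum_gram_src {h : B → ℤ} {s : B} (c : ℝ) (hs : ∀ p, p ≠ s → M p s ≠ 2 → (h p : ℝ) = c)
    (y : B → ℝ) : ∑ p, Hop h y p * gram M p s = c * (ipr M y (al s) - 2 * y s) +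
      2 * (h s * y s) := by
  have hd := (gram_compat M).diag s
  rw [ipr, form_al_right, ← Finset.add_sum_erase _ _ (Finset.mem_univ s),
    ← Finset.add_sum_erase _ (fun p => y p * gram M p s) (Finset.mem_univ s), hd]
  have : ∑ p ∈ Finset.univ.erase s, Hop h y p * gram M p s =
      ∑ p ∈ Finset.univ.erase s, c * (y p * gram M p s) := by
    refine Finset.sum_congr rfl fun p hp => ?_
    by_cases hM : M p s = 2
    · rw [gram_eq_zero hM]; ring
    · rw [Hop, hs p (Finset.ne_of_mem_erase hp) hM]; ring
  rw [this, ← Finset.mul_sum]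
  simp only [Hop]
  ring

lemma ipr_Hop_src {h : B → ℤ} {s : B} (hs : Src M h s) (y : B → ℝ) :
    ipr M (Hop h y) (al s) = (h s + 1) * ipr M y (al s) - 2 * y s := by
  rw [ipr, form_al_right, sum_gram_src ((h s : ℝ) + 1)
    (fun p hp hM => by rw [hs p hp hM]; push_cast; ring)]
  ring

lemma ipr_Hop_snk {h : B → ℤ} {s : B} (hs : Snk M h s) (y : B → ℝ) :
    ipr M (Hop h y) (al s) = (h s - 1) * ipr M y (al s) + 2 * y s := by
  rw [ipr, form_al_right, sum_gram_src ((h s : ℝ) - 1)
    (fun p hp hM => by rw [hs p hp hM]; push_cast; ring)]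
  ring

lemma Hop_bump (h : B → ℤ) (s : B) (y : B → ℝ) :
    Hop (bump h s) y = Hop h y + (2 * y s) • al s := by
  funext p
  by_cases hp : p = s
  · subst hp; simp [Hop, bump]; ring
  · simp [Hop, bump, al_ne hp, hp]

variable (cs : CoxeterSystem M W)

lemma step_used {h : B → ℤ} {s : B} (hs : Src M h s) (y : B → ℝ) :
    act cs (cs.simple s) (Hop (bump h s) (act cs (cs.simple s) y)) =
      Hop h y + ipr M y (al s) • al s := by
  rw [act_simple]
  funext p
  by_cases hp : p = s
  · subst hp
    rw [sref_apply_self, Hop_bump, map_add, LinearMap.add_apply]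
    have h1 := ipr_Hop_src hs (sref (gram M) p y)
    rw [ipr] at h1
    rw [h1, map_smul, LinearMap.smul_apply, form_al_al, (gram_compat M).diag]
    have h2 : form (gram M) (sref (gram M) p y) (al p) = - ipr M y (al p) := by
      rw [sref_apply, map_sub, LinearMap.sub_apply, map_smul, LinearMap.smul_apply, form_al_al,
        (gram_compat M).diag, smul_eq_mul, ipr]
      ring
    rw [h2]
    simp only [Pi.add_apply, Pi.smul_apply, Hop, sref_apply_self, smul_eq_mul, al_self, ipr]
    ring
  · rw [sref_apply_of_ne _ hp]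
    simp [Hop, bump, al_ne hp, hp, sref_apply_of_ne _ hp]

/-- the sum over used letters -/
noncomputable def SU : List (B × Bool) → (B → ℝ) → (B → ℝ)
  | [], _ => 0
  | (s, true) :: L, x =>
      ipr M x (al s) • al s + act cs (cs.simple s) (SU L (act cs (cs.simple s) x))
  | (_, false) :: L, x => SU L x

/-- the sum over skipped letters -/
noncomputable def SK : List (B × Bool) → (B → ℝ) → (B → ℝ)
  | [], _ => 0
  | (s, true) :: L, x => act cs (cs.simple s) (SK L (act cs (cs.simple s) x))
  | (s, false) :: L, x => x s • al s + SK L x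

@[simp] lemma SU_nil (x : B → ℝ) : SU cs [] x = 0 := rfl
@[simp] lemma SK_nil (x : B → ℝ) : SK cs [] x = 0 := rfl
@[simp] lemma SU_cons_true (s : B) (L : List (B × Bool)) (x : B → ℝ) :
    SU cs ((s, true) :: L) x =
      ipr M x (al s) • al s + act cs (cs.simple s) (SU cs L (act cs (cs.simple s) x)) := rfl
@[simp] lemma SU_cons_false (s : B) (L : List (B × Bool)) (x : B → ℝ) :
    SU cs ((s, false) :: L) x = SU cs L x := rfl
@[simp] lemma SK_cons_true (s : B) (L : List (B × Bool)) (x : B → ℝ) :
    SK cs ((s, true) :: L) x = act cs (cs.simple s) (SK cs L (act cs (cs.simple s) x)) := rfl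
@[simp] lemma SK_cons_false (s : B) (L : List (B × Bool)) (x : B → ℝ) :
    SK cs ((s, false) :: L) x = x s • al s + SK cs L x := rfl

lemma act_simple_simple (s : B) (x : B → ℝ) :
    act cs (cs.simple s) (act cs (cs.simple s) x) = x := by
  rw [← act_mul]; simp

lemma SU_append (L L' : List (B × Bool)) (x : B → ℝ) :
    SU cs (L ++ L') x = SU cs L x + act cs (pr cs L) (SU cs L' (act cs (pr cs L)⁻¹ x)) := by
  induction L generalizing x with
  | nil => simp
  | cons y L ih =>
    obtain ⟨s, b⟩ := y
    cases b with
    | false => simp [ih]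
    | true =>
      simp only [List.cons_append, SU_cons_true, ih, map_add, pr_cons_true, act_mul, mul_inv_rev,
        cs.inv_simple]
      rw [add_assoc]

lemma SK_append (L L' : List (B × Bool)) (x : B → ℝ) :
    SK cs (L ++ L') x = SK cs L x + act cs (pr cs L) (SK cs L' (act cs (pr cs L)⁻¹ x)) := by
  induction L generalizing x with
  | nil => simp
  | cons y L ih =>
    obtain ⟨s, b⟩ := y
    cases b with
    | false => simp [ih, add_assoc]
    | true =>
      simp only [List.cons_append, SK_cons_true, ih, map_add, pr_cons_true, act_mul, mul_inv_rev,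
        cs.inv_simple]

/-- the main identity -/
theorem main_identity {h : B → ℤ} {L : List (B × Bool)} (hL : Alt M h L) (x : B → ℝ) :
    act cs (pr cs L) (Hop (hA h L) (act cs (pr cs L)⁻¹ x)) =
      Hop h x + SU cs L x + (2 : ℝ) • SK cs L x := by
  induction L generalizing h x with
  | nil => simp
  | cons y L ih =>
    obtain ⟨s, b⟩ := y
    rw [alt_cons] at hL
    obtain ⟨hs, hL⟩ := hL
    cases b with
    | false =>
      simp only [pr_cons_false, hA_cons, SU_cons_false, SK_cons_false]
      rw [ih hL, Hop_bump]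
      module
    | true =>
      simp only [pr_cons_true, hA_cons, SU_cons_true, SK_cons_true, act_mul, mul_inv_rev,
        cs.inv_simple]
      rw [ih hL, map_add, map_add, map_smul, step_used cs hs]
      module

variable {cs} [Finite W]

theorem SU_eq_sum {L : List (B × Bool)} (hL : Red cs L) (x : B → ℝ) :
    SU cs L x = ∑ β ∈ inver cs (pr cs L), ipr M x β • β := by
  classical
  induction L using List.reverseRecOn with
  | nil => simp [inver_one]
  | append_singleton L y ih =>
    obtain ⟨s, b⟩ := y
    rw [SU_append, ih hL.left]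
    cases b with
    | false => simp
    | true =>
      have hpos := hL.root_nonneg (L' := [])
      simp only [pr_append, pr_cons_true, pr_nil, mul_one, SU_cons_true, SU_nil, map_zero, add_zero]
      rw [inver_mul_simple hpos, Finset.sum_insert al_notMem_inver, map_smul, add_comm]
      congr 2
      rw [← act_form cs (pr cs L), act_act_inv]

/-- if all skipped letters have nonnegative coefficient and nonnegative `z`, then
`z (SK L x) ≥ 0`. -/
lemma SK_nonneg (L : List (B × Bool)) (x : B → ℝ) (z : (B → ℝ) →ₗ[ℝ] ℝ)
    (h : ∀ L₁ s L₂, L = L₁ ++ (s, false) :: L₂ →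
      0 ≤ (act cs (pr cs L₁)⁻¹ x) s ∧ 0 ≤ z (act cs (pr cs L₁) (al s))) :
    0 ≤ z (SK cs L x) := by
  induction L generalizing x z with
  | nil => simp
  | cons y L ih =>
    obtain ⟨s, b⟩ := y
    cases b with
    | false =>
      rw [SK_cons_false, map_add, map_smul, smul_eq_mul]
      have h1 := h [] s L rfl
      simp at h1
      have h2 := ih x z (fun L₁ t L₂ hL => by
        have := h ((s, false) :: L₁) t L₂ (by rw [hL]; rfl)
        simpa using this)
      have := mul_nonneg h1.1 h1.2
      linarith
    | true =>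
      rw [SK_cons_true]
      have h2 := ih (act cs (cs.simple s) x) (z ∘ₗ act cs (cs.simple s)) (fun L₁ t L₂ hL => by
        have := h ((s, true) :: L₁) t L₂ (by rw [hL]; rfl)
        simp only [pr_cons_true, mul_inv_rev, cs.inv_simple, act_mul] at this
        simpa using this)
      simpa using h2

lemma SK_pos_or (L : List (B × Bool)) (x : B → ℝ) (z : (B → ℝ) →ₗ[ℝ] ℝ)
    (h : ∀ L₁ s L₂, L = L₁ ++ (s, false) :: L₂ →
      0 ≤ (act cs (pr cs L₁)⁻¹ x) s ∧ 0 < z (act cs (pr cs L₁) (al s))) :
    0 < z (SK cs L x) ∨ SK cs L x = 0 := by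
  induction L generalizing x z with
  | nil => simp
  | cons y L ih =>
    obtain ⟨s, b⟩ := y
    cases b with
    | false =>
      have h1 := h [] s L rfl
      simp at h1
      have h2 := ih x z (fun L₁ t L₂ hL => by
        have := h ((s, false) :: L₁) t L₂ (by rw [hL]; rfl)
        simpa using this)
      have h3 := SK_nonneg (cs := cs) L x z (fun L₁ t L₂ hL => by
        have := h ((s, false) :: L₁) t L₂ (by rw [hL]; rfl)
        exact ⟨by simpa using this.1, by simpa using this.2.le⟩)
      rw [SK_cons_false]
      rcases h1.1.lt_or_eq with h4 | h4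
      · left
        rw [map_add, map_smul, smul_eq_mul]
        have := mul_pos h4 h1.2
        linarith
      · rw [← h4, zero_smul, zero_add]
        exact h2
    | true =>
      rw [SK_cons_true]
      have h2 := ih (act cs (cs.simple s) x) (z ∘ₗ act cs (cs.simple s)) (fun L₁ t L₂ hL => by
        have := h ((s, true) :: L₁) t L₂ (by rw [hL]; rfl)
        simp only [pr_cons_true, mul_inv_rev, cs.inv_simple, act_mul] at this
        simpa using this)
      rcases h2 with h2 | h2
      · left; simpa using h2
      · right; rw [h2, map_zero]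

/-- coordinatewise version -/
lemma SK_apply_nonneg (L : List (B × Bool)) (x : B → ℝ)
    (h : ∀ L₁ s L₂, L = L₁ ++ (s, false) :: L₂ →
      0 ≤ (act cs (pr cs L₁)⁻¹ x) s ∧ 0 ≤ act cs (pr cs L₁) (al s)) (p : B) :
    0 ≤ SK cs L x p := by
  have := SK_nonneg (cs := cs) L x (LinearMap.proj p) (fun L₁ s L₂ hL => by
    have := h L₁ s L₂ hL
    exact ⟨this.1, this.2 p⟩)
  simpa using this

/-- pairing `β ↔ s_u β` in the inversion set of `w` if `w⁻¹ α_u` is simple. -/
lemma pairing_sum {w : W} {u u' : B} (hw : act cs w⁻¹ (al u) = al u') :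
    ∑ β ∈ inver cs w, ipr M (al u) β • β =
      ((∑ β ∈ inver cs w, (ipr M (al u) β) ^ 2) / 2) • al u := by
  have h0 := M_ne_zero cs
  have hclosed : ∀ β ∈ inver cs w, act cs (cs.simple u) β ∈ inver cs w := by
    intro β hβ
    rw [mem_inver] at hβ ⊢
    obtain ⟨h1, h2, h3⟩ := hβ
    have hne : β ≠ al u := by
      rintro rfl
      rw [hw] at h3
      exact (isRoot_al cs u').not_both (al_nonneg u') h3
    refine ⟨h1.image _, h1.simple_act_nonneg h0 h2 hne, ?_⟩
    have e : act cs w⁻¹ (act cs (cs.simple u) β) = act cs (cs.simple u') (act cs w⁻¹ β) := by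
      rw [act_simple_eq_rr, act_simple_eq_rr, ← act_conj_rr, hw]
    rw [e]
    refine (h1.image _).simple_act_nonpos h0 h3 ?_
    intro h4
    have h5 : β = - al u := by
      have : β = act cs w (act cs w⁻¹ β) := by rw [act_act_inv]
      rw [this, h4, map_neg, ← hw, act_act_inv]
    rw [h5] at h2
    exact (isRoot_al cs u).not_both (al_nonneg u) (neg_nonneg.mp h2)
  have hsum : ∑ β ∈ inver cs w, ipr M (al u) β • β =
      ∑ β ∈ inver cs w, ipr M (al u) (act cs (cs.simple u) β) • act cs (cs.simple u) β := by
    refine Finset.sum_nbij' (fun β => act cs (cs.simple u) β) (fun β => act cs (cs.simple u) β)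
      hclosed hclosed ?_ ?_ ?_
    · intro β _; exact act_simple_simple cs u β
    · intro β _; exact act_simple_simple cs u β
    · intro β _
      simp only [act_simple_simple]
  have hterm : ∀ β : B → ℝ, ipr M (al u) (act cs (cs.simple u) β) • act cs (cs.simple u) β =
      - (ipr M (al u) β • β) + (ipr M (al u) β) ^ 2 • al u := by
    intro β
    have h1 : ipr M (al u) (act cs (cs.simple u) β) = - ipr M (al u) β := by
      have := act_form cs (cs.simple u) (al u) β
      rw [act_simple_al, map_neg, LinearMap.neg_apply] at this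
      rw [ipr]; linarith
    rw [h1, act_simple_eq_rr, rr, ipr_comm β (al u)]
    module
  rw [Finset.sum_congr rfl (fun β _ => hterm β), Finset.sum_add_distrib, Finset.sum_neg_distrib,
    ← Finset.sum_smul] at hsum
  have h2 : (2 : ℝ) • ∑ β ∈ inver cs w, ipr M (al u) β • β =
      (∑ β ∈ inver cs w, (ipr M (al u) β) ^ 2) • al u := by
    rw [two_smul]
    nth_rewrite 1 [hsum]
    abel
  rw [div_eq_inv_mul, mul_smul, ← h2, smul_smul]
  norm_num

end H57
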