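import Pool.Agent.H57.Forest
import Pool.Agent.H57.Height

/-!
# Components, and the absence of bad triples
-/

set_option linter.unusedSectionVars false

open Finset CoxeterSystem

namespace H57

variable {B : Type*} [Fintype B] [DecidableEq B]
variable {W : Type*} [Group W] {M : CoxeterMatrix B}

/-- a set of vertices closed under adjacency -/
def Closed (M : CoxeterMatrix B) (C : Set B) : Prop :=
  ∀ s t, s ∈ C → s ≠ t → M s t ≠ 2 → t ∈ C

/-- vectors supported on `C` -/
def SupC (C : Set B) (v : B → ℝ) : Prop := ∀ p, p ∉ C → v p = 0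

lemma SupC.add {C : Set B} {v w : B → ℝ} (h : SupC C v) (h' : SupC C w) : SupC C (v + w) := by
  intro p hp; simp [h p hp, h' p hp]

lemma SupC.smul {C : Set B} {v : B → ℝ} (c : ℝ) (h : SupC C v) : SupC C (c • v) := by
  intro p hp; simp [h p hp]

lemma SupC.neg {C : Set B} {v : B → ℝ} (h : SupC C v) : SupC C (-v) := by
  intro p hp; simp [h p hp]

lemma SupC.al {C : Set B} {s : B} (h : s ∈ C) : SupC C (al s) := by
  intro p hp
  apply al_ne
  rintro rfl
  exact hp h

lemma SupC.mem {C : Set B} {s : B} (h : SupC C (H57.al s)) : s ∈ C := by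
  by_contra hs
  have := h s hs
  simp at this

lemma gram_eq_zero_of_closed {C : Set B} (hC : Closed M C) {p s : B} (hp : p ∈ C) (hs : s ∉ C) :
    gram M p s = 0 := by
  have hne : p ≠ s := by rintro rfl; exact hs hp
  by_contra h
  apply hs
  apply hC p s hp hne
  intro h2
  apply h
  simp [gram, h2]

lemma SupC.ipr_al {C : Set B} (hC : Closed M C) {v : B → ℝ} (hv : SupC C v) {s : B} (hs : s ∉ C) :
    ipr M v (H57.al s) = 0 := by
  rw [ipr, form_al_right]
  apply Finset.sum_eq_zero
  intro p _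
  by_cases hp : p ∈ C
  · rw [gram_eq_zero_of_closed hC hp hs, mul_zero]
  · rw [hv p hp, zero_mul]

variable (cs : CoxeterSystem M W)

lemma SupC.act_simple_notMem {C : Set B} (hC : Closed M C) {v : B → ℝ} (hv : SupC C v) {s : B}
    (hs : s ∉ C) : act cs (cs.simple s) v = v := by
  rw [act_simple_eq_rr, rr, hv.ipr_al hC hs, zero_smul, sub_zero]

lemma SupC.act {C : Set B} (hC : Closed M C) {v : B → ℝ} (hv : SupC C v) (w : W) :
    SupC C (H57.act cs w v) := by
  induction w using cs.simple_induction_left with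
  | one => simpa using hv
  | mul_simple_left w s ih =>
    rw [act_mul]
    by_cases hs : s ∈ C
    · rw [act_simple_eq_rr, rr, sub_eq_add_neg, ← neg_smul]
      exact ih.add ((SupC.al hs).smul _)
    · rw [ih.act_simple_notMem cs hC hs]; exact ih

lemma SupC.act_iff {C : Set B} (hC : Closed M C) {v : B → ℝ} (w : W) :
    SupC C (H57.act cs w v) ↔ SupC C v := by
  refine ⟨fun h => ?_, fun h => h.act cs hC w⟩
  have := h.act cs hC w⁻¹
  rwa [act_inv_act] at this

variable {cs}

lemma SupC.orth {C : Set B} (hC : Closed M C) {v v' : B → ℝ} (hv : SupC C v)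
    (hv' : IsRoot cs v') (h : ipr M v v' ≠ 0) : SupC C v' := by
  obtain ⟨w, s, rfl⟩ := hv'
  by_cases hs : s ∈ C
  · exact (SupC.al hs).act cs hC w
  · exfalso
    apply h
    have h1 := act_form cs w (H57.act cs w⁻¹ v) (H57.al s)
    rw [act_act_inv] at h1
    rw [ipr, h1]
    exact (hv.act cs hC w⁻¹).ipr_al hC hs

variable [Finite W]

/-- no bad triples when positive inner products are at least one. -/
theorem noBad_of_big {C : Set B} (hC : Closed M C)
    (hbig : ∀ x y, IsRoot cs x → IsRoot cs y → SupC C x → SupC C y → 0 < ipr M x y →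
      1 ≤ ipr M x y) (η δ e : B → ℝ) (hη : IsRoot cs η) (hδ : IsRoot cs δ) (he : IsRoot cs e)
    (hGη : SupC C η) (hηδ : ipr M η δ < 0) (heδ : 0 < ipr M e δ) (hηe : 0 < ipr M η e) :
    ∃ x y : ℝ, 0 ≤ x ∧ 0 ≤ y ∧ e = x • η + y • δ := by
  have hGδ : SupC C δ := hGη.orth hC hδ hηδ.ne
  have hGe : SupC C e := hGη.orth hC he hηe.ne'
  have hA := gram_compat M
  set c := - ipr M η δ with hc
  set d := ipr M e δ with hd
  set a := ipr M η e with ha
  have hc1 : 1 ≤ c := by
    have := hbig (-η) δ hη.neg hδ hGη.neg hGδ (by rw [map_neg, LinearMap.neg_apply]; linarith)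
    rwa [map_neg, LinearMap.neg_apply] at this
  have hd1 : 1 ≤ d := hbig e δ he hδ hGe hGδ heδ
  have ha1 : 1 ≤ a := hbig η e hη he hGη hGe hηe
  have hc2 : c < 2 := by
    have h1 := abs_form_le cs hA hη.ipr_self hδ.ipr_self
    rw [abs_le] at h1
    rcases lt_or_eq_of_le (show c ≤ 2 by rw [hc, ipr]; linarith [h1.1]) with h2 | h2
    · exact h2
    · exfalso
      have h3 := eq_neg_of_form cs hA hη.ipr_self hδ.ipr_self (by rw [hc, ipr] at h2; linarith)
      rw [ha, h3, map_neg, LinearMap.neg_apply, ipr_comm] at hηe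
      linarith
  have hD : 0 < 4 - c ^ 2 := by nlinarith
  refine ⟨(2 * a + c * d) / (4 - c ^ 2), (2 * d + c * a) / (4 - c ^ 2), by positivity,
    by positivity, ?_⟩
  set x := (2 * a + c * d) / (4 - c ^ 2) with hx
  set y := (2 * d + c * a) / (4 - c ^ 2) with hy
  by_contra hne
  have hw : e - (x • η + y • δ) ≠ 0 := sub_ne_zero.mpr hne
  have h1 := form_pos cs hA hw
  have e1 := hη.ipr_self
  have e2 := hδ.ipr_self
  have e3 := he.ipr_self
  have e4 : ipr M η δ = -c := by rw [hc]; ring
  have e5 : ipr M δ η = -c := by rw [ipr_comm, e4]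
  have e6 : ipr M e η = a := by rw [ipr_comm]
  have e7 : ipr M δ e = d := by rw [ipr_comm]
  have h2 : ipr M (e - (x • η + y • δ)) (e - (x • η + y • δ)) =
      2 - 2 * x * a - 2 * y * d + 2 * x ^ 2 + 2 * y ^ 2 - 2 * x * y * c := by
    simp only [map_sub, map_add, map_smul, LinearMap.sub_apply, LinearMap.add_apply,
      LinearMap.smul_apply, smul_eq_mul, e1, e2, e3, e4, e5, e6, e7, ← ha, ← hd]
    ring
  have h3 : 2 - 2 * x * a - 2 * y * d + 2 * x ^ 2 + 2 * y ^ 2 - 2 * x * y * c =
      2 * (4 - c ^ 2 - a ^ 2 - d ^ 2 - a * c * d) / (4 - c ^ 2) := by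
    rw [hx, hy]; field_simp; ring
  rw [ipr] at h2
  rw [h2, h3] at h1
  have h4 : 0 < 4 - c ^ 2 - a ^ 2 - d ^ 2 - a * c * d := by
    by_contra h5
    push Not at h5
    have : 2 * (4 - c ^ 2 - a ^ 2 - d ^ 2 - a * c * d) / (4 - c ^ 2) ≤ 0 :=
      div_nonpos_of_nonpos_of_nonneg (by linarith) hD.le
    linarith
  nlinarith [mul_nonneg (sub_nonneg.mpr ha1) (sub_nonneg.mpr hc1),
    mul_nonneg (sub_nonneg.mpr ha1) (sub_nonneg.mpr hd1),
    mul_nonneg (sub_nonneg.mpr hc1) (sub_nonneg.mpr hd1),
    mul_nonneg (mul_nonneg (sub_nonneg.mpr ha1) (sub_nonneg.mpr hc1)) (sub_nonneg.mpr hd1)]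

/-- no bad triples in rank two. -/
theorem noBad_of_rank2 {C : Set B} (hC : Closed M C) {s t : B} (hst : s ≠ t)
    (hCst : ∀ p ∈ C, p = s ∨ p = t) (η δ e : B → ℝ) (hη : IsRoot cs η) (hδ : IsRoot cs δ)
    (he : IsRoot cs e) (hGη : SupC C η) (hηδ : ipr M η δ < 0) (heδ : 0 < ipr M e δ)
    (hηe : 0 < ipr M η e) : ∃ x y : ℝ, 0 ≤ x ∧ 0 ≤ y ∧ e = x • η + y • δ := by
  have hGδ : SupC C δ := hGη.orth hC hδ hηδ.ne
  have hGe : SupC C e := hGη.orth hC he hηe.ne'
  have hA := gram_compat M
  have hdec : ∀ v : B → ℝ, SupC C v → v = v s • al s + v t • al t := by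
    intro v hv
    funext p
    by_cases h1 : p = s
    · subst h1; simp [al_ne hst]
    · by_cases h2 : p = t
      · subst h2; simp [al_ne h1]
      · have h3 : p ∉ C := fun h4 => by
          rcases hCst p h4 with h5 | h5
          · exact h1 h5
          · exact h2 h5
        simp [al_ne h1, al_ne h2, hv p h3]
  set c := - ipr M η δ with hc
  set d := ipr M e δ with hd
  set a := ipr M η e with ha
  have hc0 : 0 < c := by linarith
  have hc2 : c < 2 := by
    have h1 := abs_form_le cs hA hη.ipr_self hδ.ipr_self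
    rw [abs_le] at h1
    rcases lt_or_eq_of_le (show c ≤ 2 by rw [hc, ipr]; linarith [h1.1]) with h2 | h2
    · exact h2
    · exfalso
      have h3 := eq_neg_of_form cs hA hη.ipr_self hδ.ipr_self (by rw [hc, ipr] at h2; linarith)
      rw [ha, h3, map_neg, LinearMap.neg_apply, ipr_comm] at hηe
      linarith
  have hD : 0 < 4 - c ^ 2 := by nlinarith
  -- the determinant
  set g := gram M s t with hg
  have hg' : gram M t s = g := by rw [hA.symm]
  have hipr : ∀ v w : B → ℝ, SupC C v → SupC C w → ipr M v w =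
      2 * (v s * w s) + g * (v s * w t + v t * w s) + 2 * (v t * w t) := by
    intro v w hv hw
    conv_lhs => rw [hdec v hv, hdec w hw]
    simp only [map_add, map_smul, LinearMap.add_apply, LinearMap.smul_apply, smul_eq_mul,
      form_al_al, hA.diag, ← hg, hg']
    ring
  have e1 := hη.ipr_self
  have e2 := hδ.ipr_self
  have e4 : ipr M η δ = -c := by rw [hc]; ring
  have hdet : (η s * δ t - η t * δ s) ≠ 0 := by
    intro h
    have h1 := hipr η η hGη hGη
    have h2 := hipr δ δ hGδ hGδ
    have h3 := hipr η δ hGη hGδ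
    have h4 : ipr M η η * ipr M δ δ - ipr M η δ ^ 2 =
        (4 - g ^ 2) * (η s * δ t - η t * δ s) ^ 2 := by
      rw [h1, h2, h3]; ring
    rw [h, e1, e2, e4] at h4
    nlinarith
  obtain ⟨x, y, hxy⟩ : ∃ x y : ℝ, e = x • η + y • δ := by
    refine ⟨(e s * δ t - e t * δ s) / (η s * δ t - η t * δ s),
      (η s * e t - η t * e s) / (η s * δ t - η t * δ s), ?_⟩
    funext p
    by_cases hp : p ∈ C
    · rcases hCst p hp with rfl | rfl
      · simp only [Pi.add_apply, Pi.smul_apply, smul_eq_mul]
        rw [div_mul_eq_mul_div, div_mul_eq_mul_div, ← add_div, eq_div_iff hdet]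
        ring
      · simp only [Pi.add_apply, Pi.smul_apply, smul_eq_mul]
        rw [div_mul_eq_mul_div, div_mul_eq_mul_div, ← add_div, eq_div_iff hdet]
        ring
    · simp [hGe p hp, hGη p hp, hGδ p hp]
  have h1 : a = 2 * x - c * y := by
    rw [ha, hxy, map_add, map_smul, map_smul, e1, e4]; simp only [smul_eq_mul]; ring
  have h2 : d = - c * x + 2 * y := by
    rw [hd, hxy, map_add, map_smul, map_smul, LinearMap.add_apply, LinearMap.smul_apply,
      LinearMap.smul_apply, e2, e4]; simp only [smul_eq_mul]; ring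
  refine ⟨x, y, ?_, ?_, hxy⟩
  · have : x = (2 * a + c * d) / (4 - c ^ 2) := by
      rw [h1, h2]; field_simp; ring
    rw [this]; positivity
  · have : y = (2 * d + c * a) / (4 - c ^ 2) := by
      rw [h1, h2]; field_simp; ring
    rw [this]; positivity

lemma gram_three {s t : B} (h : M s t = 3) : gram M s t = -1 := by
  rw [gram, h]; push_cast; rw [Real.cos_pi_div_three]; norm_num

lemma gram_four {s t : B} (h : M s t = 4) : gram M s t = -√2 := by
  rw [gram, h]; push_cast; rw [Real.cos_pi_div_four]; ring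

lemma gram_six {s t : B} (h : M s t = 6) : gram M s t = -√3 := by
  rw [gram, h]; push_cast; rw [Real.cos_pi_div_six]; ring

/-- in crystallographic components the positive inner products are at least one. -/
theorem big_of_cryst {C : Set B} (hC : Closed M C)
    (hlab : ∀ s t, s ∈ C → t ∈ C → s ≠ t → M s t = 2 ∨ M s t = 3 ∨ M s t = 4 ∨ M s t = 6)
    (x y : B → ℝ) (hx : IsRoot cs x) (hy : IsRoot cs y) (hGx : SupC C x) (hGy : SupC C y)
    (hpos : 0 < ipr M x y) : 1 ≤ ipr M x y := by
  classical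
  have hA := gram_compat M
  obtain ⟨κ, hκ⟩ := exists_potential cs (G := ZMod 2) (fun s t => if M s t = 4 then 1 else 0) (by
    intro s t; rw [M.symmetric t s]; split_ifs <;> decide)
  obtain ⟨κ', hκ'⟩ := exists_potential cs (G := ZMod 2) (fun s t => if M s t = 6 then 1 else 0) (by
    intro s t; rw [M.symmetric t s]; split_ifs <;> decide)
  set f : ZMod 2 → ℝ := fun a => if a = 0 then 1 else √2 with hf
  set f' : ZMod 2 → ℝ := fun a => if a = 0 then 1 else √3 with hf'
  have hf0 : ∀ a, 0 < f a := by intro a; simp only [hf]; split_ifs <;> positivity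
  have hf'0 : ∀ a, 0 < f' a := by intro a; simp only [hf']; split_ifs <;> positivity
  set k : B → ℝ := fun s => f (κ s) * f' (κ' s) with hk
  have hk0 : ∀ s, 0 < k s := fun s => mul_pos (hf0 _) (hf'0 _)
  have s2 : √2 * √2 = 2 := Real.mul_self_sqrt (by norm_num)
  have s3 : √3 * √3 = 3 := Real.mul_self_sqrt (by norm_num)
  have hz : ∀ a b : ZMod 2, a - b = 1 → (a = 0 ∧ b ≠ 0) ∨ (a ≠ 0 ∧ b = 0) := by decide
  have hint : ∀ s t, s ∈ C → t ∈ C → ∃ n : ℤ, k s * gram M s t = n * k t := by
    intro s t hs ht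
    by_cases hst : s = t
    · subst hst
      refine ⟨2, ?_⟩
      rw [hA.diag]; push_cast; ring
    · rcases hlab s t hs ht hst with h | h | h | h
      · exact ⟨0, by rw [gram_eq_zero h]; simp⟩
      · have h1 := hκ s t hst (by omega)
        have h2 := hκ' s t hst (by omega)
        rw [if_neg (by omega), sub_eq_zero] at h1 h2
        refine ⟨-1, ?_⟩
        rw [gram_three h]
        simp only [hk, h1, h2]; push_cast; ring
      · have h1 := hκ s t hst (by omega)
        have h2 := hκ' s t hst (by omega)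
        rw [if_pos h] at h1
        rw [if_neg (by omega), sub_eq_zero] at h2
        rw [gram_four h]
        simp only [hk, h2]
        rcases hz _ _ h1 with ⟨h3, h4⟩ | ⟨h3, h4⟩
        · refine ⟨-1, ?_⟩
          simp only [hf, h3, h4, if_true, if_false]; push_cast; ring
        · refine ⟨-2, ?_⟩
          simp only [hf, h3, h4, if_true, if_false]; push_cast
          linear_combination (-f' (κ' t)) * s2
      · have h1 := hκ s t hst (by omega)
        have h2 := hκ' s t hst (by omega)
        rw [if_pos h] at h2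
        rw [if_neg (by omega), sub_eq_zero] at h1
        rw [gram_six h]
        simp only [hk, h1]
        rcases hz _ _ h2 with ⟨h3, h4⟩ | ⟨h3, h4⟩
        · refine ⟨-1, ?_⟩
          simp only [hf', h3, h4, if_true, if_false]; push_cast; ring
        · refine ⟨-3, ?_⟩
          simp only [hf', h3, h4, if_true, if_false]; push_cast
          linear_combination (-f (κ t)) * s3
  -- the lattice
  let Lat : (B → ℝ) → Prop := fun v => SupC C v ∧ ∀ p, ∃ n : ℤ, v p = n * k p
  have hpair : ∀ v, Lat v → ∀ t, t ∈ C → ∃ n : ℤ, ipr M v (al t) = n * k t := by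
    intro v hv t ht
    rw [ipr, form_al_right]
    have : ∀ p, ∃ n : ℤ, v p * gram M p t = n * k t := by
      intro p
      by_cases hp : p ∈ C
      · obtain ⟨n, hn⟩ := hv.2 p
        obtain ⟨m, hm⟩ := hint p t hp ht
        exact ⟨n * m, by rw [hn]; push_cast; linear_combination (n : ℝ) * hm⟩
      · exact ⟨0, by rw [hv.1 p hp]; simp⟩
    choose n hn using this
    refine ⟨∑ p, n p, ?_⟩
    simp only [hn]
    push_cast
    rw [Finset.sum_mul]
  have hstab : ∀ v w, Lat v → Lat (act cs w v) := by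
    intro v w hv
    refine ⟨hv.1.act cs hC w, ?_⟩
    induction w using cs.simple_induction_left with
    | one => simpa using hv.2
    | mul_simple_left w s ih =>
      rw [act_mul]
      have hL : Lat (act cs w v) := ⟨hv.1.act cs hC w, ih⟩
      by_cases hs : s ∈ C
      · intro p
        obtain ⟨n, hn⟩ := ih p
        by_cases hp : p = s
        · subst hp
          obtain ⟨m, hm⟩ := hpair _ hL p hs
          refine ⟨n - m, ?_⟩
          rw [act_simple, sref_apply_self, hn]
          rw [ipr] at hm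
          rw [hm]; push_cast; ring
        · exact ⟨n, by rw [act_simple, sref_apply_of_ne _ hp, hn]⟩
      · rw [hL.1.act_simple_notMem cs hC hs]; exact ih
  have hLal : ∀ s, s ∈ C → Lat (k s • al s) := by
    intro s hs
    refine ⟨(SupC.al hs).smul _, fun p => ?_⟩
    by_cases hp : p = s
    · subst hp; exact ⟨1, by simp⟩
    · exact ⟨0, by simp [al_ne hp]⟩
  have hmain : ∀ (w w' : W) (s t : B), s ∈ C → t ∈ C →
      ∃ n : ℤ, k s * ipr M (act cs w (al s)) (act cs w' (al t)) = n * k t := by
    intro w w' s t hs ht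
    obtain ⟨n, hn⟩ := hpair _ (hstab _ (w'⁻¹ * w) (hLal s hs)) t ht
    refine ⟨n, ?_⟩
    rw [← hn, map_smul, map_smul, LinearMap.smul_apply, smul_eq_mul, act_mul]
    congr 1
    have h1 := act_form cs w' (act cs w'⁻¹ (act cs w (al s))) (al t)
    rw [act_act_inv] at h1
    exact h1
  obtain ⟨w, s, rfl⟩ := hx
  obtain ⟨w', t, rfl⟩ := hy
  have hs : s ∈ C := SupC.mem ((SupC.act_iff cs hC w).mp hGx)
  have ht : t ∈ C := SupC.mem ((SupC.act_iff cs hC w').mp hGy)
  obtain ⟨n, hn⟩ := hmain w w' s t hs ht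
  obtain ⟨m, hm⟩ := hmain w' w t s ht hs
  rw [ipr_comm] at hm
  set r := ipr M (act cs w (al s)) (act cs w' (al t)) with hr
  have h1 : r ^ 2 = n * m := by
    have h2 := hk0 s
    have h3 := hk0 t
    have h4 : (k s * k t) * r ^ 2 = (k s * k t) * (n * m) := by
      calc (k s * k t) * r ^ 2 = (k s * r) * (k t * r) := by ring
        _ = (n * k t) * (m * k s) := by rw [hn, hm]
        _ = _ := by ring
    exact mul_left_cancel₀ (mul_pos h2 h3).ne' h4
  have h2 : (0 : ℝ) < ((n * m : ℤ) : ℝ) := by push_cast; rw [← h1]; positivity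
  have h3 : (1 : ℤ) ≤ n * m := by
    have : (0 : ℤ) < n * m := by exact_mod_cast h2
    omega
  have h4 : (1 : ℝ) ≤ r ^ 2 := by
    rw [h1]; exact_mod_cast h3
  nlinarith

end H57
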