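import Pool.Agent.H57.Weak

/-!
# The congruence
-/

set_option linter.unusedSectionVars false

open Finset CoxeterSystem

namespace H57

variable {B : Type*} [Fintype B] [DecidableEq B]
variable {W : Type*} [Group W] {M : CoxeterMatrix B}
variable {cs : CoxeterSystem M W} [Finite W]

/-- validity is convex -/
lemma Valid.convex {L : List (B × Bool)} {u v w : W} (hu : Valid cs u L) (hw : Valid cs w L)
    (h1 : inver cs u ⊆ inver cs v) (h2 : inver cs v ⊆ inver cs w) : Valid cs v L := by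
  have h0 := M_ne_zero cs
  intro L₁ s L₂ he
  set ρ := act cs (pr cs L₁) (al s) with hρ
  have hρr : IsRoot cs ρ := (isRoot_al cs s).image _
  have g1 := hu L₁ s L₂ he
  have g2 := hw L₁ s L₂ he
  rw [← hρ] at g1 g2
  rcases hρr.pos_or_neg h0 with h | h
  · rw [← notMem_inver hρr h] at g2 ⊢
    exact fun h3 => g2 (h2 h3)
  · have h3 : -ρ ∈ inver cs u := by
      rw [mem_inver]
      exact ⟨hρr.neg, neg_nonneg.mpr h, by rw [map_neg]; exact neg_nonpos.mpr g1⟩
    have h4 := h1 h3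
    rw [mem_inver, map_neg] at h4
    exact neg_nonpos.mp h4.2.2

namespace Poly

variable {s t : B} {x y : W}

/-- signs at `x` and `x s_a` agree away from the polygon -/
lemma sign_mul_simple (hP : Poly cs s t x y) {p : W} (hp : ∀ (v : B → ℝ) c, c ≠ s → c ≠ t →
    act cs p⁻¹ v c = act cs x⁻¹ v c) {ρ : B → ℝ} (h : IsRoot cs ρ) (h1 : ¬ hP.Psi ρ)
    (h2 : 0 ≤ act cs p⁻¹ ρ) : 0 ≤ act cs x⁻¹ ρ := by
  have h0 := M_ne_zero cs
  have h3 : ∃ c, c ≠ s ∧ c ≠ t ∧ act cs x⁻¹ ρ c ≠ 0 := by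
    by_contra hc
    push Not at hc
    exact h1 ⟨h, hc⟩
  obtain ⟨c, hc1, hc2, hc3⟩ := h3
  rw [← (h.image x⁻¹).not_nonpos_iff h0]
  intro h4
  have h5 := h2 c
  have h6 := h4 c
  simp only [Pi.zero_apply] at h5 h6
  rw [hp ρ c hc1 hc2] at h5
  exact hc3 (le_antisymm h6 h5)

/-- Polygon property (P1) -/
theorem P1 (hPF : PF cs) (hP : Poly cs s t x y) {Q : List B} {ω : W} {h : B → ℤ}
    (halt : ∀ L : List (B × Bool), L.map Prod.fst = Q → Alt M h L)
    (hω : inver cs y ⊆ inver cs ω) {L1 L2 : List (B × Bool)} (F1 : Facet cs Q ω L1)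
    (V1 : Valid cs x L1) (V1' : Valid cs (x * cs.simple s) L1) (F2 : Facet cs Q ω L2)
    (V2 : Valid cs (x * cs.simple t) L2) : Valid cs y L2 := by
  have h0 := M_ne_zero cs
  set α := act cs x (al t) with hα
  have hαP : hP.Psi α := hP.psi_xt
  have hα0 : 0 ≤ α := hP.xt
  have hαω : α ∈ inver cs ω := hω (hαP.mem_y hα0)
  have hxtα : act cs (x * cs.simple t)⁻¹ α = - al t := by
    rw [mul_inv_rev, cs.inv_simple, act_mul, hα, act_inv_act, act_simple_al]
  have hnot : ¬ (0 ≤ act cs (x * cs.simple t)⁻¹ α) := by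
    rw [hxtα]
    intro h1
    exact (isRoot_al cs t).not_both (al_nonneg t) (neg_nonneg.mp h1)
  -- the skip roots of `L1` in the polygon
  have hK : ∀ K₁ c K₂, L1 = K₁ ++ (c, false) :: K₂ → hP.Psi (act cs (pr cs K₁) (al c)) →
      act cs (pr cs K₁) (al c) = α := by
    intro K₁ c K₂ he hPsi
    rcases hP.K_bot hPF (halt L1 F1.word) F1 hω V1 he hPsi with h1 | h1
    · exfalso
      have h2 := V1' K₁ c K₂ he
      rw [mul_inv_rev, cs.inv_simple, act_mul, h1, act_simple_al] at h2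
      exact (isRoot_al cs s).not_both (al_nonneg s) (neg_nonneg.mp h2)
    · apply act_injective cs x⁻¹
      rw [h1, hα, act_inv_act]
  have hcoord : ∀ (v : B → ℝ) c, c ≠ s → c ≠ t →
      act cs (x * cs.simple t)⁻¹ v c = act cs x⁻¹ v c := by
    intro v c _ hc2
    rw [mul_inv_rev, cs.inv_simple, act_mul, act_simple, sref_apply_of_ne _ hc2]
  have hxtω : inver cs (x * cs.simple t) ⊆ inver cs ω := hP.sub_xt.trans hω
  -- it suffices to know the skip roots of `L2` in the polygon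
  suffices hS : ∀ K₁ c K₂, L2 = K₁ ++ (c, false) :: K₂ → hP.Psi (act cs (pr cs K₁) (al c)) →
      act cs (pr cs K₁) (al c) = -α by
    intro K₁ c K₂ he
    by_cases hPsi : hP.Psi (act cs (pr cs K₁) (al c))
    · rw [hS K₁ c K₂ he hPsi, map_neg]
      exact neg_nonneg.mpr (hαP.y_nonpos hα0)
    · rw [← hP.sign_iff ((isRoot_al cs c).image _) hPsi]
      exact hP.sign_mul_simple hcoord ((isRoot_al cs c).image _) hPsi (V2 _ _ _ he)
  rcases cross_up F1 V1 hP.xt hαω with hv | ⟨L', hsw, hF', hV'⟩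
  · have e : L2 = L1 := valid_unique _ hxtω F2 F1 V2 hv
    intro K₁ c K₂ he hPsi
    exfalso
    rw [e] at he
    have h1 := hv K₁ c K₂ he
    rw [hK K₁ c K₂ he hPsi] at h1
    exact hnot h1
  · have e : L2 = L' := valid_unique _ hxtω F2 hF' V2 hV'
    obtain ⟨A, a, Bm, b, C, e1, e2, e3, e4, e5⟩ := hsw.ex
    rw [← hα] at e3 e4 e5
    intro K₁ c K₂ he hPsi
    have he' := he
    rw [e, e2] at he
    rcases cases5 he with ⟨A', g1, g2⟩ | ⟨g1, g2, g3⟩ | ⟨B₁, B₂, g1, g2, g3⟩ | ⟨g1, g2, g3⟩ |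
      ⟨C₁, g1, g2⟩
    · exfalso
      exact e5 _ _ _ g1 (hK K₁ c (A' ++ (a, false) :: (Bm ++ (b, true) :: C))
        (by rw [e1, g1]; simp) hPsi)
    · simp at g2
    · rw [g2, act_used_eq, e3] at hPsi ⊢
      have h1 : hP.Psi (act cs (pr cs (A ++ (a, false) :: B₁)) (al c)) := by
        have := hαP.reflect hPsi
        rwa [rr_rr hαP.1] at this
      have h2 := hK (A ++ (a, false) :: B₁) c (B₂ ++ (b, true) :: C) (by rw [e1, g1]; simp) h1
      rw [h2, rr_self hαP.1]
    · simp only [Prod.mk.injEq, and_true] at g2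
      rw [g1, g2, act_used_eq, e3, pr_skip, e4, rr_self hαP.1]
    · exfalso
      have hswap := swap_pr (e3.trans rfl) e4
      have e6 : pr cs (A ++ (a, true) :: (Bm ++ (b, false) :: C₁)) =
          pr cs (A ++ (a, false) :: (Bm ++ (b, true) :: C₁)) := by
        simp only [pr_append, pr_cons_true, pr_cons_false]
        rw [← mul_assoc, ← mul_assoc, ← mul_assoc, ← mul_assoc, ← hswap]
      rw [g2, e6] at hPsi
      have h1 := hK (A ++ (a, false) :: (Bm ++ (b, true) :: C₁)) c K₂ (by rw [e1, g1]; simp) hPsi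
      have h2 := V2 K₁ c K₂ he'
      rw [g2, e6, h1] at h2
      exact hnot h2

/-- Polygon property (P2) -/
theorem P2 (hPF : PF cs) (hP : Poly cs s t x y) {Q : List B} {ω : W} {h : B → ℤ}
    (halt : ∀ L : List (B × Bool), L.map Prod.fst = Q → Alt M h L)
    (hω : inver cs y ⊆ inver cs ω) {L1 L2 : List (B × Bool)} (F1 : Facet cs Q ω L1)
    (V1 : Valid cs y L1) (V1' : Valid cs (y * cs.simple s) L1) (F2 : Facet cs Q ω L2)
    (V2 : Valid cs (y * cs.simple t) L2) : Valid cs x L2 := by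
  classical
  have h0 := M_ne_zero cs
  set p := y * cs.simple t with hp
  set α := act cs p (al t) with hα
  have hαy : α = - act cs y (al t) := by rw [hα, hp, act_mul, act_simple_al, map_neg]
  have hyα : act cs y (al t) = -α := by rw [hαy, neg_neg]
  have hαP : hP.Psi α := by rw [hαy]; exact hP.psi_yt.neg
  have hα0 : 0 ≤ α := by rw [hαy]; exact neg_nonneg.mpr hP.yt
  have hαω : α ∈ inver cs ω := hω (hαP.mem_y hα0)
  have hpα : act cs p⁻¹ (-α) = - al t := by rw [map_neg, hα, act_inv_act]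
  have hnot : ¬ (0 ≤ act cs p⁻¹ (-α)) := by
    rw [hpα]
    intro h1
    exact (isRoot_al cs t).not_both (al_nonneg t) (neg_nonneg.mp h1)
  have hK : ∀ K₁ c K₂, L1 = K₁ ++ (c, false) :: K₂ → hP.Psi (act cs (pr cs K₁) (al c)) →
      act cs (pr cs K₁) (al c) = -α := by
    intro K₁ c K₂ he hPsi
    rcases hP.K_top hPF (halt L1 F1.word) F1 hω V1 he hPsi with h1 | h1
    · exfalso
      have h2 := V1' K₁ c K₂ he
      rw [mul_inv_rev, cs.inv_simple, act_mul, h1, act_simple_al] at h2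
      exact (isRoot_al cs s).not_both (al_nonneg s) (neg_nonneg.mp h2)
    · apply act_injective cs y⁻¹
      rw [h1, ← hyα, act_inv_act]
  have hcoord : ∀ (v : B → ℝ) c, c ≠ s → c ≠ t → act cs p⁻¹ v c = act cs x⁻¹ v c := by
    intro v c hc1 hc2
    rw [hp, mul_inv_rev, cs.inv_simple, act_mul, act_simple, sref_apply_of_ne _ hc2,
      hP.coset' v hc1 hc2]
  have hpsub : inver cs p ⊆ inver cs y := by
    rw [inver_mul_simple_of_nonpos hP.yt]
    exact Finset.subset_insert _ _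
  have hpω : inver cs p ⊆ inver cs ω := hpsub.trans hω
  have hypt : y = p * cs.simple t := by rw [hp, cs.simple_mul_simple_cancel_right]
  suffices hS : ∀ K₁ c K₂, L2 = K₁ ++ (c, false) :: K₂ → hP.Psi (act cs (pr cs K₁) (al c)) →
      act cs (pr cs K₁) (al c) = α by
    intro K₁ c K₂ he
    by_cases hPsi : hP.Psi (act cs (pr cs K₁) (al c))
    · rw [hS K₁ c K₂ he hPsi]
      exact hαP.nonneg_iff.mp hα0
    · exact hP.sign_mul_simple hcoord ((isRoot_al cs c).image _) hPsi (V2 _ _ _ he)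
  rw [hypt] at V1
  rcases cross_down F1 V1 hα0 hαω with hv | ⟨L', hsw, hF', hV'⟩
  · have e : L2 = L1 := valid_unique _ hpω F2 F1 V2 hv
    intro K₁ c K₂ he hPsi
    exfalso
    rw [e] at he
    have h1 := hv K₁ c K₂ he
    rw [hK K₁ c K₂ he hPsi] at h1
    exact hnot h1
  · have e : L2 = L' := valid_unique _ hpω F2 hF' V2 hV'
    obtain ⟨A, a, Bm, b, C, e1, e2, e3, e4, e5⟩ := hsw.ex
    rw [← hα] at e3 e4 e5
    intro K₁ c K₂ he hPsi
    have he' := he
    rw [e, e1] at he
    rcases cases5 he with ⟨A', g1, g2⟩ | ⟨g1, g2, g3⟩ | ⟨B₁, B₂, g1, g2, g3⟩ | ⟨g1, g2, g3⟩ |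
      ⟨C₁, g1, g2⟩
    · exfalso
      have h1 := hK K₁ c (A' ++ (a, true) :: (Bm ++ (b, false) :: C)) (by rw [e2, g1]; simp) hPsi
      have h2 := V2 K₁ c K₂ he'
      rw [h1] at h2
      exact hnot h2
    · simp only [Prod.mk.injEq, and_true] at g2
      rw [g1, g2, e3]
    · have h1 : hP.Psi (act cs (pr cs (A ++ (a, true) :: B₁)) (al c)) := by
        rw [act_used_eq, e3, ← g2]
        exact hαP.reflect hPsi
      have h2 := hK (A ++ (a, true) :: B₁) c (B₂ ++ (b, false) :: C) (by rw [e2, g1]; simp) h1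
      rw [act_used_eq, e3, ← g2] at h2
      have h3 := congrArg (rr M α) h2
      rw [rr_rr hαP.1, rr_neg, rr_self hαP.1, neg_neg] at h3
      exact h3
    · simp at g2
    · exfalso
      have hswap := swap_pr (e3.trans rfl) e4
      have e6 : pr cs (A ++ (a, false) :: (Bm ++ (b, true) :: C₁)) =
          pr cs (A ++ (a, true) :: (Bm ++ (b, false) :: C₁)) := by
        simp only [pr_append, pr_cons_true, pr_cons_false]
        rw [← mul_assoc, ← mul_assoc, ← mul_assoc, ← mul_assoc, ← hswap]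
      rw [g2, e6] at hPsi
      have h1 := hK (A ++ (a, true) :: (Bm ++ (b, false) :: C₁)) c K₂ (by rw [e2, g1]; simp) hPsi
      have h2 := V2 K₁ c K₂ he'
      rw [g2, e6, h1] at h2
      exact hnot h2

end Poly

/-- The subword complex equivalence. -/
def SR (cs : CoxeterSystem M W) (Q : List B) (ω p p' : W) : Prop :=
  ∃ L, Facet cs Q ω L ∧ Valid cs p L ∧ Valid cs p' L

lemma SR.symm {Q : List B} {ω p p' : W} (h : SR cs Q ω p p') : SR cs Q ω p' p := by
  obtain ⟨L, h1, h2, h3⟩ := h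
  exact ⟨L, h1, h3, h2⟩

lemma SR.refl {Q : List B} {ω p : W} (hQ : Has cs Q ω) (hp : inver cs p ⊆ inver cs ω) :
    SR cs Q ω p p := by
  obtain ⟨L, h1, h2⟩ := valid_exists hQ p hp
  exact ⟨L, h1, h2, h2⟩

lemma SR.trans {Q : List B} {ω p p' p'' : W} (hp : inver cs p' ⊆ inver cs ω)
    (h : SR cs Q ω p p') (h' : SR cs Q ω p' p'') : SR cs Q ω p p'' := by
  obtain ⟨L, h1, h2, h3⟩ := h
  obtain ⟨L', h1', h2', h3'⟩ := h'
  have e := valid_unique p' hp h1 h1' h3 h2'
  subst e
  exact ⟨L, h1, h2, h3'⟩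

lemma SR.convex_left {Q : List B} {ω u v w : W} (h : SR cs Q ω u w)
    (h1 : inver cs u ⊆ inver cs v) (h2 : inver cs v ⊆ inver cs w) : SR cs Q ω u v := by
  obtain ⟨L, g1, g2, g3⟩ := h
  exact ⟨L, g1, g2, g2.convex g3 h1 h2⟩

lemma SR.convex_right {Q : List B} {ω u v w : W} (h : SR cs Q ω u w)
    (h1 : inver cs u ⊆ inver cs v) (h2 : inver cs v ⊆ inver cs w) : SR cs Q ω v w := by
  obtain ⟨L, g1, g2, g3⟩ := h
  exact ⟨L, g1, g2.convex g3 h1 h2, g3⟩

lemma IsJ.unique {a b j j' : W} (h : IsJ cs a b j) (h' : IsJ cs a b j') : j = j' := by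
  apply inver_injective (cs := cs)
  exact Finset.Subset.antisymm (h.2.2 _ h'.1 h'.2.1) (h'.2.2 _ h.1 h.2.1)

lemma IsMt.unique {a b j j' : W} (h : IsMt cs a b j) (h' : IsMt cs a b j') : j = j' := by
  apply inver_injective (cs := cs)
  exact Finset.Subset.antisymm (h'.2.2 _ h.1 h.2.1) (h.2.2 _ h'.1 h'.2.1)

lemma one_sub (w : W) : inver cs (1 : W) ⊆ inver cs w := by
  rw [inver_one]; exact Finset.empty_subset _

/-- the chain lemma for joins -/
theorem chain_up (hPF : PF cs) {Q : List B} {ω : W} {h : B → ℤ}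
    (halt : ∀ L : List (B × Bool), L.map Prod.fst = Q → Alt M h L) (hQ : Has cs Q ω) :
    ∀ (n : ℕ) (u v b j : W), cs.length ω - cs.length u = n → inver cs u ⊆ inver cs v →
      inver cs v ⊆ inver cs ω → SR cs Q ω u v → inver cs u ⊆ inver cs b →
      inver cs b ⊆ inver cs ω → IsJ cs v b j → SR cs Q ω b j := by
  classical
  intro n
  induction n using Nat.strong_induction_on with
  | _ n ih =>
  intro u v b j hn huv hvω hR hub hbω hj
  have hjω : inver cs j ⊆ inver cs ω := hj.2.2 ω hvω hbω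
  by_cases huv' : u = v
  · subst huv'
    have : j = b := hj.unique ⟨hub, Finset.Subset.refl _, fun c _ h => h⟩
    rw [this]; exact SR.refl hQ hbω
  obtain ⟨s, hs, hsv⟩ := exists_cover_up huv huv'
  have hus : inver cs u ⊆ inver cs (u * cs.simple s) := by
    rw [inver_mul_simple hs]; exact Finset.subset_insert _ _
  have hls := length_mul_simple_of_nonneg hs
  have hsω : inver cs (u * cs.simple s) ⊆ inver cs ω := hsv.trans hvω
  have hlω := length_le_of_subset hsω
  have hR1 : SR cs Q ω u (u * cs.simple s) := hR.convex_left hus hsv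
  have hR2 : SR cs Q ω (u * cs.simple s) v := hR.convex_right hus hsv
  -- the join with the cover
  obtain ⟨j1, hj1ω, hj1⟩ := exists_join (cs := cs) (ω := ω) _ 1 (u * cs.simple s) b rfl
    (one_sub _) (one_sub _) hsω hbω
  have hstepA : SR cs Q ω b j1 := by
    by_cases hub' : u = b
    · subst hub'
      have : j1 = u * cs.simple s := hj1.unique ⟨Finset.Subset.refl _, hus, fun c h _ => h⟩
      rw [this]; exact hR1
    obtain ⟨t, ht, htb⟩ := exists_cover_up hub hub'
    have hlt := length_mul_simple_of_nonneg ht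
    by_cases hst : s = t
    · subst hst
      have : j1 = b := hj1.unique ⟨htb, Finset.Subset.refl _, fun c _ h => h⟩
      rw [this]; exact SR.refl hQ hbω
    obtain ⟨y, hP⟩ := exists_poly_top hst hs ht
    have hJ := hP.isJ
    have htω : inver cs (u * cs.simple t) ⊆ inver cs ω := htb.trans hbω
    have hyω : inver cs y ⊆ inver cs ω := hJ.2.2 ω hsω htω
    obtain ⟨L1, F1, V1, V1'⟩ := hR1
    obtain ⟨L2, F2, V2⟩ := valid_exists hQ (u * cs.simple t) htω
    have hVy := hP.P1 hPF halt hyω F1 V1 V1' F2 V2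
    have hRty : SR cs Q ω (u * cs.simple t) y := ⟨L2, F2, V2, hVy⟩
    refine ih _ (by have := length_le_of_subset htω; omega) (u * cs.simple t) y b j1 rfl
      hJ.2.1 hyω hRty htb hbω ?_
    refine ⟨?_, hj1.2.1, ?_⟩
    · exact hJ.2.2 j1 hj1.1 (htb.trans hj1.2.1)
    · intro c h1 h2
      exact hj1.2.2 c (hJ.1.trans h1) h2
  have hstepB : SR cs Q ω j1 j := by
    refine ih _ (by omega) (u * cs.simple s) v j1 j rfl hsv hvω hR2 hj1.1 hj1ω ?_
    refine ⟨hj.1, hj1.2.2 j (hsv.trans hj.1) hj.2.1, ?_⟩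
    intro c h1 h2
    exact hj.2.2 c h1 (hj1.2.1.trans h2)
  exact hstepA.trans hj1ω hstepB

/-- the chain lemma for meets -/
theorem chain_down (hPF : PF cs) {Q : List B} {ω : W} {h : B → ℤ}
    (halt : ∀ L : List (B × Bool), L.map Prod.fst = Q → Alt M h L) (hQ : Has cs Q ω) :
    ∀ (n : ℕ) (u v b m : W), cs.length v = n → inver cs u ⊆ inver cs v →
      inver cs v ⊆ inver cs ω → SR cs Q ω u v → inver cs b ⊆ inver cs v →
      IsMt cs u b m → SR cs Q ω m b := by
  classical
  intro n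
  induction n using Nat.strong_induction_on with
  | _ n ih =>
  intro u v b m hn huv hvω hR hbv hm
  have hbω : inver cs b ⊆ inver cs ω := hbv.trans hvω
  by_cases huv' : u = v
  · subst huv'
    have : m = b := hm.unique ⟨hbv, Finset.Subset.refl _, fun c _ h => h⟩
    rw [this]; exact SR.refl hQ hbω
  obtain ⟨s, hs, hsv⟩ := exists_cover_down huv huv'
  have hus : inver cs (v * cs.simple s) ⊆ inver cs v := by
    rw [inver_mul_simple_of_nonpos hs]; exact Finset.subset_insert _ _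
  have hls := length_mul_simple_of_nonpos hs
  have hR1 : SR cs Q ω (v * cs.simple s) v := hR.convex_right hsv hus
  have hR2 : SR cs Q ω u (v * cs.simple s) := hR.convex_left hsv hus
  obtain ⟨m1, hm1⟩ := exists_meet (cs := cs) _ v (v * cs.simple s) b rfl hus hbv
  have hm1ω : inver cs m1 ⊆ inver cs ω := hm1.2.1.trans hbω
  have hstepA : SR cs Q ω m1 b := by
    by_cases hvb' : b = v
    · subst hvb'
      have : m1 = b * cs.simple s := hm1.unique ⟨Finset.Subset.refl _, hus, fun c h _ => h⟩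
      rw [this]; exact hR1
    obtain ⟨t, ht, htb⟩ := exists_cover_down hbv hvb'
    have hlt := length_mul_simple_of_nonpos ht
    by_cases hst : s = t
    · subst hst
      have : m1 = b := hm1.unique ⟨htb, Finset.Subset.refl _, fun c _ h => h⟩
      rw [this]; exact SR.refl hQ hbω
    obtain ⟨x, hP⟩ := exists_poly_bot hst hs ht
    have hJ := hP.isMt
    have hvt : inver cs (v * cs.simple t) ⊆ inver cs v := by
      rw [inver_mul_simple_of_nonpos ht]; exact Finset.subset_insert _ _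
    have htω : inver cs (v * cs.simple t) ⊆ inver cs ω := hvt.trans hvω
    obtain ⟨L1, F1, V1', V1⟩ := hR1
    obtain ⟨L2, F2, V2⟩ := valid_exists hQ (v * cs.simple t) htω
    have hVx := hP.P2 hPF halt hvω F1 V1 V1' F2 V2
    have hRxt : SR cs Q ω x (v * cs.simple t) := ⟨L2, F2, hVx, V2⟩
    refine ih _ (by omega) x (v * cs.simple t) b m1 rfl hJ.2.1 htω hRxt htb ?_
    refine ⟨?_, hm1.2.1, ?_⟩
    · exact hJ.2.2 m1 hm1.1 (hm1.2.1.trans htb)
    · intro c h1 h2
      exact hm1.2.2 c (h1.trans hJ.1) h2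
  have hstepB : SR cs Q ω m m1 := by
    refine ih _ (by omega) u (v * cs.simple s) m1 m rfl hsv (hus.trans hvω) hR2 hm1.1 ?_
    refine ⟨hm.1, hm1.2.2 m (hm.1.trans hsv) hm.2.1, ?_⟩
    intro c h1 h2
    exact hm.2.2 c h1 (h2.trans hm1.2.1)
  exact hstepB.trans hm1ω hstepA

/-- a step of a gallery inside a class -/
lemma SR.step {Q : List B} {ω a b : W} (hR : SR cs Q ω a b) (hne : a ≠ b)
    (haω : inver cs a ⊆ inver cs ω) (hbω : inver cs b ⊆ inver cs ω) :
    ∃ s, cs.length ((a * cs.simple s)⁻¹ * b) < cs.length (a⁻¹ * b) ∧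
      inver cs (a * cs.simple s) ⊆ inver cs ω ∧ SR cs Q ω a (a * cs.simple s) ∧
      SR cs Q ω (a * cs.simple s) b ∧
      (inver cs a ⊆ inver cs (a * cs.simple s) ∨ inver cs (a * cs.simple s) ⊆ inver cs a) := by
  classical
  have h0 := M_ne_zero cs
  have h1 : b⁻¹ * a ≠ 1 := by
    intro h2; apply hne; rw [inv_mul_eq_one] at h2; exact h2.symm
  obtain ⟨s, hs⟩ := cs.exists_rightDescent_of_ne_one h1
  have h2 := act_al_nonpos cs h0 _ s hs
  rw [act_mul] at h2
  set β := act cs a (al s) with hβ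
  have hβr : IsRoot cs β := (isRoot_al cs s).image a
  refine ⟨s, ?_, ?_, ?_⟩
  · rw [← cs.length_inv ((a * cs.simple s)⁻¹ * b), ← cs.length_inv (a⁻¹ * b)]
    have e2 : ((a * cs.simple s)⁻¹ * b)⁻¹ = b⁻¹ * a * cs.simple s := by
      simp [mul_assoc]
    have e3 : (a⁻¹ * b)⁻¹ = b⁻¹ * a := by group
    rw [e2, e3]
    exact hs
  · rcases hβr.pos_or_neg h0 with h3 | h3
    · rw [inver_mul_simple h3, Finset.insert_subset_iff]
      exact ⟨hbω (mem_inver.mpr ⟨hβr, h3, h2⟩), haω⟩
    · have : inver cs (a * cs.simple s) ⊆ inver cs a := by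
        rw [inver_mul_simple_of_nonpos h3]; exact Finset.subset_insert _ _
      exact this.trans haω
  · obtain ⟨L, hF, hVa, hVb⟩ := hR
    have hV : Valid cs (a * cs.simple s) L := by
      intro L₁ t L₂ he
      rw [mul_inv_rev, cs.inv_simple, act_mul]
      refine (((isRoot_al cs t).image _).image _).simple_act_nonneg h0 (hVa _ _ _ he) ?_
      intro h3
      have h4 : act cs (pr cs L₁) (al t) = β := by
        apply act_injective cs a⁻¹
        rw [h3, hβ, act_inv_act]
      have h5 := hVb _ _ _ he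
      rw [h4] at h5
      exact (hβr.image _).not_both h5 h2
    refine ⟨⟨L, hF, hVa, hV⟩, ⟨L, hF, hV, hVb⟩, ?_⟩
    rcases hβr.pos_or_neg h0 with h3 | h3
    · left; rw [inver_mul_simple h3]; exact Finset.subset_insert _ _
    · right; rw [inver_mul_simple_of_nonpos h3]; exact Finset.subset_insert _ _

/-- compatibility with joins -/
theorem join_compat (hPF : PF cs) {Q : List B} {ω : W} {h : B → ℤ}
    (halt : ∀ L : List (B × Bool), L.map Prod.fst = Q → Alt M h L) (hQ : Has cs Q ω) :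
    ∀ (n : ℕ) (a b c j j' : W), cs.length (a⁻¹ * b) = n → inver cs a ⊆ inver cs ω →
      inver cs b ⊆ inver cs ω → inver cs c ⊆ inver cs ω → SR cs Q ω a b →
      IsJ cs a c j → IsJ cs b c j' → SR cs Q ω j j' := by
  intro n
  induction n using Nat.strong_induction_on with
  | _ n ih =>
  intro a b c j j' hn haω hbω hcω hR hj hj'
  have hjω : inver cs j ⊆ inver cs ω := hj.2.2 ω haω hcω
  by_cases hab : a = b
  · subst hab
    rw [hj.unique hj']
    exact SR.refl hQ (hj'.2.2 ω haω hcω)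
  obtain ⟨s, hs1, hs2, hs3, hs4, hs5⟩ := hR.step hab haω hbω
  obtain ⟨j1, hj1ω, hj1⟩ := exists_join (cs := cs) (ω := ω) _ 1 (a * cs.simple s) c rfl
    (one_sub _) (one_sub _) hs2 hcω
  have h1 : SR cs Q ω j j1 := by
    rcases hs5 with h5 | h5
    · refine chain_up hPF halt hQ _ a (a * cs.simple s) j j1 rfl h5 hs2 hs3 hj.1 hjω ?_
      refine ⟨hj1.1, hj.2.2 j1 (h5.trans hj1.1) hj1.2.1, ?_⟩
      intro d h6 h7
      exact hj1.2.2 d h6 (hj.2.1.trans h7)
    · refine (chain_up hPF halt hQ _ (a * cs.simple s) a j1 j rfl h5 haω hs3.symm hj1.1 hj1ω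
        ?_).symm
      refine ⟨hj.1, hj1.2.2 j (h5.trans hj.1) hj.2.1, ?_⟩
      intro d h6 h7
      exact hj.2.2 d h6 (hj1.2.1.trans h7)
  exact h1.trans hj1ω (ih _ (by omega) (a * cs.simple s) b c j1 j' rfl hs2 hbω hcω hs4 hj1 hj')

/-- compatibility with meets -/
theorem meet_compat (hPF : PF cs) {Q : List B} {ω : W} {h : B → ℤ}
    (halt : ∀ L : List (B × Bool), L.map Prod.fst = Q → Alt M h L) (hQ : Has cs Q ω) :
    ∀ (n : ℕ) (a b c j j' : W), cs.length (a⁻¹ * b) = n → inver cs a ⊆ inver cs ω →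
      inver cs b ⊆ inver cs ω → inver cs c ⊆ inver cs ω → SR cs Q ω a b →
      IsMt cs a c j → IsMt cs b c j' → SR cs Q ω j j' := by
  intro n
  induction n using Nat.strong_induction_on with
  | _ n ih =>
  intro a b c j j' hn haω hbω hcω hR hj hj'
  have hjω : inver cs j ⊆ inver cs ω := hj.1.trans haω
  by_cases hab : a = b
  · subst hab
    rw [hj.unique hj']
    exact SR.refl hQ (hj'.1.trans haω)
  obtain ⟨s, hs1, hs2, hs3, hs4, hs5⟩ := hR.step hab haω hbω
  obtain ⟨j1, hj1⟩ := exists_meet (cs := cs) _ ω (a * cs.simple s) c rfl hs2 hcω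
  have hj1ω : inver cs j1 ⊆ inver cs ω := hj1.2.1.trans hcω
  have h1 : SR cs Q ω j j1 := by
    rcases hs5 with h5 | h5
    · -- `a < a s`
      refine chain_down hPF halt hQ _ a (a * cs.simple s) j1 j rfl h5 hs2 hs3 hj1.1 ?_
      refine ⟨hj.1, hj1.2.2 j (hj.1.trans h5) hj.2.1, ?_⟩
      intro d h6 h7
      exact hj.2.2 d h6 (h7.trans hj1.2.1)
    · refine (chain_down hPF halt hQ _ (a * cs.simple s) a j j1 rfl h5 haω hs3.symm hj.1
        ?_).symm
      refine ⟨hj1.1, hj.2.2 j1 (hj1.1.trans h5) hj1.2.1, ?_⟩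
      intro d h6 h7
      exact hj1.2.2 d h6 (h7.trans hj.2.1)
  exact h1.trans hj1ω (ih _ (by omega) (a * cs.simple s) b c j1 j' rfl hs2 hbω hcω hs4 hj1 hj')

end H57
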