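import Pool.Agent.H57.Key

/-!
# Facets, validity, flips
-/

set_option linter.unusedSectionVars false

open Finset CoxeterSystem

namespace H57

lemma exists_first {α : Type*} (p : List α → α → Prop) (L : List α)
    (h : ∃ A x C, L = A ++ x :: C ∧ p A x) :
    ∃ A x C, L = A ++ x :: C ∧ p A x ∧ ∀ A₁ y A₂, A = A₁ ++ y :: A₂ → ¬ p A₁ y := by
  classical
  have h' : ∃ n, ∃ A x C, L = A ++ x :: C ∧ p A x ∧ A.length = n := by
    obtain ⟨A, x, C, h1, h2⟩ := h
    exact ⟨_, A, x, C, h1, h2, rfl⟩
  obtain ⟨A, x, C, h1, h2, h3⟩ := Nat.find_spec h'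
  refine ⟨A, x, C, h1, h2, ?_⟩
  rintro A₁ y A₂ rfl hp
  refine Nat.find_min h' (m := A₁.length) ?_ ⟨A₁, y, A₂ ++ x :: C, by rw [h1]; simp, hp, rfl⟩
  rw [← h3]; simp

lemma exists_last {α : Type*} (p : List α → α → Prop) (L : List α)
    (h : ∃ A x C, L = A ++ x :: C ∧ p A x) :
    ∃ A x C, L = A ++ x :: C ∧ p A x ∧ ∀ C₁ y C₂, C = C₁ ++ y :: C₂ → ¬ p (A ++ x :: C₁) y := by
  classical
  have h' : ∃ n, ∃ A x C, L = A ++ x :: C ∧ p A x ∧ C.length = n := by
    obtain ⟨A, x, C, h1, h2⟩ := h
    exact ⟨_, A, x, C, h1, h2, rfl⟩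
  obtain ⟨A, x, C, h1, h2, h3⟩ := Nat.find_spec h'
  refine ⟨A, x, C, h1, h2, ?_⟩
  rintro C₁ y C₂ rfl hp
  refine Nat.find_min h' (m := C₂.length) ?_ ⟨A ++ x :: C₁, y, C₂, by rw [h1]; simp, hp, rfl⟩
  rw [← h3]; simp; omega

variable {B : Type*} [Fintype B] [DecidableEq B]
variable {W : Type*} [Group W] {M : CoxeterMatrix B}

/-- `L` encodes a facet of the subword complex `S(Q, ω)`. -/
structure Facet (cs : CoxeterSystem M W) (Q : List B) (ω : W) (L : List (B × Bool)) : Prop where
  word : L.map Prod.fst = Q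
  prod : pr cs L = ω
  red : Red cs L

/-- `π` is a linear extension of `L`: all roots of skipped letters are in `π(Φ⁺)`. -/
def Valid (cs : CoxeterSystem M W) (p : W) (L : List (B × Bool)) : Prop :=
  ∀ L₁ s L₂, L = L₁ ++ (s, false) :: L₂ → 0 ≤ act cs p⁻¹ (act cs (pr cs L₁) (al s))

/-- the swap relation between facets on both sides of the wall of the positive root `α`. -/
structure Swap (cs : CoxeterSystem M W) (α : B → ℝ) (L L' : List (B × Bool)) : Prop where
  ex : ∃ A a Bm b C, L = A ++ (a, false) :: (Bm ++ (b, true) :: C) ∧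
    L' = A ++ (a, true) :: (Bm ++ (b, false) :: C) ∧
    act cs (pr cs A) (al a) = α ∧ act cs (pr cs A * pr cs Bm) (al b) = α ∧
    ∀ A₁ t A₂, A = A₁ ++ (t, false) :: A₂ → act cs (pr cs A₁) (al t) ≠ α

variable {cs : CoxeterSystem M W} [Finite W]

lemma act_used_eq (A K : List (B × Bool)) (a : B) (v : B → ℝ) :
    act cs (pr cs (A ++ (a, true) :: K)) v =
      rr M (act cs (pr cs A) (al a)) (act cs (pr cs (A ++ (a, false) :: K)) v) := by
  simp only [pr_append, pr_cons_true, pr_cons_false]
  rw [act_mul, act_mul, act_mul, act_simple_eq_rr, ← act_conj_rr]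

lemma pr_skip (A K : List (B × Bool)) (a : B) :
    pr cs (A ++ (a, false) :: K) = pr cs A * pr cs K := by simp

lemma swap_pr {A Bm : List (B × Bool)} {a b : B} {α : B → ℝ}
    (h1 : act cs (pr cs A) (al a) = α) (h2 : act cs (pr cs A * pr cs Bm) (al b) = α) :
    pr cs A * pr cs Bm * cs.simple b = pr cs A * cs.simple a * pr cs Bm := by
  rw [← act_eq_iff (cs := cs)]
  refine LinearMap.ext fun x => ?_
  set u := pr cs A * pr cs Bm with hu
  have e1 : act cs (u * cs.simple b) x = rr M α (act cs u x) := by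
    rw [act_mul, act_simple_eq_rr, ← act_conj_rr, h2]
  have e2 : act cs (pr cs A * cs.simple a * pr cs Bm) x = rr M α (act cs u x) := by
    rw [act_mul, act_mul, act_simple_eq_rr, ← act_conj_rr, h1, hu, act_mul]
  rw [e1, e2]

lemma red_iff_of_pr_cnt {L L' : List (B × Bool)} (h1 : pr cs L = pr cs L') (h2 : cnt L = cnt L') :
    Red cs L ↔ Red cs L' := by
  unfold Red; rw [h1, h2]

/-- crossing a wall upwards -/
theorem cross_up {Q : List B} {ω p : W} {s : B} {L : List (B × Bool)} (hF : Facet cs Q ω L)
    (hV : Valid cs p L) (hs : 0 ≤ act cs p (al s)) (hω : act cs p (al s) ∈ inver cs ω) :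
    (Valid cs (p * cs.simple s) L) ∨
      ∃ L', Swap cs (act cs p (al s)) L L' ∧ Facet cs Q ω L' ∧ Valid cs (p * cs.simple s) L' := by
  have h0 := M_ne_zero cs
  set α := act cs p (al s) with hα
  have hαr : IsRoot cs α := (isRoot_al cs s).image p
  have hpα : act cs p⁻¹ α = al s := by rw [hα, act_inv_act]
  -- transport of validity for roots different from `α`
  have htr : ∀ ρ, IsRoot cs ρ → ρ ≠ α → 0 ≤ act cs p⁻¹ ρ →
      0 ≤ act cs (p * cs.simple s)⁻¹ ρ := by
    intro ρ hρ hne h1
    rw [mul_inv_rev, cs.inv_simple, act_mul]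
    refine (hρ.image _).simple_act_nonneg h0 h1 ?_
    intro h2
    apply hne
    have : ρ = act cs p (act cs p⁻¹ ρ) := by rw [act_act_inv]
    rw [this, h2]
  have hrefl : ∀ ρ, act cs (p * cs.simple s)⁻¹ (rr M α ρ) = act cs p⁻¹ ρ := by
    intro ρ
    rw [mul_inv_rev, cs.inv_simple, act_mul, act_conj_inv hpα, ← act_simple_eq_rr cs,
      act_simple_simple]
  rw [← hF.prod, mem_inver_pr hF.red] at hω
  obtain ⟨P, b, C, hL, hroot⟩ := hω
  -- letters after the used one do not have root `α`
  have hafter : ∀ C₁ t C₂, C = C₁ ++ (t, false) :: C₂ →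
      act cs (pr cs (P ++ (b, true) :: C₁)) (al t) ≠ α := by
    intro C₁ t C₂ hC h1
    have hred1 : Red cs (P ++ (b, true) :: C₁) := by
      have := hF.red
      rw [hL, hC] at this
      have e : P ++ (b, true) :: (C₁ ++ (t, false) :: C₂) =
          (P ++ (b, true) :: C₁) ++ ((t, false) :: C₂) := by simp
      rw [e] at this
      exact this.left
    have h2 : α ∈ inver cs (pr cs (P ++ (b, true) :: C₁)) := by
      rw [mem_inver_pr hred1]
      exact ⟨P, b, C₁, rfl, hroot⟩
    rw [← h1] at h2
    exact al_notMem_inver h2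
  by_cases hex : ∃ A x C', P = A ++ x :: C' ∧ x.2 = false ∧ act cs (pr cs A) (al x.1) = α
  · right
    obtain ⟨A, ⟨a, fa⟩, Bm, hP, ⟨hx1, hx2⟩, hfirst⟩ := exists_first
      (fun A x => x.2 = false ∧ act cs (pr cs A) (al x.1) = α) P hex
    simp only at hx1 hx2
    subst hx1
    have hb : act cs (pr cs A * pr cs Bm) (al b) = α := by
      rw [hroot, hP]; simp
    have hswap := swap_pr hx2 hb
    refine ⟨A ++ (a, true) :: (Bm ++ (b, false) :: C), ⟨⟨A, a, Bm, b, C, ?_, rfl, hx2, hb, ?_⟩⟩,
      ⟨?_, ?_, ?_⟩, ?_⟩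
    · rw [hL, hP]; simp
    · intro A₁ t A₂ hA h1
      exact hfirst A₁ (t, false) A₂ hA ⟨rfl, h1⟩
    · rw [← hF.word, hL, hP]; simp
    · rw [← hF.prod, hL, hP]
      simp only [pr_append, pr_cons_true, pr_cons_false]
      rw [← mul_assoc, ← mul_assoc, ← hswap]; simp [mul_assoc]
    · have := hF.red
      rw [hL, hP] at this
      refine (red_iff_of_pr_cnt (cs := cs) ?_ ?_).mp this
      · simp only [List.append_assoc, List.cons_append, pr_append, pr_cons_true, pr_cons_false]
        rw [← mul_assoc, ← mul_assoc, ← mul_assoc, ← mul_assoc, ← hswap]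
      · simp; ring
    · intro L₁ t L₂ he
      rw [List.append_eq_append_iff] at he
      rcases he with ⟨A', he1, he2⟩ | ⟨A', he1, he2⟩
      · -- the letter is `a` or later
        cases A' with
        | nil => simp at he2
        | cons y A' =>
          simp only [List.cons_append, List.cons.injEq] at he2
          obtain ⟨rfl, he2⟩ := he2
          rw [List.append_eq_append_iff] at he2
          rcases he2 with ⟨B', he3, he4⟩ | ⟨B', he3, he4⟩
          · cases B' with
            | nil =>
              simp only [List.nil_append, List.cons.injEq, Prod.mk.injEq, and_true] at he4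
              obtain ⟨rfl, he4⟩ := he4
              simp only [List.append_nil] at he3
              subst he3
              subst he1
              have e1 : act cs (pr cs (A ++ (a, true) :: A')) (al b) = rr M α α := by
                rw [act_used_eq, hx2, pr_skip, hb]
              rw [e1, hrefl, hpα]; exact al_nonneg s
            | cons y B' =>
              simp only [List.cons_append, List.cons.injEq] at he4
              obtain ⟨rfl, he4⟩ := he4
              subst he1
              subst he3
              -- letter in C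
              have e1 : pr cs (A ++ (a, true) :: (Bm ++ (b, false) :: B')) =
                  pr cs (P ++ (b, true) :: B') := by
                rw [hP]
                simp only [List.append_assoc, List.cons_append, pr_append, pr_cons_true,
                  pr_cons_false]
                rw [← mul_assoc, ← mul_assoc, ← mul_assoc, ← mul_assoc, ← hswap]
              rw [e1]
              apply htr _ ((isRoot_al cs t).image _) (hafter B' t L₂ he4)
              apply hV _ t L₂
              rw [hL, he4]; simp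
          · -- letter in Bm
            subst he1
            cases B' with
            | nil =>
              simp only [List.nil_append, List.cons.injEq, Prod.mk.injEq, and_true] at he4
              obtain ⟨rfl, he4⟩ := he4
              simp only [List.append_nil] at he3
              subst he3
              have e1 : act cs (pr cs (A ++ (a, true) :: Bm)) (al t) = rr M α α := by
                rw [act_used_eq, hx2, pr_skip, hb]
              rw [e1, hrefl, hpα]; exact al_nonneg s
            | cons y B' =>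
              simp only [List.cons_append, List.cons.injEq] at he4
              obtain ⟨rfl, he4⟩ := he4
              have e1 : act cs (pr cs (A ++ (a, true) :: A')) (al t) =
                  rr M α (act cs (pr cs (A ++ (a, false) :: A')) (al t)) := by
                rw [act_used_eq, hx2]
              rw [e1, hrefl]
              apply hV _ t (B' ++ (b, true) :: C)
              rw [hL, hP, he3]; simp
      · -- the letter is in A
        cases A' with
        | nil => simp at he2
        | cons y A' =>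
          simp only [List.cons_append, List.cons.injEq] at he2
          obtain ⟨rfl, he2⟩ := he2
          apply htr _ ((isRoot_al cs t).image _)
          · intro h1
            exact hfirst L₁ (t, false) A' he1 ⟨rfl, h1⟩
          · apply hV _ t (A' ++ (a, false) :: (Bm ++ (b, true) :: C))
            rw [hL, hP, he1]; simp
  · left
    intro L₁ t L₂ he
    apply htr _ ((isRoot_al cs t).image _) _ (hV _ _ _ he)
    intro h1
    rw [hL, List.append_eq_append_iff] at he
    rcases he with ⟨A', he1, he2⟩ | ⟨A', he1, he2⟩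
    · cases A' with
      | nil => simp at he2
      | cons y A' =>
        simp only [List.cons_append, List.cons.injEq] at he2
        obtain ⟨rfl, he2⟩ := he2
        subst he1
        exact hafter A' t L₂ he2 h1
    · cases A' with
      | nil => simp at he2
      | cons y A' =>
        simp only [List.cons_append, List.cons.injEq] at he2
        obtain ⟨rfl, he2⟩ := he2
        exact hex ⟨L₁, (t, false), A', he1, rfl, h1⟩

lemma cases3 {α : Type*} {A C L₁ L₂ : List α} {x w : α} (he : A ++ x :: C = L₁ ++ w :: L₂) :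
    (∃ A', A = L₁ ++ w :: A' ∧ L₂ = A' ++ x :: C) ∨ (L₁ = A ∧ w = x ∧ L₂ = C) ∨
      (∃ C₁, C = C₁ ++ w :: L₂ ∧ L₁ = A ++ x :: C₁) := by
  rw [List.append_eq_append_iff] at he
  rcases he with ⟨A', he1, he2⟩ | ⟨A', he1, he2⟩
  · cases A' with
    | nil =>
      right; left
      simp only [List.nil_append, List.cons.injEq] at he2
      exact ⟨by simpa using he1, he2.1.symm, he2.2.symm⟩
    | cons y A' =>
      right; right
      simp only [List.cons_append, List.cons.injEq] at he2
      obtain ⟨rfl, he2⟩ := he2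
      exact ⟨A', he2, he1⟩
  · cases A' with
    | nil =>
      right; left
      simp only [List.nil_append, List.cons.injEq] at he2
      exact ⟨by simpa using he1.symm, he2.1, he2.2⟩
    | cons y A' =>
      left
      simp only [List.cons_append, List.cons.injEq] at he2
      obtain ⟨rfl, he2⟩ := he2
      exact ⟨A', he1, he2⟩

lemma cases5 {α : Type*} {A Bm C L₁ L₂ : List α} {x y w : α}
    (he : A ++ x :: (Bm ++ y :: C) = L₁ ++ w :: L₂) :
    (∃ A', A = L₁ ++ w :: A' ∧ L₂ = A' ++ x :: (Bm ++ y :: C)) ∨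
    (L₁ = A ∧ w = x ∧ L₂ = Bm ++ y :: C) ∨
    (∃ B₁ B₂, Bm = B₁ ++ w :: B₂ ∧ L₁ = A ++ x :: B₁ ∧ L₂ = B₂ ++ y :: C) ∨
    (L₁ = A ++ x :: Bm ∧ w = y ∧ L₂ = C) ∨
    (∃ C₁, C = C₁ ++ w :: L₂ ∧ L₁ = A ++ x :: (Bm ++ y :: C₁)) := by
  rcases cases3 he with h | h | ⟨C₁, h1, h2⟩
  · exact Or.inl h
  · exact Or.inr (Or.inl h)
  · right; right
    rcases cases3 h1 with ⟨A', h3, h4⟩ | ⟨h3, h4, h5⟩ | ⟨D, h3, h4⟩
    · exact Or.inl ⟨C₁, A', h3, h2, h4⟩
    · right; left
      exact ⟨by rw [h2, h3], h4, h5⟩
    · right; right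
      exact ⟨D, h3, by rw [h2, h4]⟩

/-- crossing a wall downwards -/
theorem cross_down {Q : List B} {ω p : W} {s : B} {L' : List (B × Bool)} (hF : Facet cs Q ω L')
    (hV : Valid cs (p * cs.simple s) L') (hs : 0 ≤ act cs p (al s))
    (hω : act cs p (al s) ∈ inver cs ω) :
    (Valid cs p L') ∨
      ∃ L, Swap cs (act cs p (al s)) L L' ∧ Facet cs Q ω L ∧ Valid cs p L := by
  have h0 := M_ne_zero cs
  set α := act cs p (al s) with hα
  have hαr : IsRoot cs α := (isRoot_al cs s).image p
  have hpα : act cs p⁻¹ α = al s := by rw [hα, act_inv_act]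
  have htr : ∀ ρ, IsRoot cs ρ → ρ ≠ -α → 0 ≤ act cs (p * cs.simple s)⁻¹ ρ →
      0 ≤ act cs p⁻¹ ρ := by
    intro ρ hρ hne h1
    have e1 : act cs p⁻¹ ρ = act cs (cs.simple s) (act cs (p * cs.simple s)⁻¹ ρ) := by
      rw [mul_inv_rev, cs.inv_simple, act_mul, act_simple_simple]
    rw [e1]
    refine (hρ.image _).simple_act_nonneg h0 h1 ?_
    intro h2
    apply hne
    have h3 : ρ = act cs (p * cs.simple s) (act cs (p * cs.simple s)⁻¹ ρ) := by rw [act_act_inv]
    rw [h3, h2, act_mul, act_simple_al, map_neg]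
  have hrefl : ∀ ρ, act cs (p * cs.simple s)⁻¹ (rr M α ρ) = act cs p⁻¹ ρ := by
    intro ρ
    rw [mul_inv_rev, cs.inv_simple, act_mul, act_conj_inv hpα, ← act_simple_eq_rr cs,
      act_simple_simple]
  have hsα : act cs (p * cs.simple s)⁻¹ α = - al s := by
    rw [mul_inv_rev, cs.inv_simple, act_mul, hpα, act_simple_al]
  rw [← hF.prod, mem_inver_pr hF.red] at hω
  obtain ⟨A, a, D, hL, hroot⟩ := hω
  have hredA : Red cs A := by
    have := hF.red
    rw [hL] at this
    exact this.left
  -- letters before the used one do not have root `-α`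
  have hbefore : ∀ A₁ t A₂, A = A₁ ++ (t, false) :: A₂ → act cs (pr cs A₁) (al t) ≠ -α := by
    intro A₁ t A₂ hA h1
    have h2 : α ∈ inver cs (pr cs A₁) := by
      rw [mem_inver]
      refine ⟨hαr, hs, ?_⟩
      have : α = - act cs (pr cs A₁) (al t) := by rw [h1, neg_neg]
      rw [this, map_neg, act_inv_act]
      exact neg_nonpos.mpr (al_nonneg t)
    have h3 : α ∈ inver cs (pr cs A) := by
      rw [hA] at hredA ⊢
      exact inver_pr_subset hredA h2
    rw [hroot] at h3
    exact al_notMem_inver h3
  by_cases hex : ∃ Bm y C, D = Bm ++ y :: C ∧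
      (y.2 = false ∧ act cs (pr cs (A ++ (a, true) :: Bm)) (al y.1) = -α)
  · right
    obtain ⟨Bm, ⟨b, fb⟩, C, hD, ⟨hx1, hx2⟩, hlast⟩ := exists_last
      (fun Bm y => y.2 = false ∧ act cs (pr cs (A ++ (a, true) :: Bm)) (al y.1) = -α) D hex
    simp only at hx1 hx2
    subst hx1
    have hb : act cs (pr cs A * pr cs Bm) (al b) = α := by
      rw [act_used_eq, ← hroot, pr_skip] at hx2
      have := congrArg (rr M α) hx2
      rw [rr_rr hαr, rr_neg, rr_self hαr, neg_neg] at this
      exact this
    have hswap := swap_pr hroot.symm hb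
    have hprod : pr cs (A ++ (a, false) :: (Bm ++ (b, true) :: C)) = pr cs L' := by
      rw [hL, hD]
      simp only [pr_append, pr_cons_true, pr_cons_false]
      rw [← mul_assoc, ← mul_assoc, ← mul_assoc, ← mul_assoc, ← hswap]
    refine ⟨A ++ (a, false) :: (Bm ++ (b, true) :: C), ⟨⟨A, a, Bm, b, C, rfl, ?_, hroot.symm, hb, ?_⟩⟩,
      ⟨?_, ?_, ?_⟩, ?_⟩
    · rw [hL, hD]
    · intro A₁ t A₂ hA h1
      have h2 := hV A₁ t (A₂ ++ (a, true) :: D) (by rw [hL, hA]; simp)
      rw [h1, hsα] at h2
      exact (isRoot_al cs s).not_both (al_nonneg s) (neg_nonneg.mp h2)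
    · rw [← hF.word, hL, hD]; simp
    · rw [hprod, hF.prod]
    · refine (red_iff_of_pr_cnt (cs := cs) hprod ?_).mpr hF.red
      rw [hL, hD]; simp; ring
    · intro L₁ t L₂ he
      rcases cases5 he with ⟨A', h1, h2⟩ | ⟨h1, h2, h3⟩ | ⟨B₁, B₂, h1, h2, h3⟩ | ⟨h1, h2, h3⟩ |
        ⟨C₁, h1, h2⟩
      · apply htr _ ((isRoot_al cs t).image _) (hbefore _ _ _ h1)
        apply hV _ t (A' ++ (a, true) :: D)
        rw [hL, h1]; simp
      · simp only [Prod.mk.injEq, and_true] at h2
        rw [h1, h2, ← hroot, hpα]; exact al_nonneg s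
      · have h4 := hV (A ++ (a, true) :: B₁) t (B₂ ++ (b, false) :: C) (by
          rw [hL, hD, h1]; simp)
        rw [act_used_eq, ← hroot, hrefl] at h4
        rw [h2]; exact h4
      · simp at h2
      · have e1 : pr cs (A ++ (a, false) :: (Bm ++ (b, true) :: C₁)) =
            pr cs (A ++ (a, true) :: (Bm ++ (b, false) :: C₁)) := by
          simp only [pr_append, pr_cons_true, pr_cons_false]
          rw [← mul_assoc, ← mul_assoc, ← mul_assoc, ← mul_assoc, ← hswap]
        rw [h2, e1]
        apply htr _ ((isRoot_al cs t).image _)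
        · intro h3
          exact hlast C₁ (t, false) L₂ h1 ⟨rfl, h3⟩
        · apply hV _ t L₂
          rw [hL, hD, h1]; simp
  · left
    intro L₁ t L₂ he
    apply htr _ ((isRoot_al cs t).image _) _ (hV _ _ _ he)
    intro h1
    rw [hL] at he
    rcases cases3 he with ⟨A', h2, h3⟩ | ⟨h2, h3, h4⟩ | ⟨C₁, h2, h3⟩
    · exact hbefore _ _ _ h2 h1
    · simp at h3
    · exact hex ⟨C₁, (t, false), L₂, h2, rfl, by rw [← h3]; exact h1⟩

/-- existence of a valid facet -/
theorem valid_exists {Q : List B} {ω : W} (hQ : Has cs Q ω) (p : W)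
    (hp : inver cs p ⊆ inver cs ω) : ∃ L, Facet cs Q ω L ∧ Valid cs p L := by
  classical
  induction hn : cs.length p generalizing p with
  | zero =>
    rw [cs.length_eq_zero_iff] at hn
    subst hn
    obtain ⟨L, h1, h2, h3, h4⟩ := exists_pos_facet Q ω hQ
    refine ⟨L, ⟨h1, h2, h3⟩, ?_⟩
    intro L₁ s L₂ he
    rw [_root_.inv_one, act_one]
    exact h4 L₁ s L₂ he
  | succ n ih =>
    have hw : p ≠ 1 := by rintro rfl; simp at hn
    obtain ⟨s, hs⟩ := cs.exists_rightDescent_of_ne_one hw
    rw [cs.isRightDescent_iff] at hs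
    set p' := p * cs.simple s with hp'
    have hp2 : p = p' * cs.simple s := by rw [hp', cs.simple_mul_simple_cancel_right]
    have h1 : 0 ≤ act cs p' (al s) := by
      apply act_al_nonneg cs (M_ne_zero cs)
      rw [← hp2]; omega
    rw [hp2, inver_mul_simple h1] at hp
    obtain ⟨L, hL1, hL2⟩ := ih p' ((Finset.subset_insert _ _).trans hp) (by omega)
    rw [hp2]
    rcases cross_up hL1 hL2 h1 (hp (Finset.mem_insert_self _ _)) with h | ⟨L', -, h2, h3⟩
    · exact ⟨L, hL1, h⟩
    · exact ⟨L', h2, h3⟩

lemma Facet.not_two_used {Q : List B} {ω : W} {P₁ P₂ C : List (B × Bool)} {b b' : B}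
    (hF : Facet cs Q ω ((P₁ ++ (b, true) :: P₂) ++ (b', true) :: C))
    (h : act cs (pr cs P₁) (al b) = act cs (pr cs (P₁ ++ (b, true) :: P₂)) (al b')) : False := by
  have hred := hF.red.left
  have h2 : act cs (pr cs P₁) (al b) ∈ inver cs (pr cs (P₁ ++ (b, true) :: P₂)) := by
    rw [mem_inver_pr hred]
    exact ⟨P₁, b, P₂, rfl, rfl⟩
  rw [h] at h2
  exact al_notMem_inver h2

lemma Swap.inj {Q : List B} {ω : W} {α : B → ℝ} {L L₁ L₂ : List (B × Bool)}
    (hF : Facet cs Q ω L) (h1 : Swap cs α L L₁) (h2 : Swap cs α L L₂) : L₁ = L₂ := by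
  obtain ⟨A, a, Bm, b, C, e1, e2, e3, e4, e5⟩ := h1.ex
  obtain ⟨A', a', Bm', b', C', f1, f2, f3, f4, f5⟩ := h2.ex
  have he : A ++ (a, false) :: (Bm ++ (b, true) :: C) =
      A' ++ (a', false) :: (Bm' ++ (b', true) :: C') := by rw [← e1, ← f1]
  rcases cases3 he with ⟨D, g1, g2⟩ | ⟨g1, g2, g3⟩ | ⟨D, g1, g2⟩
  · exact absurd f3 (e5 _ _ _ g1)
  · simp only [Prod.mk.injEq, and_true] at g2
    subst g1
    subst g2
    rcases cases3 g3.symm with ⟨D, k1, k2⟩ | ⟨k1, k2, k3⟩ | ⟨D, k1, k2⟩
    · exfalso
      rw [e1, k1] at hF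
      have e : A' ++ (a', false) :: ((Bm' ++ (b', true) :: D) ++ (b, true) :: C) =
        ((A' ++ (a', false) :: Bm') ++ (b', true) :: D) ++ (b, true) :: C := by simp
      rw [e] at hF
      apply hF.not_two_used
      rw [pr_skip, f4]
      have : pr cs ((A' ++ (a', false) :: Bm') ++ (b', true) :: D) = pr cs A' * pr cs Bm := by
        rw [k1]; simp [mul_assoc]
      rw [this, e4]
    · simp only [Prod.mk.injEq, and_true] at k2
      rw [e2, f2, k1, k2, k3]
    · exfalso
      rw [f1, k2] at hF
      have e : A' ++ (a', false) :: ((Bm ++ (b, true) :: D) ++ (b', true) :: C') =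
        ((A' ++ (a', false) :: Bm) ++ (b, true) :: D) ++ (b', true) :: C' := by simp
      rw [e] at hF
      apply hF.not_two_used
      rw [pr_skip, e4]
      have : pr cs ((A' ++ (a', false) :: Bm) ++ (b, true) :: D) = pr cs A' * pr cs Bm' := by
        rw [k2]; simp [mul_assoc]
      rw [this, f4]
  · exact absurd e3 (f5 _ _ _ g2)

/-- the positive facet is unique -/
lemma pos_unique (Q : List B) : ∀ (ω : W) (L L' : List (B × Bool)), Facet cs Q ω L →
    Facet cs Q ω L' → Valid cs 1 L → Valid cs 1 L' → L = L' := by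
  have h0 := M_ne_zero cs
  induction Q using List.reverseRecOn with
  | nil =>
    intro ω L L' h1 h2 _ _
    have e1 := h1.word
    have e2 := h2.word
    simp at e1 e2
    rw [e1, e2]
  | append_singleton Q q ih =>
    intro ω L L' h1 h2 hV hV'
    -- analysis of one facet
    have key : ∀ L, Facet cs (Q ++ [q]) ω L → Valid cs 1 L →
        (cs.length (ω * cs.simple q) < cs.length ω ∧ ∃ K, L = K ++ [(q, true)] ∧
          Facet cs Q (ω * cs.simple q) K ∧ Valid cs 1 K) ∨
        (cs.length ω < cs.length (ω * cs.simple q) ∧ ∃ K, L = K ++ [(q, false)] ∧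
          Facet cs Q ω K ∧ Valid cs 1 K) := by
      intro L hL hVL
      rcases nil_or_append L with rfl | ⟨K, ⟨s, b⟩, rfl⟩
      · have := hL.word; simp at this
      have hw := hL.word
      rw [List.map_append] at hw
      obtain ⟨hw1, hw2⟩ := List.append_inj' hw rfl
      simp at hw2
      subst hw2
      have hVK : Valid cs 1 K := by
        intro L₁ t L₂ he
        exact hVL L₁ t (L₂ ++ [(s, b)]) (by rw [he]; simp)
      have hredK := hL.red.left
      cases b with
      | true =>
        left
        have hp := hL.prod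
        simp at hp
        have hprK : pr cs K = ω * cs.simple s := by rw [← hp]; simp
        refine ⟨?_, K, rfl, ⟨hw1, hprK, hredK⟩, hVK⟩
        have h3 := hL.red
        unfold Red at h3 hredK
        rw [hL.prod] at h3
        rw [hprK] at hredK
        simp at h3
        omega
      | false =>
        right
        have hp := hL.prod
        simp at hp
        refine ⟨?_, K, rfl, ⟨hw1, hp, hredK⟩, hVK⟩
        have h3 := hVL K s [] rfl
        rw [_root_.inv_one, act_one, hp, act_al_nonneg_iff cs h0] at h3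
        exact h3
    rcases key L h1 hV with ⟨a1, K, a2, a3, a4⟩ | ⟨a1, K, a2, a3, a4⟩ <;>
    rcases key L' h2 hV' with ⟨b1, K', b2, b3, b4⟩ | ⟨b1, K', b2, b3, b4⟩
    · rw [a2, b2, ih _ _ _ a3 b3 a4 b4]
    · omega
    · omega
    · rw [a2, b2, ih _ _ _ a3 b3 a4 b4]

/-- uniqueness of the valid facet -/
theorem valid_unique {Q : List B} {ω : W} (p : W) (hp : inver cs p ⊆ inver cs ω)
    {L L' : List (B × Bool)} (hL : Facet cs Q ω L) (hL' : Facet cs Q ω L')
    (hV : Valid cs p L) (hV' : Valid cs p L') : L = L' := by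
  classical
  induction hn : cs.length p generalizing p L L' with
  | zero =>
    rw [cs.length_eq_zero_iff] at hn
    subst hn
    exact pos_unique Q ω L L' hL hL' hV hV'
  | succ n ih =>
    have hw : p ≠ 1 := by rintro rfl; simp at hn
    obtain ⟨s, hs⟩ := cs.exists_rightDescent_of_ne_one hw
    rw [cs.isRightDescent_iff] at hs
    set p' := p * cs.simple s with hp'
    have hp2 : p = p' * cs.simple s := by rw [hp', cs.simple_mul_simple_cancel_right]
    have h1 : 0 ≤ act cs p' (al s) := by
      apply act_al_nonneg cs (M_ne_zero cs)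
      rw [← hp2]; omega
    rw [hp2, inver_mul_simple h1] at hp
    rw [hp2] at hV hV'
    have hω := hp (Finset.mem_insert_self _ _)
    have hpp : inver cs p' ⊆ inver cs ω := (Finset.subset_insert _ _).trans hp
    -- a swapped facet has a skipped letter with root `α`
    have hbad : ∀ K K', Swap cs (act cs p' (al s)) K K' → Valid cs (p' * cs.simple s) K →
        False := by
      intro K K' hS hVK
      obtain ⟨A, a, Bm, b, C, e1, e2, e3, e4, e5⟩ := hS.ex
      have h3 := hVK A a _ e1
      rw [e3, mul_inv_rev, cs.inv_simple, act_mul, act_inv_act, act_simple_al] at h3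
      exact (isRoot_al cs s).not_both (al_nonneg s) (neg_nonneg.mp h3)
    rcases cross_down hL hV h1 hω with h | ⟨K, hS, hK1, hK2⟩ <;>
    rcases cross_down hL' hV' h1 hω with h' | ⟨K', hS', hK1', hK2'⟩
    · exact ih p' hpp hL hL' h h' (by omega)
    · exfalso
      have e := ih p' hpp hL hK1' h hK2' (by omega)
      rw [e] at hV
      exact hbad _ _ hS' hV
    · exfalso
      have e := ih p' hpp hK1 hL' hK2 h' (by omega)
      rw [← e] at hV'
      exact hbad _ _ hS hV'
    · have e := ih p' hpp hK1 hK1' hK2 hK2' (by omega)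
      rw [e] at hS hK1
      exact hS.inj hK1 hS'

end H57
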