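import Pool.Agent.H57.PosDef

/-!
# The Coxeter graph of a finite Coxeter group is a forest
-/

set_option linter.unusedSectionVars false

open Finset CoxeterSystem

namespace H57

variable {B : Type*} [Fintype B] [DecidableEq B]
variable {W : Type*} [Group W] {M : CoxeterMatrix B}

lemma cos_pi_div_mono {m n : ℕ} (hm : 1 ≤ m) (h : m ≤ n) :
    Real.cos (Real.pi / m) ≤ Real.cos (Real.pi / n) := by
  have hm' : (1 : ℝ) ≤ m := by exact_mod_cast hm
  have hn' : (m : ℝ) ≤ n := by exact_mod_cast h
  have h1 : (0 : ℝ) < n := by linarith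
  apply Real.cos_le_cos_of_nonneg_of_le_pi
  · positivity
  · rw [div_le_iff₀ (by linarith)]; nlinarith [Real.pi_pos]
  · apply div_le_div_of_nonneg_left Real.pi_pos.le (by linarith) hn'

lemma gram_le_neg_one (h0 : ∀ s t, M s t ≠ 0) {s t : B} (hst : s ≠ t) (h2 : M s t ≠ 2) :
    gram M s t ≤ -1 := by
  have h3 := two_le_M M hst (h0 s t)
  have h4 : 3 ≤ M s t := by omega
  have h5 := cos_pi_div_mono (by norm_num) h4
  have h6 : Real.cos (Real.pi / (3 : ℕ)) = 1 / 2 := by
    push_cast; exact Real.cos_pi_div_three
  rw [h6] at h5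
  rw [gram]; linarith

lemma gram_nonpos (h0 : ∀ s t, M s t ≠ 0) {s t : B} (hst : s ≠ t) : gram M s t ≤ 0 := by
  by_cases h2 : M s t = 2
  · rw [gram, h2]; simp
  · have := gram_le_neg_one h0 hst h2; linarith

/-- the indicator vector -/
noncomputable def one (T : Finset B) : B → ℝ := ∑ t ∈ T, al t

lemma form_one_al (T : Finset B) (s : B) : ipr M (one T) (al s) = ∑ t ∈ T, gram M t s := by
  rw [one, ipr, map_sum, LinearMap.sum_apply]
  exact Finset.sum_congr rfl fun t _ => form_al_al _ _ _

lemma one_apply_of_mem {T : Finset B} {s : B} (hs : s ∈ T) : one T s = 1 := by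
  rw [one, Finset.sum_apply, Finset.sum_eq_single s]
  · simp
  · intro b _ hb; exact al_ne (Ne.symm hb)
  · intro h; exact absurd hs h

lemma one_insert {T : Finset B} {s : B} (hs : s ∉ T) : one (insert s T) = al s + one T := by
  rw [one, Finset.sum_insert hs, one]

variable (cs : CoxeterSystem M W) [Finite W]

include cs in
/-- every nonempty set of vertices contains a vertex with at most one neighbour in the set. -/
lemma exists_leaf (T : Finset B) (hT : T.Nonempty) :
    ∃ v ∈ T, ∀ a ∈ T, ∀ b ∈ T, a ≠ v → b ≠ v → M a v ≠ 2 → M b v ≠ 2 → a = b := by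
  have h0 := M_ne_zero cs
  by_contra hc
  push Not at hc
  have h1 : ipr M (one T) (one T) ≤ 0 := by
    have e : ipr M (one T) (one T) = ∑ v ∈ T, ipr M (one T) (al v) := by
      conv_lhs => rw [show one T = ∑ t ∈ T, al t from rfl]
      rw [map_sum]; rfl
    rw [e]
    apply Finset.sum_nonpos
    intro v hv
    obtain ⟨a, ha, b, hb, hav, hbv, hMa, hMb, hab⟩ := hc v hv
    rw [form_one_al]
    have h2 : ∑ t ∈ T, gram M t v = gram M v v + (gram M a v + (gram M b v +
        ∑ t ∈ ((T.erase v).erase a).erase b, gram M t v)) := by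
      rw [← Finset.add_sum_erase T _ hv, ← Finset.add_sum_erase (T.erase v) _
        (Finset.mem_erase.mpr ⟨hav, ha⟩), ← Finset.add_sum_erase ((T.erase v).erase a) _
        (Finset.mem_erase.mpr ⟨Ne.symm hab, Finset.mem_erase.mpr ⟨hbv, hb⟩⟩)]
    have h3 : ∑ t ∈ ((T.erase v).erase a).erase b, gram M t v ≤ 0 := by
      apply Finset.sum_nonpos
      intro t ht
      apply gram_nonpos h0
      exact Finset.ne_of_mem_erase (Finset.mem_of_mem_erase (Finset.mem_of_mem_erase ht))
    have h4 := gram_le_neg_one h0 hav hMa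
    have h5 := gram_le_neg_one h0 hbv hMb
    have h6 : gram M v v = 2 := (gram_compat M).diag v
    rw [h2, h6]; linarith
  have h2 : one T ≠ 0 := by
    obtain ⟨v, hv⟩ := hT
    intro h3
    have := congrFun h3 v
    rw [one_apply_of_mem hv] at this
    simp at this
  have := form_pos cs (gram_compat M) h2
  rw [ipr] at h1
  linarith

include cs in
/-- potentials on the forest -/
theorem exists_potential {G : Type*} [AddCommGroup G] (o : B → B → G)
    (ho : ∀ s t, o t s = - o s t) :
    ∃ h : B → G, ∀ s t, s ≠ t → M s t ≠ 2 → h s - h t = o s t := by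
  suffices H : ∀ (n : ℕ) (T : Finset B), T.card = n →
      ∃ h : B → G, ∀ s ∈ T, ∀ t ∈ T, s ≠ t → M s t ≠ 2 → h s - h t = o s t by
    obtain ⟨h, hh⟩ := H _ Finset.univ rfl
    exact ⟨h, fun s t => hh s (Finset.mem_univ _) t (Finset.mem_univ _)⟩
  intro n
  induction n with
  | zero =>
    intro T hT
    rw [Finset.card_eq_zero] at hT
    subst hT
    exact ⟨fun _ => 0, by simp⟩
  | succ n ih =>
    intro T hT
    have hne : T.Nonempty := by rw [← Finset.card_pos]; omega
    obtain ⟨v, hv, hleaf⟩ := exists_leaf cs T hne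
    obtain ⟨h, hh⟩ := ih (T.erase v) (by rw [Finset.card_erase_of_mem hv]; omega)
    by_cases hex : ∃ a ∈ T, a ≠ v ∧ M a v ≠ 2
    · obtain ⟨a, ha, hav, hMa⟩ := hex
      refine ⟨Function.update h v (h a + o v a), ?_⟩
      intro s hs t ht hst hM
      by_cases hsv : s = v
      · subst hsv
        have hta : t = a := hleaf t ht a ha (Ne.symm hst) hav (by rwa [M.symmetric]) hMa
        subst hta
        rw [Function.update_self, Function.update_of_ne (Ne.symm hst)]
        abel
      · by_cases htv : t = v
        · subst htv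
          have hsa : s = a := hleaf s hs a ha hst hav hM hMa
          subst hsa
          rw [Function.update_self, Function.update_of_ne hst, ho s t]
          abel
        · rw [Function.update_of_ne hsv, Function.update_of_ne htv]
          exact hh s (Finset.mem_erase.mpr ⟨hsv, hs⟩) t (Finset.mem_erase.mpr ⟨htv, ht⟩) hst hM
    · push Not at hex
      refine ⟨h, ?_⟩
      intro s hs t ht hst hM
      by_cases hsv : s = v
      · subst hsv
        exact absurd (by rw [M.symmetric]; exact hex t ht (Ne.symm hst)) hM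
      · by_cases htv : t = v
        · subst htv
          exact absurd (hex s hs hst) hM
        · exact hh s (Finset.mem_erase.mpr ⟨hsv, hs⟩) t (Finset.mem_erase.mpr ⟨htv, ht⟩) hst hM

end H57
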