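import Mathlib

/-!
# The geometric representation of a Coxeter group

For a Coxeter matrix `M` on a finite type `B` we build the reflection representation on `B → ℝ`
(with all roots normalised to have square length `2`), for general Gram matrices `A` whose entries
are `-2 cos (k π / m)`.
-/

set_option linter.unusedSectionVars false

open Finset

namespace H57

variable {B : Type*} [Fintype B] [DecidableEq B]

/-- The simple root attached to `s`. -/
def al (s : B) : B → ℝ := Pi.single s 1

/-- The symmetric bilinear form with Gram matrix `A`. -/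
noncomputable def form (A : B → B → ℝ) : LinearMap.BilinForm ℝ (B → ℝ) :=
  Matrix.toBilin' (Matrix.of A)

@[simp] lemma al_self (s : B) : al s s = 1 := by simp [al]

lemma al_ne {s t : B} (h : t ≠ s) : al s t = 0 := by simp [al, h]

lemma form_apply (A : B → B → ℝ) (x y : B → ℝ) :
    form A x y = ∑ s, ∑ t, x s * A s t * y t := by
  simp [form, Matrix.toBilin'_apply]

lemma form_al_al (A : B → B → ℝ) (s t : B) : form A (al s) (al t) = A s t := by
  simp [form, al, Matrix.toBilin'_single]

lemma form_al_right (A : B → B → ℝ) (x : B → ℝ) (t : B) :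
    form A x (al t) = ∑ s, x s * A s t := by
  rw [form_apply]
  refine Finset.sum_congr rfl fun s _ => ?_
  rw [Finset.sum_eq_single t]
  · simp
  · intro b _ hb; simp [al_ne hb]
  · simp

lemma form_comm {A : B → B → ℝ} (hA : ∀ s t, A s t = A t s) (x y : B → ℝ) :
    form A x y = form A y x := by
  rw [form_apply, form_apply, Finset.sum_comm]
  refine Finset.sum_congr rfl fun s _ => Finset.sum_congr rfl fun t _ => ?_
  rw [hA t s]; ring

lemma eq_sum_al (x : B → ℝ) : x = ∑ s, x s • al s := by
  funext p
  simp [al, Finset.sum_apply, Pi.single_apply]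

/-- The simple reflection attached to `s`, for the form with Gram matrix `A`. -/
noncomputable def sref (A : B → B → ℝ) (s : B) : Module.End ℝ (B → ℝ) :=
  LinearMap.id - ((form A).flip (al s)).smulRight (al s)

lemma sref_apply (A : B → B → ℝ) (s : B) (x : B → ℝ) :
    sref A s x = x - form A x (al s) • al s := by
  simp [sref]

lemma sref_apply_of_ne (A : B → B → ℝ) {s p : B} (h : p ≠ s) (x : B → ℝ) :
    sref A s x p = x p := by
  simp [sref_apply, al_ne h]

lemma sref_apply_self (A : B → B → ℝ) (s : B) (x : B → ℝ) :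
    sref A s x s = x s - form A x (al s) := by
  simp [sref_apply]

lemma sref_al_self {A : B → B → ℝ} (hA2 : ∀ s, A s s = 2) (s : B) :
    sref A s (al s) = - al s := by
  rw [sref_apply, form_al_al, hA2]; module

lemma sref_sref {A : B → B → ℝ} (hA2 : ∀ s, A s s = 2) (s : B) (x : B → ℝ) :
    sref A s (sref A s x) = x := by
  rw [sref_apply, sref_apply]
  simp only [map_sub, map_smul, LinearMap.sub_apply, LinearMap.smul_apply, form_al_al, hA2,
    smul_eq_mul]
  module

lemma form_sref_sref {A : B → B → ℝ} (hA : ∀ s t, A s t = A t s) (hA2 : ∀ s, A s s = 2) (s : B)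
    (x y : B → ℝ) : form A (sref A s x) (sref A s y) = form A x y := by
  simp only [sref_apply, map_sub, map_smul, LinearMap.sub_apply, LinearMap.smul_apply, form_al_al,
    hA2, smul_eq_mul, form_comm hA (al s) y]
  ring

/-! ### The dihedral computation -/

/-- The vector `sin (φ + θ) α_s + sin φ α_t`. -/
noncomputable def uvec (s t : B) (θ φ : ℝ) : B → ℝ :=
  Real.sin (φ + θ) • al s + Real.sin φ • al t

lemma sref_t_uvec {A : B → B → ℝ} (hA2 : ∀ s, A s s = 2) {s t : B} {θ : ℝ}
    (hst : A s t = -2 * Real.cos θ) (φ : ℝ) :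
    sref A t (uvec s t θ φ) = Real.sin (φ + θ) • al s + Real.sin (φ + 2 * θ) • al t := by
  have h : Real.sin (φ + 2 * θ) = 2 * Real.cos θ * Real.sin (φ + θ) - Real.sin φ := by
    have e1 : φ + 2 * θ = (φ + θ) + θ := by ring
    have e2 : Real.sin φ = Real.sin ((φ + θ) - θ) := by ring_nf
    rw [e1, e2, Real.sin_add (φ + θ) θ, Real.sin_sub (φ + θ) θ]; ring
  rw [sref_apply, uvec]
  simp only [map_add, map_smul, LinearMap.add_apply, LinearMap.smul_apply, form_al_al, hst, hA2,
    smul_eq_mul]
  rw [h]; module

lemma sref_s_uvec {A : B → B → ℝ} (hA : ∀ s t, A s t = A t s) (hA2 : ∀ s, A s s = 2) {s t : B}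
    {θ : ℝ} (hst : A s t = -2 * Real.cos θ) (φ : ℝ) :
    sref A s (Real.sin (φ + θ) • al s + Real.sin (φ + 2 * θ) • al t) = uvec s t θ (φ + 2 * θ) := by
  have hts : A t s = -2 * Real.cos θ := by rw [hA, hst]
  have h : Real.sin (φ + 2 * θ + θ) =
      2 * Real.cos θ * Real.sin (φ + 2 * θ) - Real.sin (φ + θ) := by
    have e2 : Real.sin (φ + θ) = Real.sin ((φ + 2 * θ) - θ) := by ring_nf
    rw [e2, Real.sin_add (φ + 2 * θ) θ, Real.sin_sub (φ + 2 * θ) θ]; ring
  rw [sref_apply, uvec]
  simp only [map_add, map_smul, LinearMap.add_apply, LinearMap.smul_apply, form_al_al, hts, hA2,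
    smul_eq_mul]
  rw [h]; module

lemma sref_pow_uvec {A : B → B → ℝ} (hA : ∀ s t, A s t = A t s) (hA2 : ∀ s, A s s = 2) {s t : B}
    {θ : ℝ} (hst : A s t = -2 * Real.cos θ) (k : ℕ) (φ : ℝ) :
    ((sref A s * sref A t) ^ k) (uvec s t θ φ) = uvec s t θ (φ + 2 * k * θ) := by
  induction k generalizing φ with
  | zero => simp
  | succ k ih =>
    rw [pow_succ, Module.End.mul_apply, Module.End.mul_apply, sref_t_uvec hA2 hst,
      sref_s_uvec hA hA2 hst, ih]
    congr 1
    push_cast; ring

lemma uvec_zero (s t : B) (θ : ℝ) : uvec s t θ 0 = Real.sin θ • al s := by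
  simp [uvec]

lemma uvec_neg (s t : B) (θ : ℝ) : uvec s t θ (-θ) = (-Real.sin θ) • al t := by
  simp [uvec]

/-- The relation `(s t)^m = 1` in the reflection representation. -/
lemma sref_mul_pow {A : B → B → ℝ} (hA : ∀ s t, A s t = A t s) (hA2 : ∀ s, A s s = 2) {s t : B}
    {θ : ℝ} (hst : A s t = -2 * Real.cos θ) (hθ : Real.sin θ ≠ 0) {m : ℕ} {k : ℤ}
    (hm : m * θ = k * Real.pi) :
    (sref A s * sref A t) ^ m = 1 := by
  have hts : A t s = -2 * Real.cos θ := by rw [hA, hst]
  set T := (sref A s * sref A t) ^ m with hT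
  have hper : ∀ φ, T (uvec s t θ φ) = uvec s t θ φ := by
    intro φ
    rw [hT, sref_pow_uvec hA hA2 hst]
    have e : φ + 2 * (m : ℝ) * θ = φ + k * (2 * Real.pi) := by
      have : 2 * (m : ℝ) * θ = 2 * (m * θ) := by ring
      rw [this, hm]; ring
    rw [e, uvec, uvec]
    have e2 : φ + k * (2 * Real.pi) + θ = (φ + θ) + k * (2 * Real.pi) := by ring
    rw [e2, Real.sin_add_int_mul_two_pi, Real.sin_add_int_mul_two_pi]
  have hs : T (al s) = al s := by
    have := hper 0
    rw [uvec_zero, map_smul] at this
    exact smul_right_injective _ hθ this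
  have ht : T (al t) = al t := by
    have := hper (-θ)
    rw [uvec_neg, map_smul] at this
    exact smul_right_injective _ (neg_ne_zero.mpr hθ) this
  -- decomposition of an arbitrary vector
  have hdet : (4 : ℝ) - (-2 * Real.cos θ) ^ 2 ≠ 0 := by
    have : (4 : ℝ) - (-2 * Real.cos θ) ^ 2 = 4 * Real.sin θ ^ 2 := by
      have := Real.sin_sq_add_cos_sq θ
      nlinarith
    rw [this]; positivity
  have hfix : ∀ w : B → ℝ, form A w (al s) = 0 → form A w (al t) = 0 → T w = w := by
    intro w h1 h2
    have h3 : (sref A s * sref A t) w = w := by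
      rw [Module.End.mul_apply, sref_apply A t, h2, zero_smul, sub_zero, sref_apply A s, h1,
        zero_smul, sub_zero]
    rw [hT]
    clear_value T
    induction m with
    | zero => simp
    | succ n ih =>
      have : ∀ n : ℕ, ((sref A s * sref A t) ^ n) w = w := by
        intro n
        induction n with
        | zero => simp
        | succ n ih => rw [pow_succ, Module.End.mul_apply, h3, ih]
      exact this _
  refine LinearMap.ext fun v => ?_
  set a : ℝ := -2 * Real.cos θ with ha
  set x := form A v (al s) with hx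
  set y := form A v (al t) with hy
  set p := (2 * x - a * y) / (4 - a ^ 2) with hp
  set q := (2 * y - a * x) / (4 - a ^ 2) with hq
  set w := v - (p • al s + q • al t) with hw
  have hv : v = w + (p • al s + q • al t) := by rw [hw]; abel
  have hw1 : form A w (al s) = 0 := by
    rw [hw]
    simp only [map_add, map_sub, map_smul, LinearMap.add_apply, LinearMap.sub_apply,
      LinearMap.smul_apply, form_al_al, hA2, hts, smul_eq_mul, ← hx]
    rw [hp, hq]
    field_simp
    ring
  have hw2 : form A w (al t) = 0 := by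
    rw [hw]
    simp only [map_add, map_sub, map_smul, LinearMap.add_apply, LinearMap.sub_apply,
      LinearMap.smul_apply, form_al_al, hA2, hst, smul_eq_mul, ← hy]
    rw [hp, hq]
    field_simp
    ring
  have hTw := hfix w hw1 hw2
  rw [Module.End.one_apply, hv, map_add, map_add, map_smul, map_smul, hs, ht, hTw]

end H57
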