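import Pool.Agent.H57.Comp

/-!
# Labels in a component
-/

set_option linter.unusedSectionVars false

open Finset CoxeterSystem

namespace H57

variable {B : Type*} [Fintype B] [DecidableEq B]
variable {W : Type*} [Group W] {M : CoxeterMatrix B}

/-- adjacency in the Coxeter graph -/
def Adj (M : CoxeterMatrix B) (s t : B) : Prop := s ≠ t ∧ M s t ≠ 2

lemma Adj.symm {s t : B} (h : Adj M s t) : Adj M t s := ⟨Ne.symm h.1, by rw [M.symmetric]; exact h.2⟩

/-- the component of `u` -/
def Cmp (M : CoxeterMatrix B) (u : B) : Set B := {s | Relation.ReflTransGen (Adj M) u s}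

lemma closed_cmp (u : B) : Closed M (Cmp M u) := by
  intro s t hs hst hM
  exact Relation.ReflTransGen.tail hs ⟨hst, hM⟩

lemma mem_cmp_self (u : B) : u ∈ Cmp M u := Relation.ReflTransGen.refl

lemma cmp_conn {u s t : B} (hs : s ∈ Cmp M u) (ht : t ∈ Cmp M u) :
    Relation.ReflTransGen (Adj M) s t := by
  have hsy : Std.Symm (Adj M) := ⟨fun _ _ h => Adj.symm h⟩
  have h1 : Relation.ReflTransGen (Adj M) s u :=
    (Relation.ReflTransGen.stdSymm (r := Adj M)).symm _ _ hs
  exact h1.trans ht

/-- invariant for the growing argument -/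
structure Good (M : CoxeterMatrix B) (s t p q : B) (a : ℝ) (T : Finset B) : Prop where
  ht : t ∈ T
  hs : s ∉ T
  hpq : ¬ (p ∈ insert s T ∧ q ∈ insert s T)
  hf : ipr M ((a / 2) • al s + one T) ((a / 2) • al s + one T) ≤ 2 - a ^ 2 / 2

lemma gram_le_neg_sqrt_two {p q : B} (h : 4 ≤ M p q) : gram M p q ≤ -√2 := by
  have h1 := cos_pi_div_mono (by norm_num) h
  push_cast at h1
  rw [Real.cos_pi_div_four] at h1
  rw [gram]; linarith

lemma sqrt_two_ge : (1.41 : ℝ) ≤ √2 := by
  apply Real.le_sqrt_of_sq_le; norm_num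

section

variable (cs : CoxeterSystem M W) [Finite W]

include cs in
lemma Good.ins {s t p q r r' : B} {a : ℝ} {T : Finset B} (ha : 1.6 ≤ a) (h4 : 4 ≤ M p q)
    (hg : Good M s t p q a T) (hr : r ∈ T) (hr'T : r' ∉ T) (hr's : r' ≠ s) (hadj : Adj M r r') :
    Good M s t p q a (insert r' T) := by
  have h0 := M_ne_zero cs
  have hA := gram_compat M
  set v := (a / 2) • al s + one T with hv
  have hnew : (a / 2) • al s + one (insert r' T) = v + al r' := by
    rw [one_insert hr'T, hv]; abel
  have h1 : ipr M (v + al r') (v + al r') = ipr M v v + 2 * ipr M v (al r') + 2 := by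
    simp only [map_add, LinearMap.add_apply, form_al_al, hA.diag, ipr_comm (al r') v]
    ring
  have h2 : ipr M v (al r') = a / 2 * gram M s r' + ∑ x ∈ T, gram M x r' := by
    rw [hv, map_add, map_smul, LinearMap.add_apply, LinearMap.smul_apply, form_al_al,
      form_one_al, smul_eq_mul]
  have h3 : gram M s r' ≤ 0 := gram_nonpos h0 (Ne.symm hr's)
  have h5 : ∀ y ∈ T, ∑ x ∈ T, gram M x r' ≤ gram M y r' := by
    intro y hy
    rw [← Finset.add_sum_erase T _ hy]
    have : ∑ x ∈ T.erase y, gram M x r' ≤ 0 := by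
      apply Finset.sum_nonpos
      intro x hx
      apply gram_nonpos h0
      rintro rfl
      exact hr'T (Finset.mem_of_mem_erase hx)
    linarith
  have h6 : gram M r r' ≤ -1 := gram_le_neg_one h0 hadj.1 hadj.2
  have h7 := h5 r hr
  have h8 := hg.hf
  have h9 : a / 2 * gram M s r' ≤ 0 := mul_nonpos_of_nonneg_of_nonpos (by linarith) h3
  have hnn := form_nonneg cs hA (v + al r')
  have hs2 := sqrt_two_ge
  have hkey : ∀ x y : B, gram M x y ≤ -√2 → y = r' → ¬ (x ∈ Insert.insert s T) := by
    intro x y hxy hy hx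
    subst hy
    rw [Finset.mem_insert] at hx
    rcases hx with rfl | hx
    · -- `x = s`
      have h10 : a / 2 * gram M x y ≤ a / 2 * (-√2) := mul_le_mul_of_nonneg_left hxy (by linarith)
      rw [ipr] at h1
      rw [ipr] at h8
      rw [ipr] at h2
      rw [h1, h2] at hnn
      nlinarith
    · have h10 := h5 x hx
      rw [ipr] at h1
      rw [ipr] at h8
      rw [ipr] at h2
      rw [h1, h2] at hnn
      nlinarith
  refine ⟨Finset.mem_insert_of_mem hg.ht, ?_, ?_, ?_⟩
  · rw [Finset.mem_insert, not_or]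
    exact ⟨Ne.symm hr's, hg.hs⟩
  · rintro ⟨hp, hq⟩
    have hpq := hg.hpq
    have e : ∀ x, x ∈ Insert.insert s (Insert.insert r' T) ↔ x = r' ∨ x ∈ Insert.insert s T := by
      intro x; simp only [Finset.mem_insert]; tauto
    rw [e] at hp hq
    have hgpq := gram_le_neg_sqrt_two h4
    have hgqp : gram M q p ≤ -√2 := by rw [hA.symm]; exact hgpq
    have hpne : p ≠ q := by
      rintro rfl
      rw [M.diagonal] at h4
      omega
    rcases hp with hp | hp
    · rcases hq with hq | hq
      · exact hpne (hp.trans hq.symm)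
      · exact hkey q p hgqp hp hq
    · rcases hq with hq | hq
      · exact hkey p q hgpq hq hp
      · exact hpq ⟨hp, hq⟩
  · rw [hnew, h1, h2]
    linarith

include cs in
lemma good_base {s t p q : B} {a : ℝ} (hst : s ≠ t) (ha : gram M s t = -a) (hpq : p ≠ q)
    (h5 : M s t = 5) (hM : M p q ≠ 5) : Good M s t p q a {t} := by
  have hA := gram_compat M
  refine ⟨Finset.mem_singleton_self t, by simpa using hst, ?_, ?_⟩
  · rintro ⟨h1, h2⟩
    simp only [Finset.mem_insert, Finset.mem_singleton] at h1 h2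
    rcases h1 with rfl | rfl <;> rcases h2 with rfl | rfl
    · exact hpq rfl
    · exact hM h5
    · rw [M.symmetric] at h5; exact hM h5
    · exact hpq rfl
  · have h1 : one ({t} : Finset B) = al t := by simp [one]
    have hts : gram M t s = -a := by rw [hA.symm, ha]
    rw [h1]
    simp only [map_add, map_smul, LinearMap.add_apply, LinearMap.smul_apply, form_al_al, hA.diag,
      ha, hts, smul_eq_mul]
    apply le_of_eq
    ring

include cs in
/-- labels five and at least four (other than five) do not occur together. -/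
lemma no_four_five {u s t p q : B} (hs : s ∈ Cmp M u) (ht : t ∈ Cmp M u) (hp : p ∈ Cmp M u)
    (hst : s ≠ t) (hpq : p ≠ q) (h5 : M s t = 5) (h4 : 4 ≤ M p q) (hM : M p q ≠ 5) : False := by
  have h0 := M_ne_zero cs
  have hA := gram_compat M
  set a : ℝ := - gram M s t with ha
  have ha1 : 1.6 ≤ a := by
    rw [ha, gram, h5]
    push_cast
    rw [Real.cos_pi_div_five]
    have : (2.23 : ℝ) ≤ √5 := by apply Real.le_sqrt_of_sq_le; norm_num
    linarith
  have hgst : gram M s t = -a := by rw [ha]; ring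
  have hgts : gram M t s = -a := by rw [hA.symm, hgst]
  have h5' : M t s = 5 := by rw [M.symmetric]; exact h5
  have claim : ∀ r, Relation.ReflTransGen (Adj M) t r → ∃ s' t',
      ((s' = s ∧ t' = t) ∨ (s' = t ∧ t' = s)) ∧ ∃ T, Good M s' t' p q a T ∧ r ∈ T := by
    intro r hr
    induction hr with
    | refl => exact ⟨s, t, Or.inl ⟨rfl, rfl⟩, {t}, good_base cs hst hgst hpq h5 hM, by simp⟩
    | @tail r r' _ hadj ih =>
      obtain ⟨s', t', hcase, T, hg, hrT⟩ := ih
      by_cases h1 : r' ∈ T
      · exact ⟨s', t', hcase, T, hg, h1⟩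
      · by_cases h2 : r' = s'
        · rcases hcase with ⟨rfl, rfl⟩ | ⟨rfl, rfl⟩
          · exact ⟨t', s', Or.inr ⟨rfl, rfl⟩, {s'},
              good_base cs (Ne.symm hst) hgts hpq h5' hM, by rw [h2]; simp⟩
          · exact ⟨t', s', Or.inl ⟨rfl, rfl⟩, {s'},
              good_base cs hst hgst hpq h5 hM, by rw [h2]; simp⟩
        · exact ⟨s', t', hcase, _, hg.ins cs ha1 h4 hrT h1 h2 hadj,
            Finset.mem_insert_self _ _⟩
  obtain ⟨s', t', -, T, hg, hpT⟩ := claim p (cmp_conn ht hp)
  have hq : q ∉ insert s' T := fun h => hg.hpq ⟨Finset.mem_insert_of_mem hpT, h⟩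
  rw [Finset.mem_insert, not_or] at hq
  have hadj : Adj M p q := ⟨hpq, by omega⟩
  have h1 := hg.ins cs ha1 h4 hpT hq.2 hq.1 hadj
  apply h1.hpq
  simp [hpT]

include cs in
/-- a third vertex bounds the label -/
lemma label_lt_six {s t r : B} (hst : s ≠ t) (hr : r ≠ s) (hadj : Adj M t r) : M s t < 6 := by
  have h0 := M_ne_zero cs
  have hA := gram_compat M
  by_contra hc
  push Not at hc
  set a : ℝ := - gram M s t with ha
  have ha1 : √3 ≤ a := by
    have h1 := cos_pi_div_mono (by norm_num) hc
    push_cast at h1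
    rw [Real.cos_pi_div_six] at h1
    rw [ha, gram]; linarith
  have hgst : gram M s t = -a := by rw [ha]; ring
  have hgts : gram M t s = -a := by rw [hA.symm, hgst]
  have hgtr := gram_le_neg_one h0 hadj.1 hadj.2
  have hgrt : gram M r t = gram M t r := hA.symm _ _
  have hgsr := gram_nonpos h0 (Ne.symm hr)
  have hgrs : gram M r s = gram M s r := hA.symm _ _
  set v : B → ℝ := (a / 2) • al s + al t + (1 / 2 : ℝ) • al r with hv
  have hv0 : v ≠ 0 := by
    intro h
    have := congrFun h t
    rw [hv] at this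
    simp [al_ne (Ne.symm hst), al_ne hadj.1] at this
  have h1 := form_pos cs hA hv0
  have h2 : form (gram M) v v = 5 / 2 - a ^ 2 / 2 + gram M t r + a / 2 * gram M s r := by
    rw [hv]
    simp only [map_add, map_smul, LinearMap.add_apply, LinearMap.smul_apply, form_al_al, hA.diag,
      hgst, hgts, hgrt, hgrs, smul_eq_mul]
    ring
  rw [h2] at h1
  have h3 : 0 ≤ a := le_trans (Real.sqrt_nonneg 3) ha1
  have h4 : a / 2 * gram M s r ≤ 0 := mul_nonpos_of_nonneg_of_nonpos (by linarith) hgsr
  have h5 : 3 ≤ a ^ 2 := by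
    have := Real.sq_sqrt (show (0 : ℝ) ≤ 3 by norm_num)
    nlinarith [Real.sqrt_nonneg 3]
  linarith

include cs in
/-- The classification of labels of a component needed later. -/
theorem label_cases (u : B) :
    (∀ s t, s ∈ Cmp M u → t ∈ Cmp M u → s ≠ t → M s t = 2 ∨ M s t = 3 ∨ M s t = 4 ∨ M s t = 6) ∨
    (∃ s t, s ≠ t ∧ ∀ p ∈ Cmp M u, p = s ∨ p = t) ∨
    (∀ s t, s ∈ Cmp M u → t ∈ Cmp M u → s ≠ t → M s t = 2 ∨ M s t = 3 ∨ M s t = 5) := by
  have h0 := M_ne_zero cs
  by_contra hc
  push Not at hc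
  obtain ⟨⟨s, t, hs, ht, hst, n2, n3, n4, n6⟩, hrk, ⟨p, q, hp, hq, hpq, m2, m3, m5⟩⟩ := hc
  obtain ⟨r, hr, hrs, hrt⟩ := hrk s t hst
  have hex : ∃ r', (r' ≠ s ∧ r' ≠ t) ∧ (Adj M s r' ∨ Adj M t r') := by
    have claim : ∀ x, Relation.ReflTransGen (Adj M) s x → (x = s ∨ x = t) ∨
        ∃ r', (r' ≠ s ∧ r' ≠ t) ∧ (Adj M s r' ∨ Adj M t r') := by
      intro x hx
      induction hx with
      | refl => exact Or.inl (Or.inl rfl)
      | @tail y x _ hadj ih =>
        rcases ih with ih | ih
        · by_cases hxs : x = s ∨ x = t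
          · exact Or.inl hxs
          · push Not at hxs
            right
            refine ⟨x, hxs, ?_⟩
            rcases ih with rfl | rfl
            · exact Or.inl hadj
            · exact Or.inr hadj
        · exact Or.inr ih
    rcases claim r (cmp_conn hs hr) with h | h
    · rcases h with h | h
      · exact absurd h hrs
      · exact absurd h hrt
    · exact h
  obtain ⟨r', ⟨hr's, hr't⟩, hadj⟩ := hex
  have hlt : M s t < 6 := by
    rcases hadj with hadj | hadj
    · rw [M.symmetric]
      exact label_lt_six cs (Ne.symm hst) hr't hadj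
    · exact label_lt_six cs hst hr's hadj
  have h2 := two_le_M M hst (h0 s t)
  have h5 : M s t = 5 := by omega
  have h3 := two_le_M M hpq (h0 p q)
  exact no_four_five cs hs ht hp hst hpq h5 (by omega) m5

end

end H57
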