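import Pool.Agent.H57.Rank2

/-!
# Polygons and facets
-/

set_option linter.unusedSectionVars false

open Finset CoxeterSystem

namespace H57

variable {B : Type*} [Fintype B] [DecidableEq B]
variable {W : Type*} [Group W] {M : CoxeterMatrix B}

/-- Pattern freeness. -/
def PF (cs : CoxeterSystem M W) : Prop :=
  ∀ (M1 M2 M3 : List (B × Bool)) (h : B → ℤ) (z : (B → ℝ) →ₗ[ℝ] ℝ) (u q1 q2 u' : B),
    Pat cs M1 M2 M3 h z u q1 q2 u' →
    (∀ a b : ℝ, IsRoot cs (a • al u + b • act cs (pr cs M1) (al q1)) →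
      ∃ c d : ℝ, 0 ≤ c ∧ 0 ≤ d ∧
        (a • al u + b • act cs (pr cs M1) (al q1) = c • al u + d • act cs (pr cs M1) (al q1) ∨
         a • al u + b • act cs (pr cs M1) (al q1) =
          -(c • al u + d • act cs (pr cs M1) (al q1)))) →
    0 < z (al u)

variable {cs : CoxeterSystem M W}

/-- the functional attached to a polygon -/
noncomputable def zf (cs : CoxeterSystem M W) (s t : B) (x : W) : (B → ℝ) →ₗ[ℝ] ℝ :=
  ∑ p ∈ Finset.univ.filter (fun p => p ≠ s ∧ p ≠ t), (LinearMap.proj p) ∘ₗ (act cs x⁻¹)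

lemma zf_apply (s t : B) (x : W) (v : B → ℝ) :
    zf cs s t x v = ∑ p ∈ Finset.univ.filter (fun p => p ≠ s ∧ p ≠ t), act cs x⁻¹ v p := by
  simp [zf, LinearMap.sum_apply]

lemma zf_eq_zero {s t : B} {x : W} {v : B → ℝ} (h : Supp2 s t (act cs x⁻¹ v)) :
    zf cs s t x v = 0 := by
  rw [zf_apply]
  apply Finset.sum_eq_zero
  intro p hp
  rw [Finset.mem_filter] at hp
  exact h p hp.2.1 hp.2.2

lemma zf_nonneg {s t : B} {x : W} {v : B → ℝ}
    (h : ∀ p, p ≠ s → p ≠ t → 0 ≤ act cs x⁻¹ v p) : 0 ≤ zf cs s t x v := by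
  rw [zf_apply]
  apply Finset.sum_nonneg
  intro p hp
  rw [Finset.mem_filter] at hp
  exact h p hp.2.1 hp.2.2

lemma zf_pos {s t : B} {x : W} {v : B → ℝ}
    (h : ∀ p, p ≠ s → p ≠ t → 0 ≤ act cs x⁻¹ v p) (h2 : ¬ Supp2 s t (act cs x⁻¹ v)) :
    0 < zf cs s t x v := by
  rw [zf_apply]
  unfold Supp2 at h2
  push Not at h2
  obtain ⟨p, h3, h4, h5⟩ := h2
  apply Finset.sum_pos'
  · intro p hp
    rw [Finset.mem_filter] at hp
    exact h p hp.2.1 hp.2.2
  · exact ⟨p, by simp [h3, h4], lt_of_le_of_ne (h p h3 h4) (Ne.symm h5)⟩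

variable [Finite W]

namespace Poly

variable {s t : B} {x y : W}

/-- The local structure of a polygon along a segment on which the non-simple root `δ` is not
crossed and is a wall at both ends. -/
lemma segment (hP : Poly cs s t x y) {uk ul : W} {δ : B → ℝ} {q1 q2 : B} (hδ : hP.Psi δ)
    (hδ0 : 0 ≤ δ) (hδs : act cs x⁻¹ δ ≠ al s) (hδt : act cs x⁻¹ δ ≠ al t)
    (hk : act cs uk⁻¹ δ = al q1) (hl : act cs ul⁻¹ δ = al q2) (hsub : inver cs uk ⊆ inver cs ul) :
    ∃ η, hP.Psi η ∧ η ≤ 0 ∧ 0 ≤ rr M δ η ∧ -η ∈ inver cs uk ∧ 0 ≤ act cs ul⁻¹ η ∧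
      (∀ ρ, hP.Psi ρ → 0 ≤ act cs ul⁻¹ ρ → ∃ a b : ℝ, 0 ≤ a ∧ 0 ≤ b ∧ ρ = a • δ + b • η) ∧
      (∀ um : W, inver cs uk ⊆ inver cs um → inver cs um ⊆ inver cs ul → ∀ ρ a, hP.Psi ρ →
        act cs um⁻¹ ρ = al a → ρ = δ ∨ ρ = η) := by
  have h0 := M_ne_zero cs
  obtain ⟨η, hη, hηl, hgen, hind⟩ := hP.other_root hδ hl
  have hη0 : η ≤ 0 := hP.other_nonpos hδ hη hδ0 hδs hδt hgen
  have hθ0 : 0 ≤ rr M δ η := hP.refl_other_nonneg hδ hη hl hδ0 hδs hδt hgen
  obtain ⟨η', hη', hηk, hgen', -⟩ := hP.other_root hδ hk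
  have hη'0 : η' ≤ 0 := hP.other_nonpos hδ hη' hδ0 hδs hδt hgen'
  have hmem : -η ∈ inver cs uk := by
    by_contra hc
    rw [notMem_inver hη.1.neg (neg_nonneg.mpr hη0)] at hc
    obtain ⟨a, b, ha, hb, hab⟩ := hgen' (-η) hη.neg hc
    have h1 : -η' ∈ inver cs uk := by
      rw [mem_inver]
      exact ⟨hη'.1.neg, neg_nonneg.mpr hη'0, by rw [map_neg]; exact neg_nonpos.mpr hηk⟩
    have h2 := hsub h1
    rw [mem_inver, map_neg] at h2
    obtain ⟨c, d, hc', hd, hcd⟩ := hgen η' hη' (neg_nonpos.mp h2.2.2)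
    have h3 : (a + b * c) • δ + (1 + b * d) • η = 0 := by
      have : -η = a • δ + b • (c • δ + d • η) := by rw [← hcd]; exact hab
      have h4 : η + (a • δ + b • (c • δ + d • η)) = 0 := by rw [← this]; abel
      rw [← h4]; module
    have h5 := (hind _ _ h3).2
    have := mul_nonneg hb hd
    linarith
  refine ⟨η, hη, hη0, hθ0, hmem, hηl, hgen, ?_⟩
  intro um h1 h2 ρ a hρ hρa
  have hδm : 0 ≤ act cs um⁻¹ δ := by
    rw [← notMem_inver hδ.1 hδ0]
    intro h3
    have h4 := h2 h3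
    have h5 : δ ∉ inver cs ul := by
      rw [notMem_inver hδ.1 hδ0, hl]; exact al_nonneg q2
    exact h5 h4
  have hηm : 0 ≤ act cs um⁻¹ η := by
    have h3 := h1 hmem
    rw [mem_inver, map_neg] at h3
    exact neg_nonpos.mp h3.2.2
  have hcomb : ∃ c d : ℝ, 0 ≤ c ∧ 0 ≤ d ∧ ρ = c • δ + d • η := by
    rcases (hρ.1.image ul⁻¹).pos_or_neg h0 with h3 | h3
    · exact hgen ρ hρ h3
    · exfalso
      obtain ⟨c, d, hc, hd, hcd⟩ := hgen (-ρ) hρ.neg (by rw [map_neg]; exact neg_nonneg.mpr h3)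
      have h4 : 0 ≤ act cs um⁻¹ (-ρ) := by
        rw [hcd, map_add, map_smul, map_smul]
        exact add_nonneg (smul_nonneg hc hδm) (smul_nonneg hd hηm)
      rw [map_neg, hρa] at h4
      exact (isRoot_al cs a).not_both (al_nonneg a) (neg_nonneg.mp h4)
  obtain ⟨c, d, hc, hd, hcd⟩ := hcomb
  have h3 : al a = c • act cs um⁻¹ δ + d • act cs um⁻¹ η := by
    rw [← hρa, hcd, map_add, map_smul, map_smul]
  rcases extreme (hδ.1.image _) (hη.1.image _) hδm hηm hc hd h3 with h4 | h4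
  · left
    apply act_injective cs um⁻¹
    rw [h4, hρa]
  · right
    apply act_injective cs um⁻¹
    rw [h4, hρa]

/-- the exclusion of non-simple walls -/
theorem no_K (hPF : PF cs) (hP : Poly cs s t x y) {L : List (B × Bool)} {h : B → ℤ}
    (halt : Alt M h L) (hred : Red cs L)
    (hΨ : ∀ ρ, hP.Psi ρ → 0 ≤ ρ → ρ ∈ inver cs (pr cs L))
    (hz : ∀ L₁ a L₂, L = L₁ ++ (a, false) :: L₂ → ∀ p, p ≠ s → p ≠ t →
      0 ≤ act cs x⁻¹ (act cs (pr cs L₁) (al a)) p)
    {A' M2 C' : List (B × Bool)} {q1 q2 : B}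
    (hL : L = A' ++ (q1, false) :: (M2 ++ (q2, true) :: C')) {δ : B → ℝ} (hδ : hP.Psi δ)
    (hδ0 : 0 ≤ δ) (hδs : act cs x⁻¹ δ ≠ al s) (hδt : act cs x⁻¹ δ ≠ al t)
    (h1 : act cs (pr cs A') (al q1) = δ) (h2 : act cs (pr cs A' * pr cs M2) (al q2) = δ)
    (hM2 : ∀ L₁ a L₂, M2 = L₁ ++ (a, false) :: L₂ →
      ¬ hP.Psi (act cs (pr cs A' * pr cs L₁) (al a))) : False := by
  have h0 := M_ne_zero cs
  have hk : act cs (pr cs A')⁻¹ δ = al q1 := by rw [← h1, act_inv_act]
  have hl : act cs (pr cs A' * pr cs M2)⁻¹ δ = al q2 := by rw [← h2, act_inv_act]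
  have hred1 : Red cs (A' ++ (q1, false) :: M2) := by
    have e : L = (A' ++ (q1, false) :: M2) ++ ((q2, true) :: C') := by rw [hL]; simp
    rw [e] at hred
    exact hred.left
  have hsub : inver cs (pr cs A') ⊆ inver cs (pr cs A' * pr cs M2) := by
    have := inver_pr_subset (cs := cs) hred1
    rwa [pr_skip] at this
  obtain ⟨η, hη, hη0, hθ0, hmem, hηl, hgen, -⟩ := hP.segment hδ hδ0 hδs hδt hk hl hsub
  set θ := rr M δ η with hθ
  have hθP : hP.Psi θ := hδ.reflect hη
  -- the letter `j`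
  rw [mem_inver_pr hred1.left] at hmem
  obtain ⟨A, u, M1, hA', hroot⟩ := hmem
  -- the letter `j'`
  have hθmem := hΨ θ hθP hθ0
  have eL : L = (A' ++ (q1, false) :: (M2 ++ [(q2, true)])) ++ C' := by rw [hL]; simp
  have hprl : pr cs (A' ++ (q1, false) :: (M2 ++ [(q2, true)])) =
      (pr cs A' * pr cs M2) * cs.simple q2 := by simp [mul_assoc]
  have hθnot : θ ∉ inver cs (pr cs (A' ++ (q1, false) :: (M2 ++ [(q2, true)]))) := by
    rw [notMem_inver hθP.1 hθ0, hprl, mul_inv_rev, cs.inv_simple, act_mul, hθ,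
      act_conj_inv hl, ← act_simple_eq_rr cs, act_simple_simple]
    exact hηl
  rw [eL] at hθmem hred
  obtain ⟨M3, u', C'', hC', hroot'⟩ := exists_of_mem_of_notMem hred hθmem hθnot
  -- the pattern
  set g := pr cs A * cs.simple u with hg
  have hgal : act cs g (al u) = η := by
    rw [hg, act_mul, act_simple_al, map_neg, ← hroot, neg_neg]
  have hgpr : g = pr cs (A ++ [(u, true)]) := by simp [hg]
  have hA'pr : pr cs A' = g * pr cs M1 := by rw [hA', hg]; simp [mul_assoc]
  have hLnew : L = (A ++ [(u, true)]) ++ (patL M1 M2 M3 q1 q2 ++ (u', true) :: C'') := by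
    rw [hL, hA', hC', patL]; simp
  have hredL : Red cs ((A ++ [(u, true)]) ++ (patL M1 M2 M3 q1 q2 ++ (u', true) :: C'')) := by
    rw [← hLnew, eL]; exact hred
  have haltL := halt
  rw [hLnew, alt_append, alt_append, alt_append] at haltL
  obtain ⟨⟨halt1, halt2⟩, halt3, halt4⟩ := haltL
  have hδnew : act cs g (act cs (pr cs M1) (al q1)) = δ := by
    rw [← act_mul, ← hA'pr, h1]
  have hneg : ipr M η δ < 0 := by
    by_contra hc
    push Not at hc
    have h3 : θ ≤ 0 := by
      have e : θ = η + (-(ipr M η δ)) • δ := by rw [hθ, rr]; module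
      rw [e]
      exact add_nonpos hη0 (smul_nonpos_of_nonpos_of_nonneg (by linarith) hδ0)
    exact hθP.1.not_both hθ0 h3
  have hPat : Pat cs M1 M2 M3 (hA h (A ++ [(u, true)])) (zf cs s t x ∘ₗ act cs g) u q1 q2 u' := by
    refine ⟨hredL.right.left, halt3, ?_, ?_, ?_, ?_, ?_, ?_, ?_, ?_⟩
    · rw [hA_append]
      simp only [alt_cons] at halt2
      simpa using halt2.1.snk_bump
    · rw [alt_cons] at halt4
      exact halt4.1
    · apply act_injective cs g
      rw [hδnew, ← act_mul, ← mul_assoc, ← hA'pr]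
      exact h2
    · rw [← act_form cs g, hgal, hδnew]
      exact hneg
    · apply act_injective cs g
      rw [← act_conj_rr, hgal, hδnew, ← hθ, hroot', ← act_mul]
      congr 2
      rw [hA', hg, patL]
      simp [mul_assoc]
    · rw [LinearMap.comp_apply, hδnew]
      exact zf_eq_zero hδ.2
    · intro L₁ a L₂ he
      rw [LinearMap.comp_apply, ← act_mul, hgpr, ← pr_append]
      apply zf_nonneg
      apply hz _ a (L₂ ++ (u', true) :: C'')
      rw [hLnew, he]; simp
    · intro L₁ a L₂ he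
      rw [LinearMap.comp_apply, ← act_mul, ← mul_assoc, ← hA'pr]
      apply zf_pos
      · have := hz (A' ++ (q1, false) :: L₁) a (L₂ ++ (q2, true) :: C') (by rw [hL, he]; simp)
        rwa [pr_skip] at this
      · intro h3
        exact hM2 _ _ _ he ⟨(isRoot_al cs a).image _, h3⟩
  have hpos := hPF M1 M2 M3 _ _ u q1 q2 u' hPat (by
    intro a b hab
    have h3 := hab.image g
    rw [map_add, map_smul, map_smul, hgal, hδnew] at h3
    have h4 : hP.Psi (a • η + b • δ) := by
      refine ⟨h3, ?_⟩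
      rw [map_add, map_smul, map_smul]
      exact (hη.2.smul a).add (hδ.2.smul b)
    rcases (h3.image (pr cs A' * pr cs M2)⁻¹).pos_or_neg h0 with h5 | h5
    · obtain ⟨c, d, hc, hd, hcd⟩ := hgen _ h4 h5
      refine ⟨d, c, hd, hc, Or.inl ?_⟩
      apply act_injective cs g
      rw [map_add, map_smul, map_smul, map_add, map_smul, map_smul, hgal, hδnew, hcd, add_comm]
    · obtain ⟨c, d, hc, hd, hcd⟩ := hgen _ h4.neg (by rw [map_neg]; exact neg_nonneg.mpr h5)
      refine ⟨d, c, hd, hc, Or.inr ?_⟩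
      apply act_injective cs g
      rw [map_neg, map_add, map_smul, map_smul, map_add, map_smul, map_smul, hgal, hδnew,
        add_comm (d • η), ← hcd, neg_neg])
  rw [LinearMap.comp_apply, hgal, zf_eq_zero hη.2] at hpos
  exact lt_irrefl _ hpos

/-- the skip roots of a facet valid at the bottom -/
theorem K_bot (hPF : PF cs) (hP : Poly cs s t x y) {Q : List B} {ω : W} {L : List (B × Bool)}
    {h : B → ℤ} (halt : Alt M h L) (hF : Facet cs Q ω L)
    (hω : inver cs y ⊆ inver cs ω) (hV : Valid cs x L) {L₁ L₂ : List (B × Bool)} {a : B}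
    (hL : L = L₁ ++ (a, false) :: L₂) (hρ : hP.Psi (act cs (pr cs L₁) (al a))) :
    act cs x⁻¹ (act cs (pr cs L₁) (al a)) = al s ∨ act cs x⁻¹ (act cs (pr cs L₁) (al a)) = al t := by
  have h0 := M_ne_zero cs
  by_contra hc
  push Not at hc
  obtain ⟨hδs, hδt⟩ := hc
  set δ := act cs (pr cs L₁) (al a) with hδ
  have hδ0 : 0 ≤ δ := hρ.nonneg_iff.mpr (hV _ _ _ hL)
  have hδω : δ ∈ inver cs ω := hω (hρ.mem_y hδ0)
  rw [← hF.prod, mem_inver_pr hF.red] at hδω
  obtain ⟨P, b, C, hP1, hroot⟩ := hδω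
  -- letters after the used one do not have root `δ`
  have hafter : ∀ C₁ t C₂, C = C₁ ++ (t, false) :: C₂ →
      act cs (pr cs (P ++ (b, true) :: C₁)) (al t) ≠ δ := by
    intro C₁ t C₂ hC h1
    have hred1 : Red cs (P ++ (b, true) :: C₁) := by
      have := hF.red
      rw [hP1, hC] at this
      have e : P ++ (b, true) :: (C₁ ++ (t, false) :: C₂) =
          (P ++ (b, true) :: C₁) ++ ((t, false) :: C₂) := by simp
      rw [e] at this
      exact this.left
    have h2 : δ ∈ inver cs (pr cs (P ++ (b, true) :: C₁)) := by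
      rw [mem_inver_pr hred1]
      exact ⟨P, b, C₁, rfl, hroot⟩
    rw [← h1] at h2
    exact al_notMem_inver h2
  have hex : ∃ A x C', P = A ++ x :: C' ∧ (x.2 = false ∧ act cs (pr cs A) (al x.1) = δ) := by
    rw [hP1] at hL
    rcases cases3 hL with ⟨A', h1, h2⟩ | ⟨h1, h2, h3⟩ | ⟨C₁, h1, h2⟩
    · exact ⟨L₁, (a, false), A', h1, rfl, rfl⟩
    · simp at h2
    · exfalso
      refine hafter C₁ a L₂ h1 ?_
      rw [← h2]
  obtain ⟨A', ⟨q1, fq⟩, M2, hP2, ⟨hx1, hx2⟩, hlast⟩ := exists_last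
    (fun A x => x.2 = false ∧ act cs (pr cs A) (al x.1) = δ) P hex
  simp only at hx1 hx2
  subst hx1
  have hLL : L = A' ++ (q1, false) :: (M2 ++ (b, true) :: C) := by
    rw [hP1, hP2]; simp
  have h2 : act cs (pr cs A' * pr cs M2) (al b) = δ := by
    rw [hroot, hP2]; simp
  have hred1 : Red cs (A' ++ (q1, false) :: M2) := by
    have := hF.red
    rw [hP1, hP2] at this
    exact this.left
  refine hP.no_K hPF halt hF.red ?_ ?_ hLL hρ hδ0 hδs hδt hx2 h2 ?_
  · intro ρ h3 h4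
    rw [hF.prod]
    exact hω (h3.mem_y h4)
  · intro K₁ c K₂ he p _ _
    exact hV K₁ c K₂ he p
  · intro K₁ c K₂ he hPsi
    set ρ := act cs (pr cs A' * pr cs K₁) (al c) with hρ'
    have eL : L = (A' ++ (q1, false) :: K₁) ++ (c, false) :: (K₂ ++ (b, true) :: C) := by
      rw [hLL, he]; simp
    have hρV := hV _ _ _ eL
    rw [pr_skip, ← hρ'] at hρV
    have hρ0 : 0 ≤ ρ := hPsi.nonneg_iff.mpr hρV
    have hk : act cs (pr cs A')⁻¹ δ = al q1 := by rw [← hx2, act_inv_act]
    have hl : act cs (pr cs A' * pr cs M2)⁻¹ δ = al b := by rw [← h2, act_inv_act]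
    have hsub : inver cs (pr cs A') ⊆ inver cs (pr cs A' * pr cs M2) := by
      have := inver_pr_subset (cs := cs) hred1
      rwa [pr_skip] at this
    obtain ⟨η, hη, hη0, hθ0, hmem, hηl, hgen, hmid⟩ := hP.segment hρ hδ0 hδs hδt hk hl hsub
    have hred2 : Red cs ((A' ++ (q1, false) :: K₁) ++ (c, false) :: K₂) := by
      have e : (A' ++ (q1, false) :: K₁) ++ (c, false) :: K₂ = A' ++ (q1, false) :: M2 := by
        rw [he]; simp
      rw [e]; exact hred1
    have hs1 : inver cs (pr cs A') ⊆ inver cs (pr cs A' * pr cs K₁) := by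
      have := inver_pr_subset (cs := cs) hred2.left
      rwa [pr_skip] at this
    have hs2 : inver cs (pr cs A' * pr cs K₁) ⊆ inver cs (pr cs A' * pr cs M2) := by
      have := inver_pr_subset (cs := cs) hred2
      have e : pr cs ((A' ++ (q1, false) :: K₁) ++ (c, false) :: K₂) = pr cs A' * pr cs M2 := by
        rw [he]; simp [mul_assoc]
      rwa [pr_skip, e] at this
    rcases hmid _ hs1 hs2 ρ c hPsi (by rw [hρ', act_inv_act]) with h5 | h5
    · refine hlast K₁ (c, false) K₂ he ⟨rfl, ?_⟩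
      rw [pr_skip, ← hρ', h5]
    · rw [h5] at hρ0
      exact hη.1.not_both hρ0 hη0

/-- the skip roots of a facet valid at the top -/
theorem K_top (hPF : PF cs) (hP : Poly cs s t x y) {Q : List B} {ω : W} {L : List (B × Bool)}
    {h : B → ℤ} (halt : Alt M h L) (hF : Facet cs Q ω L)
    (hω : inver cs y ⊆ inver cs ω) (hV : Valid cs y L) {L₁ L₂ : List (B × Bool)} {a : B}
    (hL : L = L₁ ++ (a, false) :: L₂) (hρ : hP.Psi (act cs (pr cs L₁) (al a))) :
    act cs y⁻¹ (act cs (pr cs L₁) (al a)) = al s ∨ act cs y⁻¹ (act cs (pr cs L₁) (al a)) = al t := by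
  have h0 := M_ne_zero cs
  by_contra hc
  push Not at hc
  obtain ⟨hys, hyt⟩ := hc
  set δ := - act cs (pr cs L₁) (al a) with hδ
  have hδP : hP.Psi δ := hρ.neg
  have hVy := hV _ _ _ hL
  have hδ0 : 0 ≤ δ := by
    rw [← hδP.1.not_nonpos_iff h0]
    intro h1
    have h2 := hρ.mem_y (by rw [hδ] at h1; exact neg_nonpos.mp h1)
    rw [mem_inver] at h2
    exact (hρ.1.image _).not_both hVy h2.2.2
  -- `δ` is not simple for `x`
  have hnonsimple : act cs x⁻¹ δ ≠ al s ∧ act cs x⁻¹ δ ≠ al t := by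
    -- from the `y` side
    have key : ∀ c, (c = s ∨ c = t) → act cs x⁻¹ δ = al c → False := by
      intro c hc h1
      -- the other letter
      obtain ⟨c', hc', hcc⟩ : ∃ c', (c' = s ∨ c' = t) ∧ ((c = s ∧ c' = t) ∨ (c = t ∧ c' = s)) := by
        rcases hc with rfl | rfl
        · exact ⟨t, Or.inr rfl, Or.inl ⟨rfl, rfl⟩⟩
        · exact ⟨s, Or.inl rfl, Or.inr ⟨rfl, rfl⟩⟩
      have hPc : ∀ e, (e = s ∨ e = t) → hP.Psi (act cs x (al e)) := by
        intro e he
        rcases he with rfl | rfl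
        · exact hP.psi_xs
        · exact hP.psi_xt
      have hxpos : ∀ e, (e = s ∨ e = t) → 0 ≤ act cs x (al e) := by
        intro e he
        rcases he with rfl | rfl
        · exact hP.xs
        · exact hP.xt
      have hδx : δ = act cs x (al c) := by rw [← h1, act_act_inv]
      set v := - act cs y⁻¹ (act cs x (al c)) with hv
      set v' := - act cs y⁻¹ (act cs x (al c')) with hv'
      have hv0 : 0 ≤ v := neg_nonneg.mpr ((hPc c hc).y_nonpos (hxpos c hc))
      have hv'0 : 0 ≤ v' := neg_nonneg.mpr ((hPc c' hc').y_nonpos (hxpos c' hc'))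
      have hvr : IsRoot cs v := ((hPc c hc).1.image _).neg
      have hvr' : IsRoot cs v' := ((hPc c' hc').1.image _).neg
      have hgen : ∀ e, (e = s ∨ e = t) → ∃ a b : ℝ, 0 ≤ a ∧ 0 ≤ b ∧ al e = a • v + b • v' := by
        intro e he
        -- `w = x⁻¹ y α_e` is supported on `{s,t}` and negative
        have hye : act cs y (al e) ≤ 0 := by
          rcases he with rfl | rfl
          · exact hP.ys
          · exact hP.yt
        have hPsie : hP.Psi (act cs y (al e)) := by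
          apply hP.psi_of_y ((isRoot_al cs e).image y)
          rw [act_inv_act]
          rcases he with rfl | rfl
          · exact Supp2.al_left _ _
          · exact Supp2.al_right _ _
        set w := act cs x⁻¹ (act cs y (al e)) with hw
        have hw0 : w ≤ 0 := hPsie.nonpos_iff.mp hye
        have hwe := hPsie.2.eq hP.ne
        rw [← hw] at hwe
        have h3 : al e = act cs y⁻¹ (act cs x w) := by rw [hw, act_act_inv, act_inv_act]
        have h4 : al e = (- w s) • (- act cs y⁻¹ (act cs x (al s))) +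
            (- w t) • (- act cs y⁻¹ (act cs x (al t))) := by
          rw [h3]
          conv_lhs => rw [hwe]
          rw [map_add, map_smul, map_smul, map_add, map_smul, map_smul]
          module
        have hws : 0 ≤ - w s := neg_nonneg.mpr (hw0 s)
        have hwt : 0 ≤ - w t := neg_nonneg.mpr (hw0 t)
        rcases hcc with ⟨h5, h6⟩ | ⟨h5, h6⟩
        · exact ⟨_, _, hws, hwt, by rw [hv, hv', h5, h6]; exact h4⟩
        · exact ⟨_, _, hwt, hws, by rw [hv, hv', h5, h6, add_comm]; exact h4⟩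
      have hvρ : v = act cs y⁻¹ (act cs (pr cs L₁) (al a)) := by
        rw [hv, ← hδx, hδ, map_neg, neg_neg]
      rcases hP.simple_of_gen hvr hvr' hv0 hv'0 (hgen s (Or.inl rfl)) (hgen t (Or.inr rfl)) with
        h5 | h5
      · exact hys (by rw [← hvρ, h5])
      · exact hyt (by rw [← hvρ, h5])
    exact ⟨key s (Or.inl rfl), key t (Or.inr rfl)⟩
  obtain ⟨hδs, hδt⟩ := hnonsimple
  have hδω : δ ∈ inver cs ω := hω (hδP.mem_y hδ0)
  have hδω' := hδω
  rw [← hF.prod, mem_inver_pr hF.red] at hδω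
  obtain ⟨P, b, D, hP1, hroot⟩ := hδω
  have hredP : Red cs P := by
    have := hF.red
    rw [hP1] at this
    exact this.left
  -- letters before the used one do not have root `-δ`
  have hbefore : ∀ A₁ t A₂, P = A₁ ++ (t, false) :: A₂ → act cs (pr cs A₁) (al t) ≠ -δ := by
    intro A₁ t A₂ hA h1
    have h2 : δ ∈ inver cs (pr cs A₁) := by
      rw [mem_inver]
      refine ⟨hδP.1, hδ0, ?_⟩
      have : δ = - act cs (pr cs A₁) (al t) := by rw [h1, neg_neg]
      rw [this, map_neg, act_inv_act]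
      exact neg_nonpos.mpr (al_nonneg t)
    have h3 : δ ∈ inver cs (pr cs P) := by
      rw [hA] at hredP ⊢
      exact inver_pr_subset hredP h2
    rw [hroot] at h3
    exact al_notMem_inver h3
  have hex : ∃ A x C', D = A ++ x :: C' ∧
      (x.2 = false ∧ act cs (pr cs (P ++ (b, true) :: A)) (al x.1) = -δ) := by
    rw [hP1] at hL
    rcases cases3 hL with ⟨A', h1, h2⟩ | ⟨h1, h2, h3⟩ | ⟨C₁, h1, h2⟩
    · exact absurd (by rw [hδ, neg_neg]) (hbefore L₁ a A' h1)
    · simp at h2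
    · refine ⟨C₁, (a, false), L₂, h1, rfl, ?_⟩
      rw [← h2, hδ, neg_neg]
  obtain ⟨M2, ⟨q2, fq⟩, C', hD, ⟨hx1, hx2⟩, hfirst⟩ := exists_first
    (fun A x => x.2 = false ∧ act cs (pr cs (P ++ (b, true) :: A)) (al x.1) = -δ) D hex
  simp only at hx1 hx2
  subst hx1
  have hLL : L = P ++ (b, true) :: (M2 ++ (q2, false) :: C') := by rw [hP1, hD]
  have h2 : act cs (pr cs P * pr cs M2) (al q2) = δ := by
    rw [act_used_eq, ← hroot, pr_skip] at hx2
    have := congrArg (rr M δ) hx2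
    rw [rr_rr hδP.1, rr_neg, rr_self hδP.1, neg_neg] at this
    exact this
  -- the flipped word
  set L' := P ++ (b, false) :: (M2 ++ (q2, true) :: C') with hL'
  have hswap := swap_pr hroot.symm h2
  have hpr : pr cs L' = pr cs L := by
    rw [hL', hLL]
    simp only [pr_append, pr_cons_true, pr_cons_false]
    rw [← mul_assoc, ← mul_assoc, ← mul_assoc, ← mul_assoc, ← hswap]
  have hred' : Red cs L' := by
    refine (red_iff_of_pr_cnt (cs := cs) hpr ?_).mpr hF.red
    rw [hL', hLL]; simp; ring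
  have halt' : Alt M h L' := alt_congr h (by rw [hL', hLL]; simp) halt
  have hrefl_p : ∀ ρ p, p ≠ s → p ≠ t → act cs x⁻¹ (rr M δ ρ) p = act cs x⁻¹ ρ p := by
    intro ρ p hp1 hp2
    rw [rr, map_sub, map_smul, Pi.sub_apply, Pi.smul_apply, hδP.2 p hp1 hp2]
    simp
  have hred1 : Red cs (P ++ (b, false) :: M2) := by
    have e : L' = (P ++ (b, false) :: M2) ++ ((q2, true) :: C') := by rw [hL']; simp
    rw [e] at hred'
    exact hred'.left
  refine hP.no_K hPF halt' hred' ?_ ?_ hL' hδP hδ0 hδs hδt hroot.symm h2 ?_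
  · intro ρ h3 h4
    rw [hpr, hF.prod]
    exact hω (h3.mem_y h4)
  · intro K₁ c K₂ he p hp1 hp2
    rw [hL'] at he
    rcases cases5 he with ⟨A', g1, g2⟩ | ⟨g1, g2, g3⟩ | ⟨B₁, B₂, g1, g2, g3⟩ | ⟨g1, g2, g3⟩ |
      ⟨C₁, g1, g2⟩
    · rw [hP.coset' _ hp1 hp2]
      apply hV K₁ c (A' ++ (b, true) :: D)
      rw [hP1, g1]; simp
    · simp only [Prod.mk.injEq, and_true] at g2
      rw [g1, g2, ← hroot]
      exact (hδP.nonneg_iff.mp hδ0) p
    · have h4 := hV (P ++ (b, true) :: B₁) c (B₂ ++ (q2, false) :: C') (by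
          rw [hLL, g1]; simp)
      have h5 := h4 p
      rw [act_used_eq, ← hroot, ← hP.coset' _ hp1 hp2, hrefl_p _ p hp1 hp2] at h5
      rw [g2]; exact h5
    · simp at g2
    · have e1 : pr cs (P ++ (b, false) :: (M2 ++ (q2, true) :: C₁)) =
          pr cs (P ++ (b, true) :: (M2 ++ (q2, false) :: C₁)) := by
        simp only [pr_append, pr_cons_true, pr_cons_false]
        rw [← mul_assoc, ← mul_assoc, ← mul_assoc, ← mul_assoc, ← hswap]
      rw [g2, e1, hP.coset' _ hp1 hp2]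
      apply hV _ c K₂
      rw [hLL, g1]; simp
  · intro K₁ c K₂ he hPsi
    set ρ := act cs (pr cs P * pr cs K₁) (al c) with hρ'
    have eL : L = (P ++ (b, true) :: K₁) ++ (c, false) :: (K₂ ++ (q2, false) :: C') := by
      rw [hLL, he]; simp
    have hρV := hV _ _ _ eL
    rw [act_used_eq, ← hroot, pr_skip, ← hρ'] at hρV
    have hPsi' : hP.Psi (rr M δ ρ) := hδP.reflect hPsi
    have hρ0 : rr M δ ρ ≤ 0 := by
      rw [← hPsi'.1.not_nonneg_iff h0]
      intro h1
      exact (hPsi'.1.image _).not_both hρV (hPsi'.y_nonpos h1)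
    have hk : act cs (pr cs P)⁻¹ δ = al b := by
      conv_lhs => rw [hroot]
      rw [act_inv_act]
    have hl : act cs (pr cs P * pr cs M2)⁻¹ δ = al q2 := by rw [← h2, act_inv_act]
    have hsub : inver cs (pr cs P) ⊆ inver cs (pr cs P * pr cs M2) := by
      have := inver_pr_subset (cs := cs) hred1
      rwa [pr_skip] at this
    obtain ⟨η, hη, hη0, hθ0, hmem, hηl, hgen, hmid⟩ := hP.segment hδP hδ0 hδs hδt hk hl hsub
    have hred2 : Red cs ((P ++ (b, false) :: K₁) ++ (c, false) :: K₂) := by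
      have e : (P ++ (b, false) :: K₁) ++ (c, false) :: K₂ = P ++ (b, false) :: M2 := by
        rw [he]; simp
      rw [e]; exact hred1
    have hs1 : inver cs (pr cs P) ⊆ inver cs (pr cs P * pr cs K₁) := by
      have := inver_pr_subset (cs := cs) hred2.left
      rwa [pr_skip] at this
    have hs2 : inver cs (pr cs P * pr cs K₁) ⊆ inver cs (pr cs P * pr cs M2) := by
      have := inver_pr_subset (cs := cs) hred2
      have e : pr cs ((P ++ (b, false) :: K₁) ++ (c, false) :: K₂) = pr cs P * pr cs M2 := by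
        rw [he]; simp [mul_assoc]
      rwa [pr_skip, e] at this
    rcases hmid _ hs1 hs2 ρ c hPsi (by rw [hρ', act_inv_act]) with h5 | h5
    · refine hfirst K₁ (c, false) K₂ he ⟨rfl, ?_⟩
      rw [act_used_eq, ← hroot, pr_skip, ← hρ', h5, rr_self hδP.1]
    · rw [h5] at hρ0
      exact (hδP.reflect hη).1.not_both hθ0 hρ0

end Poly

end H57
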