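import Pool.Agent.H57.UnfFin
import Pool.Agent.H57.Polygon

/-!
# Lifting words to the unfolded group
-/

set_option linter.unusedSectionVars false

open Finset CoxeterSystem goldenRatio

namespace H57

variable {B : Type*} [Fintype B] [DecidableEq B]
variable {W : Type*} [Group W] {M : CoxeterMatrix B}


/-! ### Integer vectors -/

lemma IsInt.sub {v w : B → ℝ} (hv : IsInt v) (hw : IsInt w) : IsInt (v - w) := by
  intro p
  obtain ⟨a, ha⟩ := hv p
  obtain ⟨b, hb⟩ := hw p
  exact ⟨a - b, by simp [ha, hb]⟩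

lemma IsInt.add {v w : B → ℝ} (hv : IsInt v) (hw : IsInt w) : IsInt (v + w) := by
  intro p
  obtain ⟨a, ha⟩ := hv p
  obtain ⟨b, hb⟩ := hw p
  exact ⟨a + b, by simp [ha, hb]⟩

lemma IsInt.neg {v : B → ℝ} (hv : IsInt v) : IsInt (-v) := by
  intro p
  obtain ⟨a, ha⟩ := hv p
  exact ⟨-a, by simp [ha]⟩

lemma int_gold {a b : ℤ} (h : (a : ℝ) + φ * b = 0) : a = 0 ∧ b = 0 := by
  by_cases hb : b = 0
  · subst hb
    simp at h
    exact ⟨h, rfl⟩
  · exfalso
    have hb' : (b : ℝ) ≠ 0 := by exact_mod_cast hb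
    apply Real.goldenRatio_irrational
    refine ⟨-a / b, ?_⟩
    push_cast
    rw [div_eq_iff hb']
    linarith

lemma PP_inj_zero {v : B × Bool → ℝ} (hv : IsInt v) (h : PP φ v = 0) : v = 0 := by
  funext ⟨s, i⟩
  obtain ⟨a, ha⟩ := hv (s, false)
  obtain ⟨b, hb⟩ := hv (s, true)
  have h1 := congrFun h s
  rw [PP_apply, ha, hb] at h1
  obtain ⟨rfl, rfl⟩ := int_gold h1
  cases i
  · rw [ha]; simp
  · rw [hb]; simp

lemma PP_inj {v w : B × Bool → ℝ} (hv : IsInt v) (hw : IsInt w) (h : PP φ v = PP φ w) :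
    v = w := by
  rw [← sub_eq_zero]
  apply PP_inj_zero (hv.sub hw)
  rw [map_sub, h, sub_self]

/-- the Coxeter system of the unfolding -/
noncomputable abbrev ucs (M : CoxeterMatrix B) (C : Set B) :
    CoxeterSystem (unf M C) (unf M C).Group := (unf M C).toCoxeterSystem

lemma IsRoot.isInt {C : Set B} {v : B × Bool → ℝ} (h : IsRoot (ucs M C) v) : IsInt v := by
  obtain ⟨w, s, rfl⟩ := h
  exact (isInt_al s).act _ (gram_unf_int C) w

lemma IsRoot.nonneg_of_PP {C : Set B} {v : B × Bool → ℝ} (h : IsRoot (ucs M C) v)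
    (h1 : 0 ≤ PP φ v) : 0 ≤ v := by
  rcases h.pos_or_neg (unf_ne_zero C) with h2 | h2
  · exact h2
  · exfalso
    apply h.ne_zero
    apply PP_inj_zero h.isInt
    apply le_antisymm _ h1
    intro s
    rw [PP_apply]
    have h3 := h2 (s, false)
    have h4 := h2 (s, true)
    have h5 := Real.goldenRatio_pos
    simp only [Pi.zero_apply] at h3 h4 ⊢
    nlinarith

lemma gram_unf_pair (C : Set B) (s : B) (i : Bool) : gram (unf M C) (s, !i) (s, i) = 0 := by
  classical
  rw [gram_unf, if_neg (by cases i <;> simp), if_neg]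
  simp only [M.diagonal]
  simp [lab]

lemma act_al_pair (C : Set B) (s : B) (i : Bool) :
    act (ucs M C) ((ucs M C).simple (s, !i)) (al (s, i)) = al (s, i) := by
  have h : gram (unf M C) (s, i) (s, !i) = 0 := by
    rw [(gram_compat (unf M C)).symm]; exact gram_unf_pair C s i
  rw [act_simple, sref_apply, form_al_al, h, zero_smul, sub_zero]

/-- Lifts of flagged words. -/
inductive Lift (C : Set B) : List (B × Bool) → List ((B × Bool) × Bool) → Prop
  | nil : Lift C [] []
  | drop {s : B} {b : Bool} {L : List (B × Bool)} {L' : List ((B × Bool) × Bool)} :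
      s ∉ C → Lift C L L' → Lift C ((s, b) :: L) L'
  | pair {s : B} {b : Bool} {L : List (B × Bool)} {L' : List ((B × Bool) × Bool)} (i : Bool) :
      s ∈ C → Lift C L L' → Lift C ((s, b) :: L) (((s, i), b) :: ((s, !i), b) :: L')

lemma Lift.append {C : Set B} {L K : List (B × Bool)} {L' K' : List ((B × Bool) × Bool)}
    (h : Lift C L L') (h' : Lift C K K') : Lift C (L ++ K) (L' ++ K') := by
  induction h with
  | nil => simpa using h'
  | drop hs _ ih => exact Lift.drop hs ih
  | pair i hs _ ih => exact Lift.pair i hs ih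

lemma exists_lift (C : Set B) (L : List (B × Bool)) : ∃ L', Lift C L L' := by
  classical
  induction L with
  | nil => exact ⟨[], Lift.nil⟩
  | cons x L ih =>
    obtain ⟨s, b⟩ := x
    obtain ⟨L', h⟩ := ih
    by_cases hs : s ∈ C
    · exact ⟨_, Lift.pair false hs h⟩
    · exact ⟨_, Lift.drop hs h⟩

/-- splitting a lift -/
lemma Lift.split {C : Set B} {L : List (B × Bool)} {L' : List ((B × Bool) × Bool)}
    (h : Lift C L L') : ∀ (L₁' L₂' : List ((B × Bool) × Bool)) (s : B) (j b : Bool),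
      L' = L₁' ++ ((s, j), b) :: L₂' → s ∈ C ∧ ∃ L₁ L₂ K, L = L₁ ++ (s, b) :: L₂ ∧ Lift C L₁ K ∧
        (L₁' = K ∨ L₁' = K ++ [((s, !j), b)]) := by
  induction h with
  | nil =>
    intro L₁' L₂' s j b he
    simp at he
  | @drop s0 b0 L L'' hs0 hL ih =>
    intro L₁' L₂' s j b he
    obtain ⟨h1, L₁, L₂, K, h2, h3, h4⟩ := ih L₁' L₂' s j b he
    exact ⟨h1, (s0, b0) :: L₁, L₂, K, by rw [h2]; rfl, Lift.drop hs0 h3, h4⟩
  | @pair s0 b0 L L'' i hs0 hL ih =>
    intro L₁' L₂' s j b he
    cases L₁' with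
    | nil =>
      simp only [List.nil_append, List.cons.injEq, Prod.mk.injEq] at he
      obtain ⟨⟨⟨rfl, rfl⟩, rfl⟩, -⟩ := he
      exact ⟨hs0, [], L, [], rfl, Lift.nil, Or.inl rfl⟩
    | cons x1 L₁'' =>
      simp only [List.cons_append, List.cons.injEq] at he
      obtain ⟨rfl, he⟩ := he
      cases L₁'' with
      | nil =>
        simp only [List.nil_append, List.cons.injEq, Prod.mk.injEq] at he
        obtain ⟨⟨⟨rfl, rfl⟩, rfl⟩, -⟩ := he
        exact ⟨hs0, [], L, [], rfl, Lift.nil, Or.inr (by simp)⟩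
      | cons x2 L₁''' =>
        simp only [List.cons_append, List.cons.injEq] at he
        obtain ⟨rfl, he⟩ := he
        obtain ⟨h1, L₁, L₂, K, h2, h3, h4⟩ := ih L₁''' L₂' s j b he
        refine ⟨h1, (s0, b0) :: L₁, L₂, _, by rw [h2]; rfl, Lift.pair i hs0 h3, ?_⟩
        rcases h4 with rfl | rfl
        · exact Or.inl rfl
        · exact Or.inr rfl

section

variable {C : Set B} (hC : Closed M C)
  (hlab : ∀ s t, s ∈ C → t ∈ C → s ≠ t → M s t = 2 ∨ M s t = 3 ∨ M s t = 5)

include hC hlab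

lemma PP_pair (cs : CoxeterSystem M W) {s : B} (hs : s ∈ C) (i : Bool) (x : B × Bool → ℝ) :
    PP φ (act (ucs M C) ((ucs M C).simple (s, i)) (act (ucs M C) ((ucs M C).simple (s, !i)) x)) =
      act cs (cs.simple s) (PP φ x) := by
  have h1 := form_PP_al hC hlab (th_gold M) hs x
  have h2 : form (gram (unf M C)) (al (s, !i)) (al (s, i)) = 0 := by
    rw [form_al_al]; exact gram_unf_pair C s i
  rw [act_simple, act_simple, act_simple, sref_apply _ (s, !i), sref_apply _ (s, i),
    sref_apply _ s, h1]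
  simp only [map_sub, map_smul, LinearMap.sub_apply, LinearMap.smul_apply, h2, PP_al, smul_eq_mul,
    mul_zero, sub_zero, ipr]
  cases i
  · simp only [pw_false, pw_true, Bool.not_false]; module
  · simp only [pw_false, pw_true, Bool.not_true]; module

lemma PP_lift (cs : CoxeterSystem M W) {L : List (B × Bool)} {L' : List ((B × Bool) × Bool)}
    (h : Lift C L L') (x : B × Bool → ℝ) (hx : SupC C (PP φ x)) :
    PP φ (act (ucs M C) (pr (ucs M C) L') x) = act cs (pr cs L) (PP φ x) := by
  induction h with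
  | nil => simp
  | @drop s b L L' hs hL ih =>
    rw [ih]
    cases b
    · simp
    · rw [pr_cons_true, act_mul, SupC.act_simple_notMem cs hC (hx.act cs hC _) hs]
  | @pair s b L L' i hs hL ih =>
    cases b
    · simpa using ih
    · rw [pr_cons_true, pr_cons_true, pr_cons_true, act_mul, act_mul, act_mul, ← ih,
        PP_pair hC hlab cs hs]

/-- the root attached to a letter of a lift -/
lemma PP_split (cs : CoxeterSystem M W) {L₁ : List (B × Bool)} {K L₁' : List ((B × Bool) × Bool)}
    {s : B} {j b : Bool} (hs : s ∈ C) (h : Lift C L₁ K)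
    (h' : L₁' = K ∨ L₁' = K ++ [((s, !j), b)]) :
    PP φ (act (ucs M C) (pr (ucs M C) L₁') (al (s, j))) = pw φ j • act cs (pr cs L₁) (al s) := by
  have h1 : act (ucs M C) (pr (ucs M C) L₁') (al (s, j)) =
      act (ucs M C) (pr (ucs M C) K) (al (s, j)) := by
    rcases h' with rfl | rfl
    · rfl
    · cases b
      · simp
      · rw [pr_append, pr_cons_true, pr_nil, mul_one, act_mul, act_al_pair]
  rw [h1, PP_lift hC hlab cs h, PP_al, map_smul]
  rw [PP_al]
  exact (SupC.al hs).smul _

end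

lemma red_of_roots {cs : CoxeterSystem M W} [Finite W] {L : List (B × Bool)}
    (h : ∀ L₁ s L₂, L = L₁ ++ (s, true) :: L₂ → 0 ≤ act cs (pr cs L₁) (al s)) : Red cs L := by
  induction L using List.reverseRecOn with
  | nil => simp [Red]
  | append_singleton L x ih =>
    obtain ⟨s, b⟩ := x
    have h1 : Red cs L := by
      apply ih
      intro L₁ s' L₂ he
      exact h L₁ s' (L₂ ++ [(s, b)]) (by rw [he]; simp)
    cases b
    · rwa [red_append_false]
    · exact red_append_true h1 (h L s [] rfl)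

section

variable {cs : CoxeterSystem M W} [Finite W] {C : Set B} (hC : Closed M C)
  (hlab : ∀ s t, s ∈ C → t ∈ C → s ≠ t → M s t = 2 ∨ M s t = 3 ∨ M s t = 5)

include hC hlab

lemma Lift.red [Finite (unf M C).Group] {L : List (B × Bool)} {L' : List ((B × Bool) × Bool)}
    (h : Lift C L L') (hred : Red cs L) : Red (ucs M C) L' := by
  apply red_of_roots
  rintro L₁' ⟨s, j⟩ L₂' he
  obtain ⟨hs, L₁, L₂, K, h1, h2, h3⟩ := h.split L₁' L₂' s j true he
  apply IsRoot.nonneg_of_PP ((isRoot_al _ _).image _)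
  rw [PP_split hC hlab cs hs h2 h3]
  rw [h1] at hred
  apply smul_nonneg _ hred.root_nonneg
  cases j
  · simp
  · exact Real.goldenRatio_pos.le

end

/-- compatibility of heights -/
def HRel (C : Set B) (h : B → ℤ) (h' : B × Bool → ℤ) : Prop := ∀ s ∈ C, ∀ i, h' (s, i) = h s

lemma HRel.drop {C : Set B} {h : B → ℤ} {h' : B × Bool → ℤ} (hh : HRel C h h') {s : B}
    (hs : s ∉ C) : HRel C (bump h s) h' := by
  intro t ht i
  have : t ≠ s := by rintro rfl; exact hs ht
  rw [hh t ht, bump, Function.update_of_ne this]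

lemma HRel.pair {C : Set B} {h : B → ℤ} {h' : B × Bool → ℤ} (hh : HRel C h h') {s : B}
    (hs : s ∈ C) (i : Bool) : HRel C (bump h s) (bump (bump h' (s, i)) (s, !i)) := by
  intro t ht j
  by_cases hts : t = s
  · subst hts
    have hne : ((t, i) : B × Bool) ≠ (t, !i) := by cases i <;> simp
    by_cases hj : j = i
    · subst hj
      simp only [bump, Function.update_of_ne hne, Function.update_self, hh t ht]
    · have hj' : j = !i := by cases i <;> cases j <;> simp_all
      subst hj'
      simp only [bump, Function.update_self, Function.update_of_ne (Ne.symm hne), hh t ht]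
  · have h1 : ∀ k : Bool, ((t, j) : B × Bool) ≠ (s, k) := by
      intro k h; exact hts (congrArg Prod.fst h)
    simp only [bump, Function.update_of_ne hts, Function.update_of_ne (h1 _), hh t ht]

lemma unf_adj {C : Set B} {p s : B} {j i : Bool} (hne : ((p, j) : B × Bool) ≠ (s, i))
    (hM : unf M C (p, j) (s, i) ≠ 2) : p ∈ C ∧ s ∈ C ∧ p ≠ s ∧ M p s ≠ 2 := by
  classical
  rw [unf_apply, if_neg hne] at hM
  by_cases h : p ∈ C ∧ s ∈ C
  · rw [if_pos h] at hM
    refine ⟨h.1, h.2, ?_, ?_⟩
    · rintro rfl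
      apply hM
      simp only [M.diagonal]
      simp [lab]
    · intro h2
      apply hM
      simp only [h2]
      simp [lab]
  · rw [if_neg h] at hM
    exact absurd rfl hM

lemma Src.up {C : Set B} {h : B → ℤ} {h' : B × Bool → ℤ} (hh : HRel C h h') {s : B}
    (hs : Src M h s) (i : Bool) : Src (unf M C) h' (s, i) := by
  rintro ⟨p, j⟩ hp hM
  obtain ⟨h1, h2, h3, h4⟩ := unf_adj hp hM
  rw [hh p h1, hh s h2]
  exact hs p h3 h4

lemma Snk.up {C : Set B} {h : B → ℤ} {h' : B × Bool → ℤ} (hh : HRel C h h') {s : B}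
    (hs : Snk M h s) (i : Bool) : Snk (unf M C) h' (s, i) := by
  rintro ⟨p, j⟩ hp hM
  obtain ⟨h1, h2, h3, h4⟩ := unf_adj hp hM
  rw [hh p h1, hh s h2]
  exact hs p h3 h4

/-- the second letter of a pair is still a source -/
lemma Src.up' {C : Set B} {h : B → ℤ} {h' : B × Bool → ℤ} (hh : HRel C h h') {s : B}
    (hs : Src M h s) (i : Bool) : Src (unf M C) (bump h' (s, i)) (s, !i) := by
  rintro ⟨p, j⟩ hp hM
  obtain ⟨h1, h2, h3, h4⟩ := unf_adj hp hM
  have h5 : ((p, j) : B × Bool) ≠ (s, i) := by intro h; exact h3 (congrArg Prod.fst h)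
  have h6 : ((s, !i) : B × Bool) ≠ (s, i) := by cases i <;> simp
  simp only [bump, Function.update_of_ne h5, Function.update_of_ne h6]
  rw [hh p h1, hh s h2]
  exact hs p h3 h4

lemma Lift.alt {C : Set B} {L : List (B × Bool)} {L' : List ((B × Bool) × Bool)}
    (hL : Lift C L L') : ∀ (h : B → ℤ) (h' : B × Bool → ℤ), HRel C h h' → Alt M h L →
      Alt (unf M C) h' L' ∧ HRel C (hA h L) (hA h' L') := by
  induction hL with
  | nil => intro h h' hh _; exact ⟨trivial, hh⟩
  | @drop s b L L' hs hL ih =>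
    intro h h' hh halt
    rw [alt_cons] at halt
    exact ih _ _ (hh.drop hs) halt.2
  | @pair s b L L' i hs hL ih =>
    intro h h' hh halt
    rw [alt_cons] at halt
    obtain ⟨h1, h2⟩ := ih _ _ (hh.pair hs i) halt.2
    refine ⟨?_, h2⟩
    rw [alt_cons, alt_cons]
    exact ⟨halt.1.up hh i, halt.1.up' hh i, h1⟩

end H57
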