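import Pool.Agent.H57.PFUnf
import Pool.Agent.H57.Label
import Pool.Agent.H57.AltWord
import Pool.Agent.H57.Cong

/-!
# Pattern freeness for all finite Coxeter groups
-/

set_option linter.unusedSectionVars false

open Finset CoxeterSystem

namespace H57

variable {B : Type*} [Fintype B] [DecidableEq B]
variable {W : Type*} [Group W] {M : CoxeterMatrix B}

theorem pf_finite (cs : CoxeterSystem M W) [Finite W] : PF cs := by
  intro M1 M2 M3 h z u q1 q2 u' hp hcan
  have hC := closed_cmp (M := M) u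
  rcases label_cases cs u with h1 | ⟨s, t, hst, h2⟩ | h3
  · exact Pat.key (SupC (Cmp M u)) (fun w v hv => hv.act cs hC w)
      (fun v v' _ hv' hv hne => hv.orth hC hv' hne)
      (fun η δ e hη hδ he hG g1 g2 g3 => noBad_of_big hC (fun x y hx hy hGx hGy hpos =>
        big_of_cryst hC h1 x y hx hy hGx hGy hpos) η δ e hη hδ he hG g1 g2 g3)
      _ _ _ _ _ _ _ _ _ _ rfl hp (SupC.al (mem_cmp_self u))
  · exact Pat.key (SupC (Cmp M u)) (fun w v hv => hv.act cs hC w)
      (fun v v' _ hv' hv hne => hv.orth hC hv' hne)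
      (fun η δ e hη hδ he hG g1 g2 g3 => noBad_of_rank2 hC hst h2 η δ e hη hδ he hG g1 g2 g3)
      _ _ _ _ _ _ _ _ _ _ rfl hp (SupC.al (mem_cmp_self u))
  · exact pf_of_unf hC h3 hp (mem_cmp_self u) hcan

end H57
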