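import Pool.Agent.H57.Lift

/-!
# Pattern freeness through unfolding
-/

set_option linter.unusedSectionVars false

open Finset CoxeterSystem goldenRatio

namespace H57

variable {B : Type*} [Fintype B] [DecidableEq B]
variable {W : Type*} [Group W] {M : CoxeterMatrix B}


lemma closed_univ' : Closed M Set.univ := fun _ _ _ _ _ => Set.mem_univ _

lemma supC_univ (v : B → ℝ) : SupC Set.univ v := fun p hp => absurd (Set.mem_univ p) hp

lemma c_cases {m n : ℤ} (h1 : (m : ℝ) + φ * n < 0) (h2 : -2 < (m : ℝ) + φ * n)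
    (h3 : |(m : ℝ) + ψ * n| ≤ 2) (h4 : (m : ℝ) + φ * n ≠ 1 - φ) :
    (m : ℝ) + φ * n = -1 ∨ (m : ℝ) + φ * n = -φ := by
  have s5 : (2.236 : ℝ) ≤ √5 := by apply Real.le_sqrt_of_sq_le; norm_num
  have s5' : √5 ≤ 2.237 := by
    rw [Real.sqrt_le_left (by norm_num)]; norm_num
  have hφ : φ = (1 + √5) / 2 := rfl
  have hψ : ψ = (1 - √5) / 2 := rfl
  have p1 : (1.618 : ℝ) ≤ φ := by rw [hφ]; linarith
  have p2 : φ ≤ 1.6185 := by rw [hφ]; linarith
  rw [abs_le] at h3
  have e : (n : ℝ) * √5 = (m + φ * n) - (m + ψ * n) := by rw [hφ, hψ]; ring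
  have n1 : n < 1 := by
    by_contra hc
    push Not at hc
    have : (1 : ℝ) ≤ n := by exact_mod_cast hc
    nlinarith
  have n2 : -2 < n := by
    by_contra hc
    push Not at hc
    have : (n : ℝ) ≤ -2 := by exact_mod_cast hc
    nlinarith
  have n3 : n = 0 ∨ n = -1 := by omega
  rcases n3 with rfl | rfl
  · simp only [Int.cast_zero, mul_zero, add_zero] at h1 h2 ⊢
    have m1 : m < 0 := by exact_mod_cast h1
    have m2 : -2 < m := by exact_mod_cast h2
    have m3 : m = -1 := by omega
    left; rw [m3]; norm_num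
  · push_cast at h1 h2 h3 h4 ⊢
    have m1 : m < 2 := by
      by_contra hc
      push Not at hc
      have : (2 : ℝ) ≤ m := by exact_mod_cast hc
      linarith
    have m2 : -1 < m := by
      by_contra hc
      push Not at hc
      have : (m : ℝ) ≤ -1 := by exact_mod_cast hc
      linarith
    have m3 : m = 0 ∨ m = 1 := by omega
    rcases m3 with rfl | rfl
    · right; push_cast; ring
    · exfalso; apply h4; push_cast; ring

lemma qf_int (C : Set B) {x y : B × Bool → ℝ} (hx : IsInt x) (hy : IsInt y) :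
    ∃ n : ℤ, qf M C x y = n := by
  have h1 : ∀ s : B, ∃ n : ℤ, (y (s, false) * ipr (unf M C) x (al (s, true)) +
    y (s, true) * (ipr (unf M C) x (al (s, false)) + ipr (unf M C) x (al (s, true)))) = n := by
    intro s
    obtain ⟨a, ha⟩ := hy (s, false)
    obtain ⟨b, hb⟩ := hy (s, true)
    obtain ⟨c, hc⟩ := IsInt.form (gram_unf_int (M := M) C) hx (isInt_al (s, true))
    obtain ⟨d, hd⟩ := IsInt.form (gram_unf_int (M := M) C) hx (isInt_al (s, false))
    refine ⟨a * c + b * (d + c), ?_⟩
    rw [ha, hb, ipr, hc, hd]; push_cast; ring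
  choose n hn using h1
  refine ⟨∑ s, n s, ?_⟩
  rw [qf]
  push_cast
  exact Finset.sum_congr rfl fun s _ => hn s

variable {cs : CoxeterSystem M W} [Finite W]

/-- two roots with product in `(-2, 0)` are linearly independent -/
lemma indep_of_ipr {η δ : B → ℝ} (hη : ipr M η η = 2) (hδ : ipr M δ δ = 2) {c : ℝ}
    (hc : ipr M η δ = -c) (hc0 : 0 < c) (hc2 : c < 2) {x y : ℝ} (h : x • η + y • δ = 0) :
    x = 0 ∧ y = 0 := by
  have h1 := congrArg (fun v => ipr M v η) h
  have h2 := congrArg (fun v => ipr M v δ) h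
  simp only [map_add, map_smul, LinearMap.add_apply, LinearMap.smul_apply, smul_eq_mul, hη, hδ, hc,
    ipr_comm δ η, map_zero, LinearMap.zero_apply] at h1 h2
  have h3 : x * (4 - c ^ 2) = 0 := by linear_combination 2 * h1 + c * h2
  have h4 : 4 - c ^ 2 ≠ 0 := by nlinarith
  have h5 : x = 0 := by
    rcases mul_eq_zero.mp h3 with h | h
    · exact h
    · exact absurd h h4
  subst h5
  refine ⟨rfl, ?_⟩
  linarith

theorem pf_of_unf {C : Set B} (hC : Closed M C)
    (hlab : ∀ s t, s ∈ C → t ∈ C → s ≠ t → M s t = 2 ∨ M s t = 3 ∨ M s t = 5)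
    {M1 M2 M3 : List (B × Bool)} {h : B → ℤ} {z : (B → ℝ) →ₗ[ℝ] ℝ} {u q1 q2 u' : B}
    (hp : Pat cs M1 M2 M3 h z u q1 q2 u') (hu : u ∈ C)
    (hcan : ∀ a b : ℝ, IsRoot cs (a • al u + b • act cs (pr cs M1) (al q1)) →
      ∃ c d : ℝ, 0 ≤ c ∧ 0 ≤ d ∧
        (a • al u + b • act cs (pr cs M1) (al q1) = c • al u + d • act cs (pr cs M1) (al q1) ∨
         a • al u + b • act cs (pr cs M1) (al q1) =
          -(c • al u + d • act cs (pr cs M1) (al q1)))) :
    0 < z (al u) := by
  have hfin : Finite (unf M C).Group := finite_unf cs hC hlab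
  have hA := gram_compat M
  set δ := act cs (pr cs M1) (al q1) with hδ
  have hδroot : IsRoot cs δ := (isRoot_al cs q1).image _
  have hGδ : SupC C δ := (SupC.al hu).orth hC hδroot hp.neg.ne
  have hq1 : q1 ∈ C := SupC.mem ((SupC.act_iff cs hC _).mp hGδ)
  have hroot2 := hp.root2
  rw [← hδ] at hroot2
  have hq2 : q2 ∈ C := by
    apply SupC.mem ((SupC.act_iff cs hC (pr cs M1 * pr cs M2)).mp _)
    rw [hroot2]; exact hGδ
  have hclose := hp.close
  rw [← hδ] at hclose
  have hu' : u' ∈ C := by
    apply SupC.mem ((SupC.act_iff cs hC (pr cs (patL M1 M2 M3 q1 q2))).mp _)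
    rw [hclose, rr, sub_eq_add_neg, ← neg_smul]
    exact (SupC.al hu).add (hGδ.smul _)
  have hδ0 : 0 ≤ δ := by
    have h1 := hp.red
    have e : patL M1 M2 M3 q1 q2 = (M1 ++ (q1, false) :: M2) ++ (q2, true) :: M3 := by simp [patL]
    rw [e] at h1
    have h2 := h1.root_nonneg
    rw [pr_append, pr_cons_false, hroot2] at h2
    exact h2
  obtain ⟨M1', hL1⟩ := exists_lift C M1
  obtain ⟨M2', hL2⟩ := exists_lift C M2
  obtain ⟨M3', hL3⟩ := exists_lift C M3
  -- the value of `c`
  set c := - ipr M (al u) δ with hc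
  have hipr : ipr M (al u) δ = -c := by rw [hc]; ring
  have hc0 : 0 < c := by have := hp.neg; rw [← hδ] at this; linarith
  have hc2 : c < 2 := by
    have h1 := abs_form_le cs hA (isRoot_al cs u).ipr_self hδroot.ipr_self
    rw [abs_le] at h1
    rcases lt_or_eq_of_le (show c ≤ 2 by rw [hc, ipr]; linarith [h1.1]) with h2 | h2
    · exact h2
    · exfalso
      have h3 := eq_neg_of_form cs hA (isRoot_al cs u).ipr_self hδroot.ipr_self
        (by rw [hc, ipr] at h2; linarith)
      have h4 : al u ≤ 0 := by rw [h3]; exact neg_nonpos.mpr hδ0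
      exact (isRoot_al cs u).not_both (al_nonneg u) h4
  have hsupB : ∀ w : (unf M C).Group, ∀ i, SupB C (act (ucs M C) w (al (q1, i))) := by
    intro w i
    rw [supB_iff]
    apply SupC.act _ (closed_up C)
    apply SupC.al
    exact hq1
  have hPδ : ∀ i, PP φ (act (ucs M C) (pr (ucs M C) M1') (al (q1, i))) = pw φ i • δ := by
    intro i
    rw [PP_lift hC hlab cs hL1 _ (by rw [PP_al]; exact (SupC.al hq1).smul _), PP_al, map_smul]
  have hval : c = 1 ∨ c = φ := by
    set δ0 := act (ucs M C) (pr (ucs M C) M1') (al (q1, false)) with hδ0'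
    have hδ0root : IsRoot (ucs M C) δ0 := (isRoot_al _ _).image _
    have hS := hsupB (pr (ucs M C) M1') false
    rw [← hδ0'] at hS
    obtain ⟨m, hm⟩ := IsInt.form (gram_unf_int (M := M) C) (isInt_al (u, false)) hδ0root.isInt
    obtain ⟨n, hn⟩ := qf_int (M := M) C (isInt_al (u, false)) hδ0root.isInt
    have k1 := form_PP hC hlab (th_gold M) (al (u, false)) δ0 hS
    have k2 := form_PP hC hlab (th_conj M) (al (u, false)) δ0 hS
    have k3 := form_PP hC hlab (th_gold M) δ0 δ0 hS
    have k4 := form_PP hC hlab (th_conj M) δ0 δ0 hS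
    have e1 : PP φ δ0 = δ := by rw [hδ0', hPδ]; simp
    have e2 := hδ0root.ipr_self
    have e3 := hδroot.ipr_self
    rw [e1, e2] at k3
    rw [ipr] at e3
    rw [e3] at k3
    have hq0 : qf M C δ0 δ0 = 0 := by
      have h1 : φ * qf M C δ0 δ0 = 0 := by linarith
      rcases mul_eq_zero.mp h1 with h | h
      · exact absurd h Real.goldenRatio_ne_zero
      · exact h
    rw [e2, hq0, mul_zero, add_zero] at k4
    have e4 : ∀ θ : ℝ, PP θ (al ((u, false) : B × Bool)) = al u := by
      intro θ; rw [PP_al]; simp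
    rw [e4, ipr, hm, hn] at k1 k2
    rw [e1] at k1
    have e5 : form (conjA M) (al u) (al u) = 2 := by
      rw [form_al_al, (th_conj M).compat.diag]
    have h3 := abs_form_le cs (th_conj M).compat e5 k4
    rw [k2] at h3
    rw [ipr, k1] at hipr
    have h4 : (m : ℝ) + φ * n ≠ 1 - φ := by
      intro h4
      have h5 : c = φ - 1 := by linarith
      have h6 : IsRoot cs ((c ^ 2 - 1) • al u + c • δ) := by
        have h7 := (isRoot_al cs u).reflect (hδroot.reflect (isRoot_al cs u))
        have h8 : rr M (al u) (rr M δ (al u)) = (c ^ 2 - 1) • al u + c • δ := by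
          have h9 := (isRoot_al cs u).ipr_self
          have h10 : ipr M δ (al u) = -c := by rw [ipr_comm, hc]; ring
          have h11 : ipr M (al u) δ = -c := by rw [hc]; ring
          simp only [rr, map_sub, map_smul, LinearMap.sub_apply, LinearMap.smul_apply,
            smul_eq_mul, h9, h10, h11]
          module
        rwa [h8] at h7
      obtain ⟨c', d', hc', hd', hcd⟩ := hcan _ _ h6
      have hlt : φ < 2 := Real.goldenRatio_lt_two
      have hgt : 1 < φ := Real.one_lt_goldenRatio
      have h11 : ipr M (al u) δ = -c := by rw [hc]; ring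
      rcases hcd with hcd | hcd
      · have h12 : (c ^ 2 - 1 - c') • al u + (c - d') • δ = 0 := by
          have : (c ^ 2 - 1 - c') • al u + (c - d') • δ =
            ((c ^ 2 - 1) • al u + c • δ) - (c' • al u + d' • δ) := by module
          rw [this, hcd, sub_self]
        have h13 := (indep_of_ipr (isRoot_al cs u).ipr_self hδroot.ipr_self h11 hc0 hc2 h12).1
        nlinarith
      · have h12 : (c ^ 2 - 1 + c') • al u + (c + d') • δ = 0 := by
          have : (c ^ 2 - 1 + c') • al u + (c + d') • δ =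
            ((c ^ 2 - 1) • al u + c • δ) + (c' • al u + d' • δ) := by module
          rw [this, hcd, neg_add_cancel]
        have h13 := (indep_of_ipr (isRoot_al cs u).ipr_self hδroot.ipr_self h11 hc0 hc2 h12).2
        linarith
    rcases c_cases (m := m) (n := n) (by linarith) (by linarith) h3 h4 with h5 | h5
    · left; linarith
    · right; linarith
  obtain ⟨i, hi⟩ : ∃ i, c = pw φ i := by
    rcases hval with h1 | h1
    · exact ⟨false, h1⟩
    · exact ⟨true, h1⟩
  -- the lifted pattern
  set N1 : List ((B × Bool) × Bool) := M1' ++ [((q1, !i), false)] with hN1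
  set N3 : List ((B × Bool) × Bool) := ((q2, !i), true) :: M3' with hN3
  have hprN1 : pr (ucs M C) N1 = pr (ucs M C) M1' := by rw [hN1]; simp
  have hLift : Lift C (patL M1 M2 M3 q1 q2) (patL N1 M2' N3 (q1, i) (q2, i)) := by
    have h1 := hL1.append (Lift.pair (b := false) (!i) hq1
      (hL2.append (Lift.pair (b := true) i hq2 hL3)))
    rw [Bool.not_not] at h1
    have e : patL N1 M2' N3 (q1, i) (q2, i) = M1' ++ ((q1, !i), false) :: ((q1, i), false) ::
        (M2' ++ ((q2, i), true) :: ((q2, !i), true) :: M3') := by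
      rw [patL, hN1, hN3]; simp
    rw [e]
    exact h1
  have hrel : HRel C h (fun x : B × Bool => h x.1) := fun s _ i => rfl
  obtain ⟨halt, hrel'⟩ := hLift.alt h _ hrel hp.alt
  set D := act (ucs M C) (pr (ucs M C) N1) (al (q1, i)) with hD
  have hDroot : IsRoot (ucs M C) D := (isRoot_al _ _).image _
  have hPD : PP φ D = c • δ := by rw [hD, hprN1, hPδ, hi]
  have hiprD : ipr (unf M C) (al (u, false)) D = -1 := by
    have hS : SupB C D := hsupB _ i
    obtain ⟨m, hm⟩ := IsInt.form (gram_unf_int (M := M) C) (isInt_al (u, false)) hDroot.isInt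
    obtain ⟨n, hn⟩ := qf_int (M := M) C (isInt_al (u, false)) hDroot.isInt
    have k1 := form_PP hC hlab (th_gold M) (al (u, false)) D hS
    rw [PP_al, pw_false, one_smul, hPD, map_smul, smul_eq_mul, ipr, hm, hn] at k1
    rw [ipr] at hipr
    rw [hipr] at k1
    rw [ipr, hm]
    rcases hval with h1 | h1
    · rw [h1] at k1
      have h2 : ((m + 1 : ℤ) : ℝ) + φ * (n : ℤ) = 0 := by push_cast; linarith
      have := (int_gold h2).1
      have : m = -1 := by omega
      rw [this]; norm_num
    · rw [h1] at k1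
      have hsq := Real.goldenRatio_sq
      have h2 : ((m + 1 : ℤ) : ℝ) + φ * ((n + 1 : ℤ) : ℝ) = 0 := by
        push_cast; linear_combination -k1 - hsq
      have := (int_gold h2).1
      have : m = -1 := by omega
      rw [this]; norm_num
  have hPat : Pat (ucs M C) N1 M2' N3 (fun x : B × Bool => h x.1) (z ∘ₗ PP φ) (u, false) (q1, i)
      (q2, i) (u', false) := by
    refine ⟨hLift.red hC hlab hp.red, halt, hp.snk.up hrel false, hp.src.up hrel' false, ?_, ?_, ?_,
      ?_, ?_, ?_⟩
    · -- root2
      apply PP_inj ((isInt_al _).act _ (gram_unf_int C) _) hDroot.isInt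
      rw [hPD, hprN1, ← pr_append,
        PP_lift hC hlab cs (hL1.append hL2) _ (by rw [PP_al]; exact (SupC.al hq2).smul _), PP_al,
        map_smul, pr_append, hroot2, hi]
    · rw [← hD, hiprD]; norm_num
    · -- close
      rw [← hD]
      have h1 : rr (unf M C) D (al (u, false)) = al (u, false) + D := by
        rw [rr, hiprD]; module
      rw [h1]
      apply PP_inj ((isInt_al _).act _ (gram_unf_int C) _) ((isInt_al _).add hDroot.isInt)
      rw [PP_lift hC hlab cs hLift _ (by rw [PP_al]; exact (SupC.al hu').smul _), map_add, hPD,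
        PP_al, PP_al, pw_false, one_smul, one_smul, hclose, rr, hipr]
      module
    · rw [← hD, LinearMap.comp_apply, hPD, map_smul, hp.z0, smul_zero]
    · rintro L₁' ⟨s, j⟩ L₂' he
      obtain ⟨hs, L₁, L₂, K, h1, h2, h3⟩ := hLift.split L₁' L₂' s j false he
      rw [LinearMap.comp_apply, PP_split hC hlab cs hs h2 h3, map_smul, smul_eq_mul]
      apply mul_nonneg _ (hp.zskip _ _ _ h1)
      cases j
      · simp
      · exact Real.goldenRatio_pos.le
    · rintro L₁' ⟨s, j⟩ L₂' he
      obtain ⟨hs, L₁, L₂, K, h1, h2, h3⟩ := hL2.split L₁' L₂' s j false he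
      rw [hprN1, ← pr_append, LinearMap.comp_apply, PP_split hC hlab cs hs (hL1.append h2)
        (L₁' := M1' ++ L₁') (b := false) (by
          rcases h3 with rfl | rfl
          · exact Or.inl rfl
          · exact Or.inr (by simp)), map_smul, smul_eq_mul]
      apply mul_pos
      · cases j
        · simp
        · exact Real.goldenRatio_pos
      · rw [pr_append]
        exact hp.zmid _ _ _ h1
  have hbig : ∀ x y, IsRoot (ucs M C) x → IsRoot (ucs M C) y → SupC Set.univ x → SupC Set.univ y →
      0 < ipr (unf M C) x y → 1 ≤ ipr (unf M C) x y := by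
    intro x y hx hy _ _ hpos
    obtain ⟨m, hm⟩ := IsInt.form (gram_unf_int (M := M) C) hx.isInt hy.isInt
    rw [ipr, hm] at hpos ⊢
    have : 0 < m := by exact_mod_cast hpos
    exact_mod_cast this
  have hkey := Pat.key (cs := ucs M C) (fun _ => True) (fun _ _ _ => trivial)
    (fun _ _ _ _ _ _ => trivial)
    (fun η δ e hη hδ he _ h1 h2 h3 => noBad_of_big closed_univ' hbig η δ e hη hδ he
      (supC_univ _) h1 h2 h3) _ _ _ _ _ _ _ _ _ _ rfl hPat trivial
  rw [LinearMap.comp_apply, PP_al, pw_false, one_smul] at hkey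
  exact hkey

end H57
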