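import Pool.Agent.H57.Geom

/-!
# Positivity: `ℓ(ws) > ℓ(w)` iff `w α_s > 0`
-/

set_option linter.unusedSectionVars false

open Finset CoxeterSystem

namespace H57

variable {B : Type*} [Fintype B] [DecidableEq B]

/-- A Gram matrix compatible with the Coxeter matrix `M`. -/
structure Compat (M : CoxeterMatrix B) (A : B → B → ℝ) : Prop where
  symm : ∀ s t, A s t = A t s
  diag : ∀ s, A s s = 2
  rel : ∀ s t, s ≠ t → M s t ≠ 0 →
    ∃ (θ : ℝ) (k : ℤ), A s t = -2 * Real.cos θ ∧ Real.sin θ ≠ 0 ∧ (M s t : ℝ) * θ = k * Real.pi

/-- The standard Gram matrix, normalised so that roots have square length `2`. -/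
noncomputable def gram (M : CoxeterMatrix B) (s t : B) : ℝ :=
  -2 * Real.cos (Real.pi / M s t)

lemma two_le_M (M : CoxeterMatrix B) {s t : B} (h : s ≠ t) (h0 : M s t ≠ 0) : 2 ≤ M s t := by
  have := M.off_diagonal s t h
  omega

lemma sin_pi_div_pos {m : ℕ} (hm : 2 ≤ m) : 0 < Real.sin (Real.pi / m) := by
  have hm' : (2 : ℝ) ≤ m := by exact_mod_cast hm
  apply Real.sin_pos_of_pos_of_lt_pi
  · positivity
  · rw [div_lt_iff₀ (by linarith)]
    nlinarith [Real.pi_pos]

lemma gram_compat (M : CoxeterMatrix B) : Compat M (gram M) where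
  symm s t := by rw [gram, gram, M.symmetric]
  diag s := by simp [gram]
  rel s t hst h0 := by
    have h2 := two_le_M M hst h0
    refine ⟨Real.pi / M s t, 1, rfl, (sin_pi_div_pos h2).ne', ?_⟩
    have : (M s t : ℝ) ≠ 0 := by exact_mod_cast h0
    field_simp
    simp

variable {W : Type*} [Group W] {M : CoxeterMatrix B}

lemma compat_liftable {A : B → B → ℝ} (hA : Compat M A) : M.IsLiftable (sref A) := by
  intro s t
  by_cases hst : s = t
  · subst hst
    rw [M.diagonal, pow_one]
    refine LinearMap.ext fun v => ?_
    rw [Module.End.mul_apply, sref_sref hA.diag, Module.End.one_apply]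
  · by_cases h0 : M s t = 0
    · rw [h0, pow_zero]
    · obtain ⟨θ, k, h1, h2, h3⟩ := hA.rel s t hst h0
      exact sref_mul_pow hA.symm hA.diag h1 h2 h3

/-- The reflection representation with Gram matrix `A`. -/
noncomputable def rep (cs : CoxeterSystem M W) {A : B → B → ℝ} (hA : Compat M A) :
    W →* Module.End ℝ (B → ℝ) :=
  cs.lift ⟨sref A, compat_liftable hA⟩

lemma rep_simple (cs : CoxeterSystem M W) {A : B → B → ℝ} (hA : Compat M A) (s : B) :
    rep cs hA (cs.simple s) = sref A s := by
  rw [rep, cs.lift_apply_simple]

lemma rep_form (cs : CoxeterSystem M W) {A : B → B → ℝ} (hA : Compat M A) (w : W) (x y : B → ℝ) :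
    form A (rep cs hA w x) (rep cs hA w y) = form A x y := by
  induction w using cs.simple_induction_left generalizing x y with
  | one => simp
  | mul_simple_left w s ih =>
    rw [map_mul, Module.End.mul_apply, Module.End.mul_apply, rep_simple,
      form_sref_sref hA.symm hA.diag, ih]

/-- The geometric representation. -/
noncomputable def act (cs : CoxeterSystem M W) : W →* Module.End ℝ (B → ℝ) :=
  rep cs (gram_compat M)

lemma act_simple (cs : CoxeterSystem M W) (s : B) : act cs (cs.simple s) = sref (gram M) s :=
  rep_simple cs _ s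

lemma act_form (cs : CoxeterSystem M W) (w : W) (x y : B → ℝ) :
    form (gram M) (act cs w x) (act cs w y) = form (gram M) x y :=
  rep_form cs _ w x y

lemma act_mul (cs : CoxeterSystem M W) (w w' : W) (x : B → ℝ) :
    act cs (w * w') x = act cs w (act cs w' x) := by
  rw [map_mul, Module.End.mul_apply]

@[simp] lemma act_one (cs : CoxeterSystem M W) (x : B → ℝ) : act cs 1 x = x := by
  simp

@[simp] lemma act_inv_act (cs : CoxeterSystem M W) (w : W) (x : B → ℝ) :
    act cs w⁻¹ (act cs w x) = x := by
  rw [← act_mul]; simp

@[simp] lemma act_act_inv (cs : CoxeterSystem M W) (w : W) (x : B → ℝ) :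
    act cs w (act cs w⁻¹ x) = x := by
  rw [← act_mul]; simp

lemma act_injective (cs : CoxeterSystem M W) (w : W) : Function.Injective (act cs w) := by
  intro x y h
  have := congrArg (act cs w⁻¹) h
  simpa using this

lemma act_simple_al (cs : CoxeterSystem M W) (s : B) : act cs (cs.simple s) (al s) = - al s := by
  rw [act_simple, sref_al_self (gram_compat M).diag]

/-- the alternating product acts on `α_s` with nonnegative coefficients. -/
lemma alt_act (cs : CoxeterSystem M W) {s t : B} (hst : s ≠ t) (h0 : M s t ≠ 0) {k : ℕ}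
    (hk : k < M s t) : ∃ c₁ c₂ : ℝ, 0 ≤ c₁ ∧ 0 ≤ c₂ ∧
      act cs (cs.wordProd (alternatingWord s t k)) (al s) = c₁ • al s + c₂ • al t := by
  have hA := gram_compat M
  have h2 := two_le_M M hst h0
  have hmpos : (0 : ℝ) < M s t := by exact_mod_cast (by omega : 0 < M s t)
  set θ : ℝ := Real.pi / M s t with hθ
  have hsin : 0 < Real.sin θ := sin_pi_div_pos h2
  have hg : gram M s t = -2 * Real.cos θ := rfl
  have hθ0 : 0 ≤ θ := by positivity
  have hmθ : (M s t : ℝ) * θ = Real.pi := by rw [hθ]; field_simp
  have hsinj : ∀ j : ℕ, j ≤ M s t → 0 ≤ Real.sin (j * θ) := by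
    intro j hj
    apply Real.sin_nonneg_of_nonneg_of_le_pi
    · positivity
    · rw [← hmθ]
      have : (j : ℝ) ≤ M s t := by exact_mod_cast hj
      exact mul_le_mul_of_nonneg_right this hθ0
  have hal : al s = (Real.sin θ)⁻¹ • uvec s t θ 0 := by
    rw [uvec_zero, smul_smul, inv_mul_cancel₀ hsin.ne', one_smul]
  have hpow : ∀ i : ℕ, act cs ((cs.simple s * cs.simple t) ^ i) (al s) =
      (Real.sin θ)⁻¹ • uvec s t θ (2 * i * θ) := by
    intro i
    rw [map_pow, map_mul, act_simple, act_simple]
    conv_lhs => rw [hal]
    rw [map_smul, sref_pow_uvec hA.symm hA.diag hg]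
    simp
  rw [cs.prod_alternatingWord_eq_mul_pow]
  by_cases hev : Even k
  · obtain ⟨i, hi⟩ := hev
    have hki : k / 2 = i := by omega
    rw [if_pos ⟨i, hi⟩, one_mul, hki, hpow, uvec]
    refine ⟨(Real.sin θ)⁻¹ * Real.sin (2 * i * θ + θ), (Real.sin θ)⁻¹ * Real.sin (2 * i * θ),
      ?_, ?_, ?_⟩
    · have := hsinj (2 * i + 1) (by omega)
      push_cast at this
      have e : (2 * (i : ℝ) + 1) * θ = 2 * i * θ + θ := by ring
      rw [e] at this
      positivity
    · have := hsinj (2 * i) (by omega)
      push_cast at this
      positivity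
    · rw [smul_add, smul_smul, smul_smul]
  · have hki : k = 2 * (k / 2) + 1 := by
      rcases Nat.even_or_odd k with h | h
      · exact absurd h hev
      · obtain ⟨i, hi⟩ := h; omega
    rw [if_neg hev, act_mul, hpow, act_simple, map_smul, sref_t_uvec hA.diag hg]
    set i := k / 2 with hi
    refine ⟨(Real.sin θ)⁻¹ * Real.sin (2 * i * θ + θ),
      (Real.sin θ)⁻¹ * Real.sin (2 * i * θ + 2 * θ), ?_, ?_, ?_⟩
    · have := hsinj (2 * i + 1) (by omega)
      push_cast at this
      have e : (2 * (i : ℝ) + 1) * θ = 2 * i * θ + θ := by ring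
      rw [e] at this
      positivity
    · have := hsinj (2 * i + 2) (by omega)
      push_cast at this
      have e : (2 * (i : ℝ) + 2) * θ = 2 * i * θ + 2 * θ := by ring
      rw [e] at this
      positivity
    · rw [smul_add, smul_smul, smul_smul]

/-- Positivity theorem (one direction). -/
theorem act_al_nonneg (cs : CoxeterSystem M W) (h0 : ∀ s t, M s t ≠ 0) (w : W) (s : B)
    (h : cs.length w < cs.length (w * cs.simple s)) : 0 ≤ act cs w (al s) := by
  induction hn : cs.length w using Nat.strong_induction_on generalizing w s with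
  | _ n ih =>
  by_cases hw : w = 1
  · subst hw
    rw [act_one]
    intro p
    by_cases hp : p = s
    · subst hp; simp
    · simp [al_ne hp]
  obtain ⟨t, ht⟩ := cs.exists_rightDescent_of_ne_one hw
  have hst : s ≠ t := by
    rintro rfl
    unfold CoxeterSystem.IsRightDescent at ht
    omega
  -- peeled decompositions
  let P : ℕ → Prop := fun k =>
    ∃ v, w = v * cs.wordProd (alternatingWord s t k) ∧ cs.length w = cs.length v + k
  have hPle : ∀ k, P k → k ≤ cs.length w := by
    rintro k ⟨v, _, hv⟩; omega
  have hP1 : P 1 := by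
    refine ⟨w * cs.simple t, ?_, ?_⟩
    · simp [alternatingWord]
    · rw [cs.isRightDescent_iff] at ht
      omega
  have hPdown : ∀ k, P (k + 1) → P k := by
    rintro k ⟨v, hv1, hv2⟩
    rw [alternatingWord_succ', cs.wordProd_cons] at hv1
    refine ⟨v * cs.simple (if Even k then t else s), ?_, ?_⟩
    · rw [mul_assoc]; exact hv1
    · have h1 := cs.length_mul_le (v * cs.simple (if Even k then t else s))
        (cs.wordProd (alternatingWord s t k))
      rw [mul_assoc, ← hv1] at h1
      have h2 := cs.length_wordProd_le (alternatingWord s t k)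
      rw [length_alternatingWord] at h2
      have h3 := cs.length_mul_le v (cs.simple (if Even k then t else s))
      rw [cs.length_simple] at h3
      omega
  have hPm : ¬ P (M s t) := by
    rintro ⟨v, hv1, hv2⟩
    have hb : cs.wordProd (alternatingWord s t (M s t)) =
        cs.wordProd (alternatingWord t s (M s t)) := by
      have := cs.wordProd_braidWord_eq s t
      rw [braidWord, braidWord, M.symmetric t s] at this
      exact this
    rw [hb] at hv1
    obtain ⟨m', hm'⟩ : ∃ m', M s t = m' + 1 := ⟨M s t - 1, by have := h0 s t; omega⟩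
    rw [hm', alternatingWord_succ, cs.wordProd_concat] at hv1
    have h1 : w * cs.simple s = v * cs.wordProd (alternatingWord s t m') := by
      rw [hv1, mul_assoc, mul_assoc, cs.simple_mul_simple_self, mul_one]
    have h2 := cs.length_mul_le v (cs.wordProd (alternatingWord s t m'))
    have h3 := cs.length_wordProd_le (alternatingWord s t m')
    rw [length_alternatingWord] at h3
    rw [← h1] at h2
    omega
  have hPdown' : ∀ j k, j ≤ k → P k → P j := by
    intro j k hjk
    induction k, hjk using Nat.le_induction with
    | base => exact id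
    | succ k _ ih => exact fun h => ih (hPdown k h)
  have hPlt : ∀ k, P k → k < M s t := by
    intro k hk
    by_contra hc
    exact hPm (hPdown' _ _ (not_lt.mp hc) hk)
  -- a maximal one
  obtain ⟨k, hk1, hPk, hPk1⟩ : ∃ k, 1 ≤ k ∧ P k ∧ ¬ P (k + 1) := by
    by_contra hc
    push Not at hc
    have : ∀ k, P (k + 1) := by
      intro k
      induction k with
      | zero => exact hP1
      | succ k ih => exact hc (k + 1) (by omega) ih
    exact hPm (by
      obtain ⟨m', hm'⟩ : ∃ m', M s t = m' + 1 := ⟨M s t - 1, by have := h0 s t; omega⟩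
      rw [hm']; exact this m')
  obtain ⟨v, hv1, hv2⟩ := hPk
  have hkm := hPlt k ⟨v, hv1, hv2⟩
  -- both letters go up at v
  have hup : ∀ a, a = s ∨ a = t → cs.length v < cs.length (v * cs.simple a) := by
    have hA : cs.length v < cs.length (v * cs.simple (if Even k then t else s)) := by
      rcases cs.length_mul_simple v (if Even k then t else s) with h | h
      · omega
      · exfalso
        apply hPk1
        refine ⟨v * cs.simple (if Even k then t else s), ?_, ?_⟩
        · rw [alternatingWord_succ', cs.wordProd_cons, ← mul_assoc, mul_assoc v,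
            cs.simple_mul_simple_self, mul_one]
          exact hv1
        · omega
    have hB : cs.length v < cs.length (v * cs.simple (if Even k then s else t)) := by
      rcases cs.length_mul_simple v (if Even k then s else t) with h | h
      · omega
      · exfalso
        obtain ⟨j, rfl⟩ : ∃ j, k = j + 1 := ⟨k - 1, by omega⟩
        have e : (if Even (j + 1) then s else t) = (if Even j then t else s) := by
          by_cases hj : Even j
          · rw [if_pos hj, if_neg (by rw [Nat.even_add_one]; simpa using hj)]
          · rw [if_neg hj, if_pos (by rw [Nat.even_add_one]; exact hj)]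
        rw [e] at h
        rw [alternatingWord_succ', cs.wordProd_cons, ← mul_assoc] at hv1
        have h1 := cs.length_mul_le (v * cs.simple (if Even j then t else s))
          (cs.wordProd (alternatingWord s t j))
        rw [← hv1] at h1
        have h2 := cs.length_wordProd_le (alternatingWord s t j)
        rw [length_alternatingWord] at h2
        omega
    intro a ha
    by_cases hev : Even k
    · rw [if_pos hev] at hA hB
      rcases ha with rfl | rfl
      · exact hB
      · exact hA
    · rw [if_neg hev] at hA hB
      rcases ha with rfl | rfl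
      · exact hA
      · exact hB
  have hs' := ih (cs.length v) (by omega) v s (hup s (Or.inl rfl)) rfl
  have ht' := ih (cs.length v) (by omega) v t (hup t (Or.inr rfl)) rfl
  obtain ⟨c₁, c₂, hc₁, hc₂, hc⟩ := alt_act cs hst (h0 s t) hkm
  rw [hv1, act_mul, hc, map_add, map_smul, map_smul]
  exact add_nonneg (smul_nonneg hc₁ hs') (smul_nonneg hc₂ ht')

theorem act_al_nonpos (cs : CoxeterSystem M W) (h0 : ∀ s t, M s t ≠ 0) (w : W) (s : B)
    (h : cs.length (w * cs.simple s) < cs.length w) : act cs w (al s) ≤ 0 := by
  have h1 : cs.length (w * cs.simple s) < cs.length (w * cs.simple s * cs.simple s) := by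
    rw [cs.simple_mul_simple_cancel_right]; exact h
  have h2 := act_al_nonneg cs h0 _ _ h1
  rw [act_mul, act_simple_al, map_neg] at h2
  exact neg_nonneg.mp h2

end H57
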