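import Pool.Agent.H57.Roots

/-!
# Positive definiteness of the forms of a finite Coxeter group
-/

set_option linter.unusedSectionVars false

open Finset CoxeterSystem

namespace H57

variable {B : Type*} [Fintype B] [DecidableEq B]
variable {W : Type*} [Group W] {M : CoxeterMatrix B}

/-- the averaged inner product -/
noncomputable def avg (cs : CoxeterSystem M W) {A : B → B → ℝ} (hA : Compat M A) [Fintype W] :
    LinearMap.BilinForm ℝ (B → ℝ) :=
  ∑ w : W, (form (fun s t : B => if s = t then (1 : ℝ) else 0)).compl₁₂ (rep cs hA w) (rep cs hA w)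

lemma form_id (x y : B → ℝ) :
    form (fun s t : B => if s = t then (1 : ℝ) else 0) x y = ∑ s, x s * y s := by
  rw [form_apply]
  refine Finset.sum_congr rfl fun s _ => ?_
  rw [Finset.sum_eq_single s]
  · simp
  · intro b _ hb; simp [Ne.symm hb]
  · simp

lemma avg_apply (cs : CoxeterSystem M W) {A : B → B → ℝ} (hA : Compat M A) [Fintype W]
    (x y : B → ℝ) : avg cs hA x y = ∑ w : W, ∑ s, rep cs hA w x s * rep cs hA w y s := by
  simp only [avg, LinearMap.sum_apply, LinearMap.compl₁₂_apply, form_id]

lemma avg_inv (cs : CoxeterSystem M W) {A : B → B → ℝ} (hA : Compat M A) [Fintype W] (v : W)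
    (x y : B → ℝ) : avg cs hA (rep cs hA v x) (rep cs hA v y) = avg cs hA x y := by
  rw [avg_apply, avg_apply]
  refine Fintype.sum_equiv (Equiv.mulRight v) _ _ fun w => ?_
  simp only [Equiv.coe_mulRight, map_mul, Module.End.mul_apply]

lemma avg_comm (cs : CoxeterSystem M W) {A : B → B → ℝ} (hA : Compat M A) [Fintype W]
    (x y : B → ℝ) : avg cs hA x y = avg cs hA y x := by
  rw [avg_apply, avg_apply]
  refine Finset.sum_congr rfl fun w _ => Finset.sum_congr rfl fun s _ => mul_comm _ _

lemma avg_self_ge (cs : CoxeterSystem M W) {A : B → B → ℝ} (hA : Compat M A) [Fintype W]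
    (x : B → ℝ) : ∑ s, x s ^ 2 ≤ avg cs hA x x := by
  rw [avg_apply]
  have h := Finset.single_le_sum (f := fun w : W => ∑ s, rep cs hA w x s * rep cs hA w x s)
    (fun w _ => Finset.sum_nonneg fun s _ => mul_self_nonneg _) (Finset.mem_univ (1 : W))
  refine le_trans (le_of_eq ?_) h
  simp only [map_one, Module.End.one_apply, sq]

/-- All compatible forms of a finite Coxeter group are positive definite. -/
theorem form_coercive (cs : CoxeterSystem M W) [Finite W] {A : B → B → ℝ} (hA : Compat M A) :
    ∃ c : ℝ, 0 < c ∧ ∀ v : B → ℝ, c * ∑ s, v s ^ 2 ≤ form A v v := by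
  classical
  have := Fintype.ofFinite W
  set b : B → ℝ := fun s => avg cs hA (al s) (al s) with hb
  have hb0 : ∀ s, 0 < b s := by
    intro s
    have h1 := avg_self_ge cs hA (al s)
    have h2 : (1 : ℝ) ≤ ∑ p, al s p ^ 2 := by
      have := Finset.single_le_sum (f := fun p => al s p ^ 2) (fun p _ => sq_nonneg _)
        (Finset.mem_univ s)
      simpa using this
    simp only [hb]
    linarith
  have key : ∀ x s, 2 * avg cs hA x (al s) = form A x (al s) * b s := by
    intro x s
    have h1 := avg_inv cs hA (cs.simple s) x (al s)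
    rw [rep_simple, sref_al_self hA.diag, sref_apply] at h1
    simp only [map_sub, map_neg, map_smul, LinearMap.sub_apply, LinearMap.smul_apply,
      smul_eq_mul] at h1
    simp only [hb]
    linarith
  have hsym : ∀ s t, A s t ≠ 0 → b s = b t := by
    intro s t h
    have h1 := key (al s) t
    have h2 := key (al t) s
    rw [form_al_al] at h1 h2
    rw [avg_comm, h2, hA.symm t s] at h1
    exact mul_left_cancel₀ h h1
  set K : ℝ := ∑ s, b s + 1 with hK
  have hK0 : 0 < K := by
    have : 0 ≤ ∑ s, b s := Finset.sum_nonneg fun s _ => (hb0 s).le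
    linarith
  have hbK : ∀ s, b s ≤ K := by
    intro s
    have := Finset.single_le_sum (f := b) (fun p _ => (hb0 p).le) (Finset.mem_univ s)
    linarith
  refine ⟨2 / K, by positivity, ?_⟩
  intro v
  set v' : B → ℝ := fun s => v s / √(b s) with hv'
  have h1 : avg cs hA v' v' = form A v v / 2 := by
    have e1 : avg cs hA v' v' = ∑ s, ∑ t, v' s * v' t * avg cs hA (al s) (al t) := by
      conv_lhs => rw [eq_sum_al v']
      simp only [map_sum, map_smul, LinearMap.sum_apply, LinearMap.smul_apply, smul_eq_mul,
        Finset.mul_sum]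
      rw [Finset.sum_comm]
      refine Finset.sum_congr rfl fun s _ => Finset.sum_congr rfl fun t _ => ?_
      ring
    rw [e1, form_apply, Finset.sum_div]
    refine Finset.sum_congr rfl fun s _ => ?_
    rw [Finset.sum_div]
    refine Finset.sum_congr rfl fun t _ => ?_
    have e2 := key (al s) t
    rw [form_al_al] at e2
    by_cases h : A s t = 0
    · rw [h] at e2 ⊢
      have : avg cs hA (al s) (al t) = 0 := by linarith
      rw [this]; ring
    · have e3 := hsym s t h
      have e4 : avg cs hA (al s) (al t) = A s t * b t / 2 := by linarith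
      have e5 : √(b t) * √(b t) = b t := Real.mul_self_sqrt (hb0 t).le
      have e6 : 0 < √(b t) := Real.sqrt_pos.mpr (hb0 t)
      rw [e4, hv']
      simp only [e3]
      have e7 : v s / √(b t) * (v t / √(b t)) = v s * v t / b t := by
        rw [div_mul_div_comm, e5]
      rw [e7]
      have := hb0 t
      field_simp
  have h2 := avg_self_ge cs hA v'
  have h3 : (1 / K) * ∑ s, v s ^ 2 ≤ ∑ s, v' s ^ 2 := by
    rw [Finset.mul_sum]
    refine Finset.sum_le_sum fun s _ => ?_
    simp only [hv', div_pow, Real.sq_sqrt (hb0 s).le]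
    rw [one_div, div_eq_inv_mul]
    apply mul_le_mul_of_nonneg_right _ (sq_nonneg _)
    exact inv_anti₀ (hb0 s) (hbK s)
  have h4 : 2 / K * ∑ s, v s ^ 2 = 2 * ((1 / K) * ∑ s, v s ^ 2) := by ring
  rw [h4]
  linarith

theorem form_pos (cs : CoxeterSystem M W) [Finite W] {A : B → B → ℝ} (hA : Compat M A)
    {v : B → ℝ} (hv : v ≠ 0) : 0 < form A v v := by
  obtain ⟨c, hc, h⟩ := form_coercive cs hA
  have h1 := h v
  have h2 : 0 < ∑ s, v s ^ 2 := by
    obtain ⟨p, hp⟩ := Function.ne_iff.mp hv
    exact Finset.sum_pos' (fun _ _ => sq_nonneg _) ⟨p, Finset.mem_univ _, by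
      have : v p ≠ 0 := hp
      positivity⟩
  have := mul_pos hc h2
  linarith

theorem form_nonneg (cs : CoxeterSystem M W) [Finite W] {A : B → B → ℝ} (hA : Compat M A)
    (v : B → ℝ) : 0 ≤ form A v v := by
  by_cases hv : v = 0
  · subst hv; simp
  · exact (form_pos cs hA hv).le

/-- Cauchy–Schwarz for vectors of square length two -/
lemma abs_form_le (cs : CoxeterSystem M W) [Finite W] {A : B → B → ℝ} (hA : Compat M A)
    {v w : B → ℝ} (hv : form A v v = 2) (hw : form A w w = 2) : |form A v w| ≤ 2 := by
  have h1 := form_nonneg cs hA (v + w)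
  have h2 := form_nonneg cs hA (v - w)
  have h3 := form_comm hA.symm v w
  simp only [map_add, map_sub, LinearMap.add_apply, LinearMap.sub_apply, hv, hw] at h1 h2
  rw [abs_le]
  constructor <;> linarith

lemma eq_neg_of_form (cs : CoxeterSystem M W) [Finite W] {A : B → B → ℝ} (hA : Compat M A)
    {v w : B → ℝ} (hv : form A v v = 2) (hw : form A w w = 2) (h : form A v w = -2) : v = -w := by
  by_contra hne
  have h1 : v + w ≠ 0 := fun h2 => hne (eq_neg_of_add_eq_zero_left h2)
  have h2 := form_pos cs hA h1
  have h3 := form_comm hA.symm v w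
  simp only [map_add, LinearMap.add_apply, hv, hw] at h2
  linarith

end H57
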