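import Pool.Agent.H57.Facet

/-!
# Rank two analysis
-/

set_option linter.unusedSectionVars false

open Finset CoxeterSystem

namespace H57

variable {B : Type*} [Fintype B] [DecidableEq B]
variable {W : Type*} [Group W] {M : CoxeterMatrix B}

/-- supported on `{s, t}` -/
def Supp2 (s t : B) (v : B → ℝ) : Prop := ∀ p, p ≠ s → p ≠ t → v p = 0

lemma Supp2.eq {s t : B} (hst : s ≠ t) {v : B → ℝ} (h : Supp2 s t v) :
    v = v s • al s + v t • al t := by
  funext p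
  by_cases h1 : p = s
  · subst h1; simp [al_ne hst]
  · by_cases h2 : p = t
    · subst h2; simp [al_ne (Ne.symm hst)]
    · simp [al_ne h1, al_ne h2, h p h1 h2]

lemma Supp2.neg {s t : B} {v : B → ℝ} (h : Supp2 s t v) : Supp2 s t (-v) := by
  intro p h1 h2; simp [h p h1 h2]

lemma Supp2.add {s t : B} {v w : B → ℝ} (h : Supp2 s t v) (h' : Supp2 s t w) :
    Supp2 s t (v + w) := by
  intro p h1 h2; simp [h p h1 h2, h' p h1 h2]

lemma Supp2.smul {s t : B} {v : B → ℝ} (c : ℝ) (h : Supp2 s t v) : Supp2 s t (c • v) := by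
  intro p h1 h2; simp [h p h1 h2]

lemma Supp2.al_left (s t : B) : Supp2 s t (al s) := by
  intro p h1 _; exact al_ne h1

lemma Supp2.al_right (s t : B) : Supp2 s t (al t) := by
  intro p _ h2; exact al_ne h2

variable (cs : CoxeterSystem M W)

/-- the parabolic subgroup generated by two simple reflections -/
def par (s t : B) : Subgroup W := Subgroup.closure {cs.simple s, cs.simple t}

variable {cs}

lemma par_act {s t : B} {d : W} (hd : d ∈ par cs s t) (v : B → ℝ) {p : B} (h1 : p ≠ s)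
    (h2 : p ≠ t) : act cs d v p = v p := by
  induction hd using Subgroup.closure_induction generalizing v with
  | mem x hx =>
    simp only [Set.mem_insert_iff, Set.mem_singleton_iff] at hx
    rcases hx with rfl | rfl
    · rw [act_simple, sref_apply_of_ne _ h1]
    · rw [act_simple, sref_apply_of_ne _ h2]
  | one => simp
  | mul x y _ _ hx hy => rw [act_mul, hx, hy]
  | inv x _ hx =>
    have := hx (act cs x⁻¹ v)
    rw [act_act_inv] at this
    exact this.symm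

lemma simple_mem_par_left (s t : B) : cs.simple s ∈ par cs s t :=
  Subgroup.subset_closure (by simp)

lemma simple_mem_par_right (s t : B) : cs.simple t ∈ par cs s t :=
  Subgroup.subset_closure (by simp)

section
variable [Finite W]

lemma exists_min_coset (s t : B) (u : W) : ∃ d ∈ par cs s t,
    0 ≤ act cs (u * d) (al s) ∧ 0 ≤ act cs (u * d) (al t) := by
  classical
  have h0 := M_ne_zero cs
  have hex : ∃ n, ∃ d ∈ par cs s t, cs.length (u * d) = n := ⟨_, 1, one_mem _, rfl⟩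
  obtain ⟨d, hd, hn⟩ := Nat.find_spec hex
  refine ⟨d, hd, ?_, ?_⟩
  · rw [act_al_nonneg_iff cs h0]
    by_contra hc
    have h1 := cs.length_mul_simple_ne (u * d) s
    refine Nat.find_min hex (m := cs.length (u * d * cs.simple s)) (by omega)
      ⟨d * cs.simple s, mul_mem hd (simple_mem_par_left s t), by rw [mul_assoc]⟩
  · rw [act_al_nonneg_iff cs h0]
    by_contra hc
    have h1 := cs.length_mul_simple_ne (u * d) t
    refine Nat.find_min hex (m := cs.length (u * d * cs.simple t)) (by omega)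
      ⟨d * cs.simple t, mul_mem hd (simple_mem_par_right s t), by rw [mul_assoc]⟩

lemma exists_max_coset (s t : B) (u : W) : ∃ d ∈ par cs s t,
    act cs (u * d) (al s) ≤ 0 ∧ act cs (u * d) (al t) ≤ 0 := by
  classical
  have h0 := M_ne_zero cs
  have hfin : (Set.univ : Set (par cs s t)).Finite := Set.finite_univ
  obtain ⟨⟨d, hd⟩, -, hmax⟩ := Set.exists_max_image Set.univ
    (fun d : par cs s t => cs.length (u * d.1)) hfin ⟨1, Set.mem_univ _⟩
  refine ⟨d, hd, ?_, ?_⟩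
  · rw [act_al_nonpos_iff cs h0]
    have h1 := hmax ⟨d * cs.simple s, mul_mem hd (simple_mem_par_left s t)⟩ (Set.mem_univ _)
    simp only at h1
    rw [← mul_assoc] at h1
    have h2 := cs.length_mul_simple_ne (u * d) s
    omega
  · rw [act_al_nonpos_iff cs h0]
    have h1 := hmax ⟨d * cs.simple t, mul_mem hd (simple_mem_par_right s t)⟩ (Set.mem_univ _)
    simp only at h1
    rw [← mul_assoc] at h1
    have h2 := cs.length_mul_simple_ne (u * d) t
    omega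

end

/-- simple roots are extreme -/
lemma extreme {v w : B → ℝ} {q : B} {a b : ℝ} (hv : IsRoot cs v) (hw : IsRoot cs w) (hv0 : 0 ≤ v)
    (hw0 : 0 ≤ w) (ha : 0 ≤ a) (hb : 0 ≤ b) (h : al q = a • v + b • w) : v = al q ∨ w = al q := by
  have hp : ∀ p, p ≠ q → a * v p = 0 ∧ b * w p = 0 := by
    intro p hp
    have h1 := congrFun h p
    simp only [al_ne hp, Pi.add_apply, Pi.smul_apply, smul_eq_mul] at h1
    have h2 := mul_nonneg ha (hv0 p)
    have h3 := mul_nonneg hb (hw0 p)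
    constructor <;> linarith
  rcases ha.lt_or_eq with ha' | ha'
  · left
    apply hv.eq_al hv0
    intro p hpq
    exact (mul_eq_zero.mp (hp p hpq).1).resolve_left ha'.ne'
  · right
    have hb' : b ≠ 0 := by
      rintro rfl
      rw [← ha'] at h
      simp at h
      exact (isRoot_al cs q).ne_zero h
    apply hw.eq_al hw0
    intro p hpq
    exact (mul_eq_zero.mp (hp p hpq).2).resolve_left hb'

/-- a polygon of the weak order -/
structure Poly (cs : CoxeterSystem M W) (s t : B) (x y : W) : Prop where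
  ne : s ≠ t
  xs : 0 ≤ act cs x (al s)
  xt : 0 ≤ act cs x (al t)
  ys : act cs y (al s) ≤ 0
  yt : act cs y (al t) ≤ 0
  coset : ∀ (v : B → ℝ) p, p ≠ s → p ≠ t → act cs y⁻¹ (act cs x v) p = v p

section
variable [Finite W]

lemma exists_poly_top {s t : B} (hst : s ≠ t) {x : W} (hs : 0 ≤ act cs x (al s))
    (ht : 0 ≤ act cs x (al t)) : ∃ y, Poly cs s t x y := by
  obtain ⟨d, hd, h1, h2⟩ := exists_max_coset (cs := cs) s t x
  refine ⟨x * d, hst, hs, ht, h1, h2, ?_⟩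
  intro v p hp1 hp2
  rw [← act_mul]
  have : (x * d)⁻¹ * x = d⁻¹ := by group
  rw [this, par_act (inv_mem hd) v hp1 hp2]

lemma exists_poly_bot {s t : B} (hst : s ≠ t) {y : W} (hs : act cs y (al s) ≤ 0)
    (ht : act cs y (al t) ≤ 0) : ∃ x, Poly cs s t x y := by
  obtain ⟨d, hd, h1, h2⟩ := exists_min_coset (cs := cs) s t y
  refine ⟨y * d, hst, h1, h2, hs, ht, ?_⟩
  intro v p hp1 hp2
  rw [← act_mul]
  have : y⁻¹ * (y * d) = d := by group
  rw [this, par_act hd v hp1 hp2]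

namespace Poly

variable {s t : B} {x y : W}

lemma coset' (hP : Poly cs s t x y) (v : B → ℝ) {p : B} (h1 : p ≠ s) (h2 : p ≠ t) :
    act cs x⁻¹ v p = act cs y⁻¹ v p := by
  have := hP.coset (act cs x⁻¹ v) p h1 h2
  rw [act_act_inv] at this
  exact this.symm

/-- membership in the rank two subsystem of the polygon -/
def Psi (_ : Poly cs s t x y) (ρ : B → ℝ) : Prop := IsRoot cs ρ ∧ Supp2 s t (act cs x⁻¹ ρ)

lemma Psi.neg {hP : Poly cs s t x y} {ρ : B → ℝ} (h : hP.Psi ρ) : hP.Psi (-ρ) :=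
  ⟨h.1.neg, by rw [map_neg]; exact h.2.neg⟩

lemma Psi.supp_y {hP : Poly cs s t x y} {ρ : B → ℝ} (h : hP.Psi ρ) : Supp2 s t (act cs y⁻¹ ρ) := by
  intro p h1 h2
  rw [← hP.coset' ρ h1 h2]
  exact h.2 p h1 h2

lemma psi_of_y (hP : Poly cs s t x y) {ρ : B → ℝ} (h : IsRoot cs ρ)
    (h2 : Supp2 s t (act cs y⁻¹ ρ)) : hP.Psi ρ := by
  refine ⟨h, ?_⟩
  intro p h3 h4
  rw [hP.coset' ρ h3 h4]
  exact h2 p h3 h4

lemma Psi.reflect {hP : Poly cs s t x y} {δ ρ : B → ℝ} (hδ : hP.Psi δ) (hρ : hP.Psi ρ) :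
    hP.Psi (rr M δ ρ) := by
  refine ⟨hδ.1.reflect hρ.1, ?_⟩
  have : act cs x⁻¹ (rr M δ ρ) = act cs x⁻¹ ρ + (-(ipr M ρ δ)) • act cs x⁻¹ δ := by
    rw [rr, map_sub, map_smul]; module
  rw [this]
  exact hρ.2.add (hδ.2.smul _)

lemma nonneg_of_x (hP : Poly cs s t x y) {ρ : B → ℝ} (hρ : Supp2 s t (act cs x⁻¹ ρ))
    (h : 0 ≤ act cs x⁻¹ ρ) : 0 ≤ ρ := by
  have e : ρ = act cs x (act cs x⁻¹ ρ) := by rw [act_act_inv]
  rw [e, hρ.eq hP.ne, map_add, map_smul, map_smul]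
  exact add_nonneg (smul_nonneg (h s) hP.xs) (smul_nonneg (h t) hP.xt)

lemma Psi.nonneg_iff {hP : Poly cs s t x y} {ρ : B → ℝ} (h : hP.Psi ρ) :
    0 ≤ ρ ↔ 0 ≤ act cs x⁻¹ ρ := by
  have h0 := M_ne_zero cs
  refine ⟨fun h1 => ?_, hP.nonneg_of_x h.2⟩
  rw [← (h.1.image x⁻¹).not_nonpos_iff h0]
  intro h2
  have h3 := hP.nonneg_of_x h.neg.2 (by rw [map_neg]; exact neg_nonneg.mpr h2)
  exact h.1.not_both h1 (neg_nonneg.mp h3)

lemma Psi.nonpos_iff {hP : Poly cs s t x y} {ρ : B → ℝ} (h : hP.Psi ρ) :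
    ρ ≤ 0 ↔ act cs x⁻¹ ρ ≤ 0 := by
  have := h.neg.nonneg_iff
  rw [map_neg, neg_nonneg, neg_nonneg] at this
  exact this

/-- positive roots of the polygon are negative for `y`. -/
lemma Psi.y_nonpos {hP : Poly cs s t x y} {ρ : B → ℝ} (h : hP.Psi ρ) (h1 : 0 ≤ ρ) :
    act cs y⁻¹ ρ ≤ 0 := by
  have h0 := M_ne_zero cs
  rw [← (h.1.image y⁻¹).not_nonneg_iff h0]
  intro h2
  have e : ρ = act cs y (act cs y⁻¹ ρ) := by rw [act_act_inv]
  have h3 : ρ ≤ 0 := by
    rw [e, (Psi.supp_y (hP := hP) h).eq hP.ne, map_add, map_smul, map_smul]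
    exact add_nonpos (smul_nonpos_of_nonneg_of_nonpos (h2 s) hP.ys)
      (smul_nonpos_of_nonneg_of_nonpos (h2 t) hP.yt)
  exact h.1.not_both h1 h3

lemma Psi.mem_y {hP : Poly cs s t x y} {ρ : B → ℝ} (h : hP.Psi ρ) (h1 : 0 ≤ ρ) :
    ρ ∈ inver cs y := mem_inver.mpr ⟨h.1, h1, h.y_nonpos h1⟩

/-- away from the polygon the signs for `x` and `y` agree -/
lemma sign_iff (hP : Poly cs s t x y) {ρ : B → ℝ} (h : IsRoot cs ρ) (h1 : ¬ hP.Psi ρ) :
    0 ≤ act cs x⁻¹ ρ ↔ 0 ≤ act cs y⁻¹ ρ := by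
  have h0 := M_ne_zero cs
  have h2 : ∃ p, p ≠ s ∧ p ≠ t ∧ act cs x⁻¹ ρ p ≠ 0 := by
    by_contra hc
    push Not at hc
    exact h1 ⟨h, hc⟩
  obtain ⟨p, hp1, hp2, hp3⟩ := h2
  have e := hP.coset' ρ hp1 hp2
  constructor
  · intro h3
    rw [← (h.image y⁻¹).not_nonpos_iff h0]
    intro h4
    have h5 := h3 p
    have h6 := h4 p
    simp only [Pi.zero_apply] at h5 h6
    rw [← e] at h6
    exact hp3 (le_antisymm h6 h5)
  · intro h3
    rw [← (h.image x⁻¹).not_nonpos_iff h0]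
    intro h4
    have h5 := h3 p
    have h6 := h4 p
    simp only [Pi.zero_apply] at h5 h6
    rw [← e] at h5
    exact hp3 (le_antisymm h6 h5)

/-- the inversion set of the top. -/
lemma mem_inver_y (hP : Poly cs s t x y) (ρ : B → ℝ) :
    ρ ∈ inver cs y ↔ ρ ∈ inver cs x ∨ (hP.Psi ρ ∧ 0 ≤ ρ) := by
  have h0 := M_ne_zero cs
  constructor
  · intro h
    rw [mem_inver] at h
    by_cases h1 : hP.Psi ρ
    · exact Or.inr ⟨h1, h.2.1⟩
    · left
      rw [mem_inver]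
      refine ⟨h.1, h.2.1, ?_⟩
      rw [← (h.1.image x⁻¹).not_nonneg_iff h0, hP.sign_iff h.1 h1,
        (h.1.image y⁻¹).not_nonneg_iff h0]
      exact h.2.2
  · rintro (h | ⟨h, h'⟩)
    · rw [mem_inver] at h ⊢
      refine ⟨h.1, h.2.1, ?_⟩
      by_cases h1 : hP.Psi ρ
      · exact h1.y_nonpos h.2.1
      · rw [← (h.1.image y⁻¹).not_nonneg_iff h0, ← hP.sign_iff h.1 h1,
          (h.1.image x⁻¹).not_nonneg_iff h0]
        exact h.2.2
    · exact h.mem_y h'

lemma psi_xs (hP : Poly cs s t x y) : hP.Psi (act cs x (al s)) :=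
  ⟨(isRoot_al cs s).image x, by rw [act_inv_act]; exact Supp2.al_left s t⟩

lemma psi_xt (hP : Poly cs s t x y) : hP.Psi (act cs x (al t)) :=
  ⟨(isRoot_al cs t).image x, by rw [act_inv_act]; exact Supp2.al_right s t⟩

/-- convexity: if both bottom walls are negative for `u` then so is the whole polygon. -/
lemma Psi.neg_of_walls {hP : Poly cs s t x y} {ρ : B → ℝ} (h : hP.Psi ρ) (h1 : 0 ≤ ρ) {u : W}
    (hs : act cs u⁻¹ (act cs x (al s)) ≤ 0) (ht : act cs u⁻¹ (act cs x (al t)) ≤ 0) :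
    act cs u⁻¹ ρ ≤ 0 := by
  rw [h.nonneg_iff] at h1
  have e : ρ = act cs x (act cs x⁻¹ ρ) := by rw [act_act_inv]
  rw [e, h.2.eq hP.ne, map_add, map_smul, map_smul, map_add, map_smul, map_smul]
  exact add_nonpos (smul_nonpos_of_nonneg_of_nonpos (h1 s) hs)
    (smul_nonpos_of_nonneg_of_nonpos (h1 t) ht)

/-- The simple system of the polygon seen from `u`, when one of its roots is simple at `u`. -/
lemma other_root (hP : Poly cs s t x y) {u : W} {δ : B → ℝ} (hδ : hP.Psi δ) {q : B}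
    (hq : act cs u⁻¹ δ = al q) :
    ∃ η, hP.Psi η ∧ 0 ≤ act cs u⁻¹ η ∧
      (∀ ρ, hP.Psi ρ → 0 ≤ act cs u⁻¹ ρ → ∃ a b : ℝ, 0 ≤ a ∧ 0 ≤ b ∧ ρ = a • δ + b • η) ∧
      (∀ a b : ℝ, a • δ + b • η = 0 → a = 0 ∧ b = 0) := by
  have h0 := M_ne_zero cs
  have hst := hP.ne
  obtain ⟨d, hd, h1, h2⟩ := exists_min_coset (cs := cs) s t (u⁻¹ * x)
  set g := u⁻¹ * x * d with hg
  have hgx : ∀ v, act cs g v = act cs u⁻¹ (act cs (x * d) v) := by
    intro v; rw [hg, mul_assoc, act_mul]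
  -- coordinates
  have hsupp : ∀ ρ, hP.Psi ρ → Supp2 s t (act cs (x * d)⁻¹ ρ) := by
    intro ρ hρ p hp1 hp2
    rw [mul_inv_rev, act_mul, par_act (inv_mem hd) _ hp1 hp2]
    exact hρ.2 p hp1 hp2
  have hPsid : ∀ v, IsRoot cs v → Supp2 s t v → hP.Psi (act cs (x * d) v) := by
    intro v hv hv2
    refine ⟨hv.image _, ?_⟩
    intro p hp1 hp2
    rw [act_mul, act_inv_act, par_act hd _ hp1 hp2]
    exact hv2 p hp1 hp2
  have hpos : ∀ ρ, hP.Psi ρ → 0 ≤ act cs u⁻¹ ρ → 0 ≤ act cs (x * d)⁻¹ ρ := by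
    intro ρ hρ h3
    rw [← (hρ.1.image _).not_nonpos_iff h0]
    intro h4
    have h5 : act cs u⁻¹ ρ ≤ 0 := by
      have e : act cs u⁻¹ ρ = act cs g (act cs (x * d)⁻¹ ρ) := by rw [hgx, act_act_inv]
      rw [e, (hsupp ρ hρ).eq hst, map_add, map_smul, map_smul]
      exact add_nonpos (smul_nonpos_of_nonpos_of_nonneg (h4 s) h1)
        (smul_nonpos_of_nonpos_of_nonneg (h4 t) h2)
    exact (hρ.1.image _).not_both h3 h5
  have hcomb : ∀ ρ, hP.Psi ρ → 0 ≤ act cs u⁻¹ ρ → ∃ a b : ℝ, 0 ≤ a ∧ 0 ≤ b ∧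
      ρ = a • act cs (x * d) (al s) + b • act cs (x * d) (al t) := by
    intro ρ hρ h3
    refine ⟨act cs (x * d)⁻¹ ρ s, act cs (x * d)⁻¹ ρ t, hpos ρ hρ h3 s, hpos ρ hρ h3 t, ?_⟩
    rw [← map_smul, ← map_smul, ← map_add, ← (hsupp ρ hρ).eq hst, act_act_inv]
  have hindep : ∀ a b : ℝ, a • act cs (x * d) (al s) + b • act cs (x * d) (al t) = 0 →
      a = 0 ∧ b = 0 := by
    intro a b hab
    rw [← map_smul, ← map_smul, ← map_add] at hab
    have h3 : a • al s + b • al t = 0 := by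
      apply act_injective cs (x * d)
      rw [hab, map_zero]
    have h4 := congrFun h3 s
    have h5 := congrFun h3 t
    simp [al_ne hst] at h4
    simp [al_ne hst.symm] at h5
    exact ⟨h4, h5⟩
  have hq' : 0 ≤ act cs u⁻¹ δ := by rw [hq]; exact al_nonneg q
  obtain ⟨a, b, ha, hb, hab⟩ := hcomb δ hδ hq'
  have h3 : al q = a • act cs g (al s) + b • act cs g (al t) := by
    rw [← hq, hab, map_add, map_smul, map_smul, hgx, hgx]
  rcases extreme ((isRoot_al cs s).image g) ((isRoot_al cs t).image g) h1 h2 ha hb h3 with h4 | h4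
  · have hδ' : δ = act cs (x * d) (al s) := by
      apply act_injective cs u⁻¹
      rw [hq, ← hgx, h4]
    refine ⟨act cs (x * d) (al t), hPsid _ (isRoot_al cs t) (Supp2.al_right s t), ?_, ?_, ?_⟩
    · rw [← hgx]; exact h2
    · intro ρ hρ h5
      rw [hδ']; exact hcomb ρ hρ h5
    · intro a b hab
      rw [hδ'] at hab
      exact hindep a b hab
  · have hδ' : δ = act cs (x * d) (al t) := by
      apply act_injective cs u⁻¹
      rw [hq, ← hgx, h4]
    refine ⟨act cs (x * d) (al s), hPsid _ (isRoot_al cs s) (Supp2.al_left s t), ?_, ?_, ?_⟩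
    · rw [← hgx]; exact h1
    · intro ρ hρ h5
      obtain ⟨a, b, ha, hb, hab⟩ := hcomb ρ hρ h5
      exact ⟨b, a, hb, ha, by rw [hδ', hab, add_comm]⟩
    · intro a b hab
      rw [hδ', add_comm] at hab
      exact (hindep b a hab).symm

/-- a positive pair generating the polygon consists of the two bottom walls -/
lemma simple_of_gen (hP : Poly cs s t x y) {v w : B → ℝ} (hv : IsRoot cs v) (hw : IsRoot cs w)
    (hv0 : 0 ≤ v) (hw0 : 0 ≤ w)
    (h1 : ∃ a b : ℝ, 0 ≤ a ∧ 0 ≤ b ∧ al s = a • v + b • w)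
    (h2 : ∃ a b : ℝ, 0 ≤ a ∧ 0 ≤ b ∧ al t = a • v + b • w) : v = al s ∨ v = al t := by
  obtain ⟨a, b, ha, hb, hab⟩ := h1
  obtain ⟨c, d, hc, hd, hcd⟩ := h2
  rcases extreme hv hw hv0 hw0 ha hb hab with h | h
  · exact Or.inl h
  · rcases extreme hv hw hv0 hw0 hc hd hcd with h' | h'
    · exact Or.inr h'
    · exfalso
      have h3 : al s = al t := by rw [← h, ← h']
      have h4 := congrFun h3 s
      rw [al_self, al_ne hP.ne] at h4
      exact one_ne_zero h4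

/-- Lemma A -/
lemma other_nonpos (hP : Poly cs s t x y) {u : W} {δ η : B → ℝ} (hδ : hP.Psi δ) (hη : hP.Psi η)
    (hδ0 : 0 ≤ δ) (hδs : act cs x⁻¹ δ ≠ al s) (hδt : act cs x⁻¹ δ ≠ al t)
    (hgen : ∀ ρ, hP.Psi ρ → 0 ≤ act cs u⁻¹ ρ → ∃ a b : ℝ, 0 ≤ a ∧ 0 ≤ b ∧ ρ = a • δ + b • η) :
    η ≤ 0 := by
  have h0 := M_ne_zero cs
  rw [← hη.1.not_nonneg_iff h0]
  intro hη0
  have hv := hδ.nonneg_iff.mp hδ0
  have hw := hη.nonneg_iff.mp hη0
  have key : ∀ a, (a = s ∨ a = t) → ∃ c d : ℝ, 0 ≤ c ∧ 0 ≤ d ∧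
      al a = c • act cs x⁻¹ δ + d • act cs x⁻¹ η := by
    intro a ha
    have hPa : hP.Psi (act cs x (al a)) := by
      rcases ha with rfl | rfl
      · exact hP.psi_xs
      · exact hP.psi_xt
    rcases (hPa.1.image u⁻¹).pos_or_neg h0 with h1 | h1
    · obtain ⟨c, d, hc, hd, hcd⟩ := hgen _ hPa h1
      refine ⟨c, d, hc, hd, ?_⟩
      rw [← map_smul, ← map_smul, ← map_add, ← hcd, act_inv_act]
    · exfalso
      obtain ⟨c, d, hc, hd, hcd⟩ := hgen _ hPa.neg (by rw [map_neg]; exact neg_nonneg.mpr h1)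
      have h2 : - al a = c • act cs x⁻¹ δ + d • act cs x⁻¹ η := by
        rw [← map_smul, ← map_smul, ← map_add, ← hcd, map_neg, act_inv_act]
      have h3 : 0 ≤ - al a := by
        rw [h2]
        exact add_nonneg (smul_nonneg hc hv) (smul_nonneg hd hw)
      exact (isRoot_al cs a).not_both (al_nonneg a) (neg_nonneg.mp h3)
  rcases hP.simple_of_gen (hδ.1.image _) (hη.1.image _) hv hw (key s (Or.inl rfl))
    (key t (Or.inr rfl)) with h | h
  · exact hδs h
  · exact hδt h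

/-- Lemma B -/
lemma refl_other_nonneg (hP : Poly cs s t x y) {u : W} {δ η : B → ℝ} (hδ : hP.Psi δ)
    (hη : hP.Psi η) {q : B} (hq : act cs u⁻¹ δ = al q)
    (hδ0 : 0 ≤ δ) (hδs : act cs x⁻¹ δ ≠ al s) (hδt : act cs x⁻¹ δ ≠ al t)
    (hgen : ∀ ρ, hP.Psi ρ → 0 ≤ act cs u⁻¹ ρ → ∃ a b : ℝ, 0 ≤ a ∧ 0 ≤ b ∧ ρ = a • δ + b • η) :
    0 ≤ rr M δ η := by
  have h0 := M_ne_zero cs
  set θ := rr M δ η with hθ
  have hθP : hP.Psi θ := hδ.reflect hη
  rw [← hθP.1.not_nonpos_iff h0]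
  intro hθ0
  have hv := hδ.nonneg_iff.mp hδ0
  have hw := hθP.nonpos_iff.mp hθ0
  -- the generation at `u' = u s_q`
  have hgen' : ∀ ρ, hP.Psi ρ → 0 ≤ act cs (u * cs.simple q)⁻¹ ρ →
      ∃ a b : ℝ, 0 ≤ a ∧ 0 ≤ b ∧ ρ = (-a) • δ + b • θ := by
    intro ρ hρ h1
    have h2 : act cs u⁻¹ (rr M δ ρ) = act cs (u * cs.simple q)⁻¹ ρ := by
      rw [act_conj_inv hq, ← act_simple_eq_rr cs, mul_inv_rev, cs.inv_simple, act_mul]
    obtain ⟨a, b, ha, hb, hab⟩ := hgen _ (hδ.reflect hρ) (by rw [h2]; exact h1)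
    refine ⟨a, b, ha, hb, ?_⟩
    have h3 := congrArg (rr M δ) hab
    rw [rr_rr hδ.1, rr_add, rr_smul, rr_smul, rr_self hδ.1] at h3
    rw [h3, hθ]; module
  have key : ∀ a, (a = s ∨ a = t) → ∃ c d : ℝ, 0 ≤ c ∧ 0 ≤ d ∧
      al a = c • act cs x⁻¹ δ + d • act cs x⁻¹ (-θ) := by
    intro a ha
    have hPa : hP.Psi (act cs x (al a)) := by
      rcases ha with rfl | rfl
      · exact hP.psi_xs
      · exact hP.psi_xt
    rcases (hPa.1.image (u * cs.simple q)⁻¹).pos_or_neg h0 with h1 | h1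
    · exfalso
      obtain ⟨c, d, hc, hd, hcd⟩ := hgen' _ hPa h1
      have h2 : al a = (-c) • act cs x⁻¹ δ + d • act cs x⁻¹ θ := by
        rw [← map_smul, ← map_smul, ← map_add, ← hcd, act_inv_act]
      have h3 : al a ≤ 0 := by
        rw [h2]
        exact add_nonpos (smul_nonpos_of_nonpos_of_nonneg (by linarith) hv)
          (smul_nonpos_of_nonneg_of_nonpos hd hw)
      exact (isRoot_al cs a).not_both (al_nonneg a) h3
    · obtain ⟨c, d, hc, hd, hcd⟩ := hgen' _ hPa.neg (by rw [map_neg]; exact neg_nonneg.mpr h1)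
      refine ⟨c, d, hc, hd, ?_⟩
      have h2 : - al a = (-c) • act cs x⁻¹ δ + d • act cs x⁻¹ θ := by
        rw [← map_smul, ← map_smul, ← map_add, ← hcd, map_neg, act_inv_act]
      rw [map_neg, ← neg_neg (al a), h2]; module
  rcases hP.simple_of_gen (hδ.1.image _) (hθP.neg.1.image _) hv
    (by rw [map_neg]; exact neg_nonneg.mpr hw) (key s (Or.inl rfl))
    (key t (Or.inr rfl)) with h | h
  · exact hδs h
  · exact hδt h

end Poly

end

end H57
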