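import Pool.Agent.H57.Pos

/-!
# Roots and inversion sets
-/

set_option linter.unusedSectionVars false

open Finset CoxeterSystem

namespace H57

variable {B : Type*} [Fintype B] [DecidableEq B]
variable {W : Type*} [Group W] {M : CoxeterMatrix B}

/-- The inner product of the geometric representation, normalised by `⟪α_s, α_s⟫ = 2`. -/
noncomputable abbrev ipr (M : CoxeterMatrix B) : LinearMap.BilinForm ℝ (B → ℝ) := form (gram M)

lemma ipr_comm (x y : B → ℝ) : ipr M x y = ipr M y x := form_comm (gram_compat M).symm x y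

/-- The roots of the Coxeter system. -/
def IsRoot (cs : CoxeterSystem M W) (v : B → ℝ) : Prop := ∃ w s, v = act cs w (al s)

lemma isRoot_al (cs : CoxeterSystem M W) (s : B) : IsRoot cs (al s) := ⟨1, s, by simp⟩

lemma IsRoot.image {cs : CoxeterSystem M W} {v : B → ℝ} (h : IsRoot cs v) (w : W) :
    IsRoot cs (act cs w v) := by
  obtain ⟨w', s, rfl⟩ := h
  exact ⟨w * w', s, by rw [act_mul]⟩

lemma IsRoot.image_iff {cs : CoxeterSystem M W} {v : B → ℝ} (w : W) :
    IsRoot cs (act cs w v) ↔ IsRoot cs v := by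
  refine ⟨fun h => ?_, fun h => h.image w⟩
  have := h.image w⁻¹
  rwa [act_inv_act] at this

lemma IsRoot.neg {cs : CoxeterSystem M W} {v : B → ℝ} (h : IsRoot cs v) : IsRoot cs (-v) := by
  obtain ⟨w', s, rfl⟩ := h
  exact ⟨w' * cs.simple s, s, by rw [act_mul, act_simple_al, map_neg]⟩

lemma IsRoot.ipr_self {cs : CoxeterSystem M W} {v : B → ℝ} (h : IsRoot cs v) :
    ipr M v v = 2 := by
  obtain ⟨w', s, rfl⟩ := h
  rw [ipr, act_form, form_al_al, (gram_compat M).diag]

lemma IsRoot.ne_zero {cs : CoxeterSystem M W} {v : B → ℝ} (h : IsRoot cs v) : v ≠ 0 := by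
  rintro rfl
  have := h.ipr_self
  simp at this

lemma IsRoot.pos_or_neg {cs : CoxeterSystem M W} (h0 : ∀ s t, M s t ≠ 0) {v : B → ℝ}
    (h : IsRoot cs v) : 0 ≤ v ∨ v ≤ 0 := by
  obtain ⟨w, s, rfl⟩ := h
  rcases lt_or_gt_of_ne (cs.length_mul_simple_ne w s) with h | h
  · exact Or.inr (act_al_nonpos cs h0 w s h)
  · exact Or.inl (act_al_nonneg cs h0 w s h)

lemma IsRoot.not_both {cs : CoxeterSystem M W} {v : B → ℝ}
    (h : IsRoot cs v) (h1 : 0 ≤ v) (h2 : v ≤ 0) : False :=
  h.ne_zero (le_antisymm h2 h1)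

lemma IsRoot.not_nonneg_iff {cs : CoxeterSystem M W} (h0 : ∀ s t, M s t ≠ 0) {v : B → ℝ}
    (h : IsRoot cs v) : ¬ 0 ≤ v ↔ v ≤ 0 := by
  constructor
  · intro h1
    exact (h.pos_or_neg h0).resolve_left h1
  · intro h1 h2
    exact h.not_both h2 h1

lemma IsRoot.not_nonpos_iff {cs : CoxeterSystem M W} (h0 : ∀ s t, M s t ≠ 0) {v : B → ℝ}
    (h : IsRoot cs v) : ¬ v ≤ 0 ↔ 0 ≤ v := by
  constructor
  · intro h1
    exact (h.pos_or_neg h0).resolve_right h1
  · intro h1 h2
    exact h.not_both h1 h2

lemma act_al_nonneg_iff (cs : CoxeterSystem M W) (h0 : ∀ s t, M s t ≠ 0) (w : W) (s : B) :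
    0 ≤ act cs w (al s) ↔ cs.length w < cs.length (w * cs.simple s) := by
  refine ⟨fun h => ?_, act_al_nonneg cs h0 w s⟩
  rcases lt_or_gt_of_ne (cs.length_mul_simple_ne w s) with h' | h'
  · exact ((isRoot_al cs s).image w).not_both h (act_al_nonpos cs h0 w s h') |>.elim
  · exact h'

lemma act_al_nonpos_iff (cs : CoxeterSystem M W) (h0 : ∀ s t, M s t ≠ 0) (w : W) (s : B) :
    act cs w (al s) ≤ 0 ↔ cs.length (w * cs.simple s) < cs.length w := by
  refine ⟨fun h => ?_, act_al_nonpos cs h0 w s⟩
  rcases lt_or_gt_of_ne (cs.length_mul_simple_ne w s) with h' | h'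
  · exact h'
  · exact ((isRoot_al cs s).image w).not_both (act_al_nonneg cs h0 w s h') h |>.elim

lemma al_nonneg (s : B) : 0 ≤ al s := by
  intro p
  by_cases hp : p = s
  · subst hp; simp
  · simp [al_ne hp]

/-- a nonnegative root supported on `s` is `α_s`. -/
lemma IsRoot.eq_al {cs : CoxeterSystem M W} {v : B → ℝ} (h : IsRoot cs v) (hv : 0 ≤ v) {s : B}
    (hs : ∀ p, p ≠ s → v p = 0) : v = al s := by
  have h1 : v = v s • al s := by
    funext p
    by_cases hp : p = s
    · subst hp; simp
    · simp [al_ne hp, hs p hp]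
  have h2 := h.ipr_self
  rw [h1, ipr] at h2
  simp only [map_smul, LinearMap.smul_apply, form_al_al, (gram_compat M).diag, smul_eq_mul] at h2
  have h3 : 0 ≤ v s := hv s
  have h4 : v s = 1 := by nlinarith
  rw [h1, h4, one_smul]

lemma IsRoot.exists_pos {cs : CoxeterSystem M W} {v : B → ℝ} (h : IsRoot cs v) (hv : 0 ≤ v) {s : B}
    (hs : v ≠ al s) : ∃ p, p ≠ s ∧ 0 < v p := by
  by_contra hc
  push Not at hc
  exact hs (h.eq_al hv fun p hp => le_antisymm (hc p hp) (hv p))

lemma IsRoot.simple_act_nonneg {cs : CoxeterSystem M W} (h0 : ∀ s t, M s t ≠ 0) {v : B → ℝ}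
    (h : IsRoot cs v) (hv : 0 ≤ v) {s : B} (hs : v ≠ al s) : 0 ≤ act cs (cs.simple s) v := by
  obtain ⟨p, hp, hvp⟩ := h.exists_pos hv hs
  refine ((h.image _).pos_or_neg h0).resolve_right fun hneg => ?_
  have := hneg p
  rw [act_simple, sref_apply_of_ne _ hp] at this
  simp at this
  linarith

lemma IsRoot.simple_act_nonpos {cs : CoxeterSystem M W} (h0 : ∀ s t, M s t ≠ 0) {v : B → ℝ}
    (h : IsRoot cs v) (hv : v ≤ 0) {s : B} (hs : v ≠ - al s) : act cs (cs.simple s) v ≤ 0 := by
  have h1 := h.neg.simple_act_nonneg h0 (s := s) (neg_nonneg.mpr hv) (by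
    intro h2; apply hs; rw [← h2, neg_neg])
  rw [map_neg] at h1
  exact neg_nonneg.mp h1

/-- the reflection in a root -/
noncomputable def rr (M : CoxeterMatrix B) (d x : B → ℝ) : B → ℝ := x - ipr M x d • d

lemma act_conj_rr (cs : CoxeterSystem M W) (w : W) (d x : B → ℝ) :
    rr M (act cs w d) (act cs w x) = act cs w (rr M d x) := by
  rw [rr, rr, map_sub, map_smul, ipr, act_form]

lemma act_simple_eq_rr (cs : CoxeterSystem M W) (s : B) (x : B → ℝ) :
    act cs (cs.simple s) x = rr M (al s) x := by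
  rw [act_simple, sref_apply, rr]

lemma act_mul_simple_mul_inv (cs : CoxeterSystem M W) (w : W) (s : B) (x : B → ℝ) :
    act cs (w * cs.simple s * w⁻¹) x = rr M (act cs w (al s)) x := by
  rw [act_mul, act_mul, act_simple_eq_rr, ← act_conj_rr, act_act_inv]

lemma rr_rr {cs : CoxeterSystem M W} {d : B → ℝ} (hd : IsRoot cs d) (x : B → ℝ) :
    rr M d (rr M d x) = x := by
  have := hd.ipr_self
  simp only [rr, map_sub, map_smul, LinearMap.sub_apply, LinearMap.smul_apply, smul_eq_mul, this]
  module

lemma rr_self {cs : CoxeterSystem M W} {d : B → ℝ} (hd : IsRoot cs d) : rr M d d = -d := by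
  have := hd.ipr_self
  simp only [rr, this]
  module

lemma rr_neg (d x : B → ℝ) : rr M d (-x) = - rr M d x := by
  simp only [rr, map_neg, LinearMap.neg_apply]; module

lemma rr_add (d x y : B → ℝ) : rr M d (x + y) = rr M d x + rr M d y := by
  simp only [rr, map_add, LinearMap.add_apply]; module

lemma rr_smul (d x : B → ℝ) (c : ℝ) : rr M d (c • x) = c • rr M d x := by
  simp only [rr, map_smul, LinearMap.smul_apply, smul_eq_mul]; module

lemma rr_neg_left (d x : B → ℝ) : rr M (-d) x = rr M d x := by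
  simp only [rr, map_neg]; module

lemma ipr_rr_rr {cs : CoxeterSystem M W} {d : B → ℝ} (hd : IsRoot cs d) (x y : B → ℝ) :
    ipr M (rr M d x) (rr M d y) = ipr M x y := by
  have h2 := hd.ipr_self
  have h3 := ipr_comm (M := M) d y
  simp only [rr, map_sub, map_smul, LinearMap.sub_apply, LinearMap.smul_apply, smul_eq_mul, h2, h3]
  ring

lemma IsRoot.reflect {cs : CoxeterSystem M W} {d x : B → ℝ} (hd : IsRoot cs d) (hx : IsRoot cs x) :
    IsRoot cs (rr M d x) := by
  obtain ⟨w, s, rfl⟩ := hd
  rw [← act_mul_simple_mul_inv]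
  exact hx.image _

/-! ### Finiteness -/

lemma finite_roots (cs : CoxeterSystem M W) [Finite W] : {v | IsRoot cs v}.Finite := by
  have : {v | IsRoot cs v} = Set.range (fun p : W × B => act cs p.1 (al p.2)) := by
    ext v
    simp only [Set.mem_ofPred_eq, Set.mem_range, Prod.exists, IsRoot]
    constructor
    · rintro ⟨w, s, rfl⟩; exact ⟨w, s, rfl⟩
    · rintro ⟨w, s, rfl⟩; exact ⟨w, s, rfl⟩
  rw [this]
  exact Set.finite_range _

/-- in a finite Coxeter group all entries are nonzero. -/
lemma M_ne_zero (cs : CoxeterSystem M W) [Finite W] (s t : B) : M s t ≠ 0 := by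
  intro h0
  have hst : s ≠ t := by
    rintro rfl
    rw [M.diagonal] at h0
    exact one_ne_zero h0
  have hA := gram_compat M
  have hg : gram M s t = -2 := by simp [gram, h0]
  have hg' : gram M t s = -2 := by rw [hA.symm, hg]
  have key : ∀ k : ℕ, act cs ((cs.simple s * cs.simple t) ^ k) (al s) =
      (2 * k + 1 : ℝ) • al s + (2 * k : ℝ) • al t := by
    intro k
    induction k with
    | zero => simp
    | succ k ih =>
      rw [pow_succ', act_mul, ih, act_mul, act_simple, act_simple, sref_apply _ t, sref_apply _ s]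
      simp only [map_add, map_sub, map_smul, LinearMap.add_apply, LinearMap.sub_apply,
        LinearMap.smul_apply, form_al_al, hg, hg', hA.diag, smul_eq_mul]
      push_cast
      module
  have hinj : Function.Injective (fun k : ℕ => (cs.simple s * cs.simple t) ^ k) := by
    intro k l hkl
    have h1 := key k
    have h2 := key l
    simp only at hkl
    rw [hkl, h2] at h1
    have := congrFun h1 s
    simp [al_ne hst] at this
    exact this.symm
  exact not_injective_infinite_finite _ hinj

section Inv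

variable (cs : CoxeterSystem M W) [Finite W]

/-- The finset of all roots. -/
noncomputable def roots : Finset (B → ℝ) := (finite_roots cs).toFinset

@[simp] lemma mem_roots {v : B → ℝ} : v ∈ roots cs ↔ IsRoot cs v := by simp [roots]

open Classical in
/-- The inversion set of `w`: positive roots `β` with `w⁻¹ β` negative. -/
noncomputable def inver (w : W) : Finset (B → ℝ) :=
  (roots cs).filter fun v => 0 ≤ v ∧ act cs w⁻¹ v ≤ 0

variable {cs}

lemma mem_inver {w : W} {v : B → ℝ} : v ∈ inver cs w ↔ IsRoot cs v ∧ 0 ≤ v ∧ act cs w⁻¹ v ≤ 0 := by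
  simp [inver]

lemma notMem_inver {w : W} {v : B → ℝ} (hv : IsRoot cs v) (hp : 0 ≤ v) :
    v ∉ inver cs w ↔ 0 ≤ act cs w⁻¹ v := by
  rw [mem_inver]
  have := (hv.image w⁻¹).not_nonpos_iff (M_ne_zero cs)
  tauto

lemma inver_one : inver cs (1 : W) = ∅ := by
  ext v
  simp only [mem_inver, inv_one, act_one, Finset.notMem_empty, iff_false]
  rintro ⟨h1, h2, h3⟩
  exact h1.not_both h2 h3

open Classical in
lemma inver_mul_simple {w : W} {s : B} (h : 0 ≤ act cs w (al s)) :
    inver cs (w * cs.simple s) = insert (act cs w (al s)) (inver cs w) := by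
  have h0 := M_ne_zero cs
  ext v
  rw [Finset.mem_insert, mem_inver, mem_inver, mul_inv_rev, cs.inv_simple, act_mul]
  constructor
  · rintro ⟨h1, h2, h3⟩
    by_cases hv : v = act cs w (al s)
    · exact Or.inl hv
    · refine Or.inr ⟨h1, h2, ?_⟩
      rw [← (h1.image _).not_nonneg_iff h0]
      intro h4
      have h5 : act cs w⁻¹ v ≠ al s := by
        intro h6
        apply hv
        rw [← h6, act_act_inv]
      exact ((h1.image _).image _).not_both ((h1.image _).simple_act_nonneg h0 h4 h5) h3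
  · rintro (rfl | ⟨h1, h2, h3⟩)
    · refine ⟨(isRoot_al cs s).image w, h, ?_⟩
      rw [act_inv_act, act_simple_al]
      exact neg_nonpos.mpr (al_nonneg s)
    · refine ⟨h1, h2, (h1.image _).simple_act_nonpos h0 h3 ?_⟩
      intro h4
      have h5 : v = - act cs w (al s) := by
        rw [← map_neg, ← h4, act_act_inv]
      rw [h5] at h2
      exact ((isRoot_al cs s).image w).not_both h (neg_nonneg.mp h2)

lemma al_notMem_inver {w : W} {s : B} : act cs w (al s) ∉ inver cs w := by
  rw [mem_inver, act_inv_act]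
  rintro ⟨_, _, h⟩
  exact (isRoot_al cs s).not_both (al_nonneg s) h

lemma card_inver (w : W) : (inver cs w).card = cs.length w := by
  classical
  induction hn : cs.length w generalizing w with
  | zero =>
    rw [cs.length_eq_zero_iff] at hn
    subst hn
    rw [inver_one, Finset.card_empty]
  | succ n ih =>
    have hw : w ≠ 1 := by rintro rfl; simp at hn
    obtain ⟨s, hs⟩ := cs.exists_rightDescent_of_ne_one hw
    rw [cs.isRightDescent_iff] at hs
    set w' := w * cs.simple s with hw'
    have hw2 : w = w' * cs.simple s := by rw [hw', cs.simple_mul_simple_cancel_right]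
    have h1 : 0 ≤ act cs w' (al s) := by
      apply act_al_nonneg cs (M_ne_zero cs)
      rw [← hw2]; omega
    rw [hw2, inver_mul_simple h1, Finset.card_insert_of_notMem al_notMem_inver, ih w' (by omega)]

end Inv

end H57
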