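import Pool.Agent.H57.Height

/-!
# A decomposition of the inversion set of `s_δ r`
-/

set_option linter.unusedSectionVars false

open Finset CoxeterSystem

namespace H57

variable {B : Type*} [Fintype B] [DecidableEq B]
variable {W : Type*} [Group W] {M : CoxeterMatrix B}
variable {cs : CoxeterSystem M W}

lemma act_conj_inv {a : W} {d c : B → ℝ} (h : act cs a⁻¹ d = c) (x : B → ℝ) :
    act cs a⁻¹ (rr M d x) = rr M c (act cs a⁻¹ x) := by
  rw [← h, act_conj_rr]

lemma act_inv_of_act_eq {b r : W} {d : B → ℝ} (hd : IsRoot cs d)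
    (hb : ∀ x, act cs b x = rr M d (act cs r x)) (x : B → ℝ) :
    act cs b⁻¹ x = act cs r⁻¹ (rr M d x) := by
  have h1 : x = act cs b (act cs r⁻¹ (rr M d x)) := by
    rw [hb, act_act_inv, rr_rr hd]
  conv_lhs => rw [h1]
  rw [act_inv_act]

open Classical in
/-- the set of roots `e` in the inversion set of `a` with `-s_δ e` in the inversion set of `r`. -/
noncomputable def crossing (cs : CoxeterSystem M W) [Finite W] (a r : W) (d : B → ℝ) :
    Finset (B → ℝ) :=
  (inver cs a).filter fun e => - rr M d e ∈ inver cs r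

open Classical in
theorem sum_decomp [Finite W] {a r b : W} {d : B → ℝ} {q : B} (hd : IsRoot cs d) (hd0 : 0 ≤ d)
    (haq : act cs a⁻¹ d = al q) (hsub : inver cs a ⊆ inver cs r) (hdr : d ∈ inver cs r)
    (hb : ∀ x, act cs b x = rr M d (act cs r x)) (G : (B → ℝ) → ℝ) (hG : ∀ x, G (-x) = G x) :
    ∑ β ∈ inver cs a, G β + ∑ β ∈ inver cs r \ insert d (inver cs a), G (rr M d β) =
      ∑ β ∈ inver cs b, G β + 2 * ∑ β ∈ crossing cs a r d, G β := by
  have h0 := M_ne_zero cs
  set A := inver cs a with hA
  set R := inver cs r with hR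
  set C := R \ insert d A with hC
  set P := crossing cs a r d with hP
  have hdA : d ∉ A := by
    rw [hA, notMem_inver hd hd0, haq]; exact al_nonneg q
  -- signs at `a`
  have F1 : ∀ β, IsRoot cs β → β ≠ d → β ≠ -d → act cs a⁻¹ β ≤ 0 → act cs a⁻¹ (rr M d β) ≤ 0 := by
    intro β hβ h1 h2 h3
    rw [act_conj_inv haq, ← act_simple_eq_rr cs]
    refine (hβ.image _).simple_act_nonpos h0 h3 ?_
    intro h4
    apply h2
    have : β = act cs a (act cs a⁻¹ β) := by rw [act_act_inv]
    rw [this, h4, map_neg, ← haq, act_act_inv]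
  have F2 : ∀ β, IsRoot cs β → β ≠ d → β ≠ -d → 0 ≤ act cs a⁻¹ β → 0 ≤ act cs a⁻¹ (rr M d β) := by
    intro β hβ h1 h2 h3
    rw [act_conj_inv haq, ← act_simple_eq_rr cs]
    refine (hβ.image _).simple_act_nonneg h0 h3 ?_
    intro h4
    apply h1
    have : β = act cs a (act cs a⁻¹ β) := by rw [act_act_inv]
    rw [this, h4, ← haq, act_act_inv]
  have hne_neg : ∀ β : B → ℝ, 0 ≤ β → β ≠ -d := by
    rintro β hβ rfl
    exact hd.not_both hd0 (neg_nonneg.mp hβ)
  have hrd : rr M d d = -d := rr_self hd
  have hmemb : ∀ γ, γ ∈ inver cs b ↔ IsRoot cs γ ∧ 0 ≤ γ ∧ act cs r⁻¹ (rr M d γ) ≤ 0 := by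
    intro γ
    rw [mem_inver, act_inv_of_act_eq hd hb]
  -- the decomposition of the inversion set of `b`
  have c1 : inver cs b = (A \ P) ∪ (C.filter fun β => 0 ≤ rr M d β).image (rr M d) := by
    ext γ
    rw [hmemb, Finset.mem_union, Finset.mem_sdiff, Finset.mem_image]
    constructor
    · rintro ⟨g1, g2, g3⟩
      have g1' : IsRoot cs (rr M d γ) := hd.reflect g1
      rcases g1'.pos_or_neg h0 with g4 | g4
      · have hne : rr M d γ ≠ d := by
          intro h5
          have : γ = -d := by rw [← rr_rr hd γ, h5, hrd]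
          exact hne_neg γ g2 this
        have hγd : γ ≠ d := by
          rintro rfl
          rw [hrd] at g4
          exact hd.not_both hd0 (neg_nonneg.mp g4)
        by_cases hγA : γ ∈ A
        · left
          refine ⟨hγA, ?_⟩
          rw [hP, crossing, Finset.mem_filter]
          rintro ⟨-, h6⟩
          rw [mem_inver] at h6
          exact g1'.not_both g4 (neg_nonneg.mp h6.2.1)
        · right
          refine ⟨rr M d γ, ?_, rr_rr hd γ⟩
          rw [Finset.mem_filter, hC, Finset.mem_sdiff, Finset.mem_insert, rr_rr hd]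
          refine ⟨⟨?_, ?_⟩, g2⟩
          · rw [hR, mem_inver]; exact ⟨g1', g4, g3⟩
          · rintro (h7 | h7)
            · exact hne h7
            · apply hγA
              rw [hA, mem_inver] at h7 ⊢
              refine ⟨g1, g2, ?_⟩
              have := F1 _ g1' hne (hne_neg _ g4) h7.2.2
              rwa [rr_rr hd] at this
      · left
        have h6 : - rr M d γ ∉ R := by
          rw [hR, notMem_inver g1'.neg (neg_nonneg.mpr g4), map_neg]
          exact neg_nonneg.mpr g3
        have hγd : γ ≠ d := by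
          rintro rfl
          apply h6
          rw [hrd, neg_neg]; exact hdr
        constructor
        · by_contra h7
          rw [hA, notMem_inver g1 g2] at h7
          have h8 := F2 γ g1 hγd (hne_neg γ g2) h7
          apply h6
          apply hsub
          rw [mem_inver]
          exact ⟨g1'.neg, neg_nonneg.mpr g4, by rw [map_neg]; exact neg_nonpos.mpr h8⟩
        · rw [hP, crossing, Finset.mem_filter]
          rintro ⟨-, h7⟩
          exact h6 h7
    · rintro (⟨h1, h2⟩ | ⟨β, h1, rfl⟩)
      · have h1' := h1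
        rw [hA, mem_inver] at h1'
        obtain ⟨g1, g2, g3⟩ := h1'
        refine ⟨g1, g2, ?_⟩
        have g1' : IsRoot cs (rr M d γ) := hd.reflect g1
        have hγd : γ ≠ d := by rintro rfl; exact hdA h1
        rcases g1'.pos_or_neg h0 with g4 | g4
        · have h5 : rr M d γ ∈ A := by
            rw [hA, mem_inver]
            exact ⟨g1', g4, F1 γ g1 hγd (hne_neg γ g2) g3⟩
          have h6 := hsub h5
          rw [hR, mem_inver] at h6
          exact h6.2.2
        · have h5 : - rr M d γ ∉ R := by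
            intro h6
            apply h2
            rw [hP, crossing, Finset.mem_filter]
            exact ⟨h1, h6⟩
          rw [hR, notMem_inver g1'.neg (neg_nonneg.mpr g4), map_neg] at h5
          exact neg_nonneg.mp h5
      · rw [Finset.mem_filter, hC, Finset.mem_sdiff, hR, mem_inver] at h1
        obtain ⟨⟨⟨g1, g2, g3⟩, -⟩, g4⟩ := h1
        refine ⟨hd.reflect g1, g4, ?_⟩
        rw [rr_rr hd]; exact g3
  have hdisj : Disjoint (A \ P) ((C.filter fun β => 0 ≤ rr M d β).image (rr M d)) := by
    rw [Finset.disjoint_left]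
    intro γ h1 h2
    rw [Finset.mem_sdiff] at h1
    rw [Finset.mem_image] at h2
    obtain ⟨β, h2, rfl⟩ := h2
    rw [Finset.mem_filter, hC, Finset.mem_sdiff, Finset.mem_insert] at h2
    obtain ⟨⟨h3, h4⟩, h5⟩ := h2
    rw [hR, mem_inver] at h3
    apply h4
    right
    have h6 := h1.1
    rw [hA, mem_inver] at h6 ⊢
    refine ⟨h3.1, h3.2.1, ?_⟩
    have h7 : rr M d β ≠ d := by
      intro h8; rw [h8] at h1; exact hdA h1.1
    have := F1 _ h6.1 h7 (hne_neg _ h6.2.1) h6.2.2
    rwa [rr_rr hd] at this
  have hinj : Set.InjOn (rr M d) (C.filter fun β => 0 ≤ rr M d β) := by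
    intro x _ y _ hxy
    have := congrArg (rr M d) hxy
    simpa only [rr_rr hd] using this
  have s1 : ∑ β ∈ inver cs b, G β =
      ∑ β ∈ A \ P, G β + ∑ β ∈ C.filter (fun β => 0 ≤ rr M d β), G (rr M d β) := by
    rw [c1, Finset.sum_union hdisj, Finset.sum_image hinj]
  have hPA : P ⊆ A := by
    rw [hP, crossing]; exact Finset.filter_subset _ _
  have s2 : ∑ β ∈ A, G β = ∑ β ∈ A \ P, G β + ∑ β ∈ P, G β := by
    rw [Finset.sum_sdiff hPA]
  have s3 : ∑ β ∈ C, G (rr M d β) = ∑ β ∈ C.filter (fun β => 0 ≤ rr M d β), G (rr M d β) +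
      ∑ β ∈ C.filter (fun β => ¬ 0 ≤ rr M d β), G (rr M d β) := by
    rw [Finset.sum_filter_add_sum_filter_not]
  have s4 : ∑ β ∈ C.filter (fun β => ¬ 0 ≤ rr M d β), G (rr M d β) = ∑ β ∈ P, G β := by
    refine Finset.sum_nbij' (fun β => - rr M d β) (fun β => - rr M d β) ?_ ?_ ?_ ?_ ?_
    · intro β hβ
      rw [Finset.mem_filter, hC, Finset.mem_sdiff, Finset.mem_insert] at hβ
      obtain ⟨⟨h1, h2⟩, h3⟩ := hβ
      have h1' := h1
      rw [hR, mem_inver] at h1'
      obtain ⟨g1, g2, g3⟩ := h1'
      have g1' : IsRoot cs (rr M d β) := hd.reflect g1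
      rw [g1'.not_nonneg_iff h0] at h3
      push Not at h2
      rw [hP, crossing, Finset.mem_filter]
      constructor
      · rw [mem_inver]
        refine ⟨g1'.neg, neg_nonneg.mpr h3, ?_⟩
        have h4 : 0 ≤ act cs a⁻¹ β := by
          rw [← notMem_inver g1 g2]; exact h2.2
        have := F2 β g1 h2.1 (hne_neg β g2) h4
        rw [map_neg]; exact neg_nonpos.mpr this
      · rw [rr_neg, rr_rr hd, neg_neg]; exact h1
    · intro β hβ
      rw [hP, crossing, Finset.mem_filter] at hβ
      obtain ⟨h1, h2⟩ := hβ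
      have h1' := h1
      rw [mem_inver] at h1'
      obtain ⟨g1, g2, g3⟩ := h1'
      have g1' : IsRoot cs (rr M d β) := hd.reflect g1
      have hβd : β ≠ d := by rintro rfl; exact hdA h1
      rw [Finset.mem_filter, hC, Finset.mem_sdiff, Finset.mem_insert]
      refine ⟨⟨h2, ?_⟩, ?_⟩
      · rintro (h3 | h3)
        · apply hβd
          have h4 : rr M d β = -d := neg_eq_iff_eq_neg.mp h3
          calc β = rr M d (rr M d β) := by rw [rr_rr hd]
            _ = rr M d (-d) := by rw [h4]
            _ = d := by rw [rr_neg, hrd, neg_neg]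
        · rw [hA, mem_inver, map_neg] at h3
          have h4 := F1 β g1 hβd (hne_neg β g2) g3
          exact (g1'.image a⁻¹).not_both (neg_nonpos.mp h3.2.2) h4
      · rw [rr_neg, rr_rr hd]
        intro h5
        exact g1.not_both g2 (neg_nonneg.mp h5)
    · intro β _
      simp only [rr_neg, rr_rr hd, neg_neg]
    · intro β _
      simp only [rr_neg, rr_rr hd, neg_neg]
    · intro β _
      rw [hG]
  rw [s1, s2, s3, s4]
  ring

end H57
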