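import Pool.Agent.H57.Comp

/-!
# Unfolding of a Coxeter matrix with labels 2, 3, 5
-/

set_option linter.unusedSectionVars false

open Finset CoxeterSystem

namespace H57

variable {B : Type*} [Fintype B] [DecidableEq B]
variable {W : Type*} [Group W] {M : CoxeterMatrix B}

/-! ### Finiteness criterion -/

/-- vectors with integer coordinates -/
def IsInt (v : B → ℝ) : Prop := ∀ p, ∃ n : ℤ, v p = n

/-- the action is faithful -/
lemma act_faithful (cs : CoxeterSystem M W) (h0 : ∀ s t, M s t ≠ 0) {w w' : W}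
    (h : act cs w = act cs w') : w = w' := by
  by_contra hne
  have h1 : w'⁻¹ * w ≠ 1 := by
    intro h2; apply hne; rw [inv_mul_eq_one] at h2; exact h2.symm
  obtain ⟨s, hs⟩ := cs.exists_rightDescent_of_ne_one h1
  have h2 := act_al_nonpos cs h0 _ s hs
  rw [act_mul, h, act_inv_act] at h2
  exact (isRoot_al cs s).not_both (al_nonneg s) h2

theorem finite_of_roots (cs : CoxeterSystem M W) (h0 : ∀ s t, M s t ≠ 0) (R : Set (B → ℝ))
    (hR : R.Finite) (h : ∀ w s, act cs w (al s) ∈ R) : Finite W := by
  have := hR.to_subtype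
  apply Finite.of_injective (fun (w : W) (s : B) => (⟨act cs w (al s), h w s⟩ : R))
  intro w w' hww'
  apply act_faithful cs h0
  refine LinearMap.ext fun x => ?_
  conv_lhs => rw [eq_sum_al x]
  conv_rhs => rw [eq_sum_al x]
  rw [map_sum, map_sum]
  refine Finset.sum_congr rfl fun s _ => ?_
  rw [map_smul, map_smul]
  congr 1
  have := congrFun hww' s
  simpa using this

lemma finite_int_box (K : ℝ) : {v : B → ℝ | IsInt v ∧ ∀ p, |v p| ≤ K}.Finite := by
  obtain ⟨N, hN⟩ := exists_nat_ge K
  have h1 : (Set.Icc (fun _ : B => -(N : ℤ)) (fun _ => (N : ℤ))).Finite := Set.finite_Icc _ _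
  refine (h1.image (fun v p => ((v p : ℤ) : ℝ))).subset ?_
  rintro v ⟨hv, hb⟩
  choose n hn using hv
  refine ⟨n, ?_, ?_⟩
  · rw [Set.mem_Icc]
    constructor
    · intro p
      have h2 := hb p
      rw [hn, abs_le] at h2
      have : -(N : ℝ) ≤ n p := by linarith [h2.1]
      exact_mod_cast this
    · intro p
      have h2 := hb p
      rw [hn, abs_le] at h2
      have : (n p : ℝ) ≤ N := by linarith [h2.2]
      exact_mod_cast this
  · funext p; exact (hn p).symm

lemma form_expand_right (A : B → B → ℝ) (x y : B → ℝ) :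
    form A x y = ∑ t, y t * form A x (al t) := by
  conv_lhs => rw [eq_sum_al y]
  rw [map_sum]
  refine Finset.sum_congr rfl fun t _ => ?_
  rw [map_smul, smul_eq_mul]

lemma isInt_al (s : B) : IsInt (al s) := by
  intro p
  by_cases hp : p = s
  · subst hp; exact ⟨1, by simp⟩
  · exact ⟨0, by simp [al_ne hp]⟩

lemma IsInt.form {A : B → B → ℝ} (hA : ∀ s t, ∃ n : ℤ, A s t = n) {x y : B → ℝ} (hx : IsInt x)
    (hy : IsInt y) : ∃ n : ℤ, H57.form A x y = n := by
  choose g hg using hA
  choose a ha using hx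
  choose b hb using hy
  refine ⟨∑ s, ∑ t, a s * g s t * b t, ?_⟩
  rw [form_apply]
  push_cast
  simp only [ha, hg, hb]

lemma IsInt.act (cs : CoxeterSystem M W) (hA : ∀ s t, ∃ n : ℤ, gram M s t = n) {x : B → ℝ}
    (hx : IsInt x) (w : W) : IsInt (H57.act cs w x) := by
  induction w using cs.simple_induction_left with
  | one => simpa using hx
  | mul_simple_left w s ih =>
    rw [act_mul]
    intro p
    obtain ⟨n, hn⟩ := ih p
    by_cases hp : p = s
    · subst hp
      obtain ⟨m, hm⟩ := IsInt.form hA ih (isInt_al p)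
      refine ⟨n - m, ?_⟩
      rw [act_simple, sref_apply_self, hn, hm]; push_cast; ring
    · exact ⟨n, by rw [act_simple, sref_apply_of_ne _ hp, hn]⟩

/-! ### The unfolded matrix -/

/-- labels of the unfolding -/
def lab (m : ℕ) (i j : Bool) : ℕ :=
  if m = 3 then (if i = j then 3 else 2)
  else if m = 5 then (if i = false ∧ j = false then 2 else 3)
  else 2

lemma lab_comm (m : ℕ) (i j : Bool) : lab m i j = lab m j i := by
  unfold lab
  cases i <;> cases j <;> simp

lemma lab_cases (m : ℕ) (i j : Bool) : lab m i j = 2 ∨ lab m i j = 3 := by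
  unfold lab
  split_ifs <;> simp

open Classical in
/-- the unfolded Coxeter matrix -/
noncomputable def unf (M : CoxeterMatrix B) (C : Set B) : CoxeterMatrix (B × Bool) where
  M := Matrix.of fun x y =>
    if x = y then 1 else if x.1 ∈ C ∧ y.1 ∈ C then lab (M x.1 y.1) x.2 y.2 else 2
  isSymm := by
    refine Matrix.IsSymm.ext fun x y => ?_
    simp only [Matrix.of_apply]
    rw [M.symmetric y.1 x.1, lab_comm _ y.2 x.2]
    simp only [eq_comm (a := y) (b := x), and_comm (a := y.1 ∈ C)]
  diagonal x := by simp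
  off_diagonal x y h := by
    simp only [Matrix.of_apply, h, if_false]
    split_ifs
    · rcases lab_cases (M x.1 y.1) x.2 y.2 with h1 | h1 <;> omega
    · omega

open Classical in
lemma unf_apply (C : Set B) (x y : B × Bool) : unf M C x y =
    if x = y then 1 else if x.1 ∈ C ∧ y.1 ∈ C then lab (M x.1 y.1) x.2 y.2 else 2 := rfl

lemma unf_ne_zero (C : Set B) (x y : B × Bool) : unf M C x y ≠ 0 := by
  rw [unf_apply]
  split_ifs
  · omega
  · rcases lab_cases (M x.1 y.1) x.2 y.2 with h1 | h1 <;> omega
  · omega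

open Classical in
lemma gram_unf (C : Set B) (x y : B × Bool) : gram (unf M C) x y =
    if x = y then 2 else if x.1 ∈ C ∧ y.1 ∈ C ∧ lab (M x.1 y.1) x.2 y.2 = 3 then -1 else 0 := by
  rw [gram, unf_apply]
  by_cases h1 : x = y
  · simp [h1]
  · rw [if_neg h1, if_neg h1]
    by_cases h2 : x.1 ∈ C ∧ y.1 ∈ C
    · rw [if_pos h2]
      rcases lab_cases (M x.1 y.1) x.2 y.2 with h3 | h3
      · rw [h3, if_neg (by omega)]; simp
      · rw [h3, if_pos ⟨h2.1, h2.2, rfl⟩]; push_cast; rw [Real.cos_pi_div_three]; norm_num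
    · rw [if_neg h2, if_neg (fun h => h2 ⟨h.1, h.2.1⟩)]; simp

lemma gram_unf_int (C : Set B) (x y : B × Bool) : ∃ n : ℤ, gram (unf M C) x y = n := by
  rw [gram_unf]
  split_ifs
  · exact ⟨2, by simp⟩
  · exact ⟨-1, by simp⟩
  · exact ⟨0, by simp⟩

/-- A root `θ` of `X² - X - 1` together with the corresponding form. -/
structure Th (M : CoxeterMatrix B) (θ : ℝ) (A : B → B → ℝ) : Prop where
  compat : Compat M A
  sq : θ ^ 2 = θ + 1
  two : ∀ s t, M s t = 2 → A s t = 0
  three : ∀ s t, M s t = 3 → A s t = -1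
  five : ∀ s t, M s t = 5 → A s t = -θ

/-- the projection -/
noncomputable def PP (θ : ℝ) : (B × Bool → ℝ) →ₗ[ℝ] (B → ℝ) where
  toFun x := fun s => x (s, false) + θ * x (s, true)
  map_add' x y := by funext s; simp; ring
  map_smul' c x := by funext s; simp; ring

lemma PP_apply (θ : ℝ) (x : B × Bool → ℝ) (s : B) :
    PP θ x s = x (s, false) + θ * x (s, true) := rfl

/-- `θ^i` -/
noncomputable def pw (θ : ℝ) (i : Bool) : ℝ := if i then θ else 1

@[simp] lemma pw_true (θ : ℝ) : pw θ true = θ := rfl
@[simp] lemma pw_false (θ : ℝ) : pw θ false = 1 := rfl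

lemma PP_al (θ : ℝ) (s : B) (i : Bool) : PP θ (al (s, i)) = pw θ i • al s := by
  funext p
  rw [PP_apply]
  by_cases hp : p = s
  · subst hp
    cases i
    · have h1 : ((p, true) : B × Bool) ≠ (p, false) := by simp
      simp [al_ne h1]
    · have h1 : ((p, false) : B × Bool) ≠ (p, true) := by simp
      simp [al_ne h1]
  · have h1 : ∀ j, ((p, j) : B × Bool) ≠ (s, i) := by intro j h; exact hp (congrArg Prod.fst h)
    simp [al_ne (h1 false), al_ne (h1 true), al_ne hp]

section

variable {C : Set B} (hC : Closed M C)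
  (hlab : ∀ s t, s ∈ C → t ∈ C → s ≠ t → M s t = 2 ∨ M s t = 3 ∨ M s t = 5)

include hC hlab

lemma gram_unf_theta {θ : ℝ} {A : B → B → ℝ} (hT : Th M θ A) {s : B} (hs : s ∈ C) (p : B)
    (i : Bool) : gram (unf M C) (p, i) (s, false) + θ * gram (unf M C) (p, i) (s, true) =
      pw θ i * A p s := by
  classical
  rw [gram_unf, gram_unf]
  have hsq := hT.sq
  by_cases hp : p ∈ C
  · by_cases hps : p = s
    · subst hps
      have hl : ∀ a b, lab 1 a b ≠ 3 := by
        intro a b; simp [lab]
      cases i <;> simp [hT.compat.diag, hl]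
    · have h1 : ∀ j k : Bool, ((p, j) : B × Bool) ≠ (s, k) := by
        intro j k h; exact hps (congrArg Prod.fst h)
      rw [if_neg (h1 _ _), if_neg (h1 _ _)]
      rcases hlab p s hp hs hps with h | h | h
      · rw [hT.two p s h]; simp only [h]; simp [lab]
      · rw [hT.three p s h]; simp only [h]
        cases i <;> simp [lab, hp, hs]
      · rw [hT.five p s h]; simp only [h]
        cases i
        · simp [lab, hp, hs]
        · simp [lab, hp, hs]
          linear_combination hsq
  · have hps : p ≠ s := by rintro rfl; exact hp hs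
    have h1 : ∀ j k : Bool, ((p, j) : B × Bool) ≠ (s, k) := by
      intro j k h; exact hps (congrArg Prod.fst h)
    rw [if_neg (h1 _ _), if_neg (h1 _ _), if_neg (by tauto), if_neg (by tauto)]
    have h2 : M p s = 2 := by
      by_contra h3
      exact hp (hC s p hs (Ne.symm hps) (by rw [M.symmetric]; exact h3))
    rw [hT.two p s h2]; simp

lemma form_PP_al {θ : ℝ} {A : B → B → ℝ} (hT : Th M θ A) {s : B} (hs : s ∈ C)
    (x : B × Bool → ℝ) : form A (PP θ x) (al s) =
      ipr (unf M C) x (al (s, false)) + θ * ipr (unf M C) x (al (s, true)) := by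
  rw [ipr, form_al_right, form_al_right, form_al_right, Finset.mul_sum, ← Finset.sum_add_distrib,
    Fintype.sum_prod_type]
  refine Finset.sum_congr rfl fun p _ => ?_
  rw [Fintype.sum_bool, PP_apply]
  have h1 := gram_unf_theta hC hlab hT hs p false
  have h2 := gram_unf_theta hC hlab hT hs p true
  simp only [pw_true, pw_false, one_mul] at h1 h2
  linear_combination (-x (p, false)) * h1 - x (p, true) * h2

/-- the second component of the form -/
noncomputable def qf (M : CoxeterMatrix B) (C : Set B) (x y : B × Bool → ℝ) : ℝ :=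
  ∑ s, (y (s, false) * ipr (unf M C) x (al (s, true)) +
    y (s, true) * (ipr (unf M C) x (al (s, false)) + ipr (unf M C) x (al (s, true))))

/-- vectors supported above `C` -/
def SupB (C : Set B) (y : B × Bool → ℝ) : Prop := ∀ s i, s ∉ C → y (s, i) = 0

/-- the key identity -/
theorem form_PP {θ : ℝ} {A : B → B → ℝ} (hT : Th M θ A) (x y : B × Bool → ℝ) (hy : SupB C y) :
    form A (PP θ x) (PP θ y) = ipr (unf M C) x y + θ * qf M C x y := by
  have hsq := hT.sq
  rw [form_expand_right A, qf, ipr, form_expand_right (gram (unf M C)) x y,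
    Fintype.sum_prod_type, Finset.mul_sum, ← Finset.sum_add_distrib]
  refine Finset.sum_congr rfl fun s _ => ?_
  rw [Fintype.sum_bool]
  by_cases hs : s ∈ C
  · rw [form_PP_al hC hlab hT hs, PP_apply]
    rw [ipr]
    linear_combination (y (s, true) * form (gram (unf M C)) x (al (s, true))) * hsq
  · rw [PP_apply, hy s false hs, hy s true hs]; simp

end

end H57
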