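import Pool.Agent.H57.Unf

/-!
# The unfolded group is finite
-/

set_option linter.unusedSectionVars false

open Finset CoxeterSystem goldenRatio

namespace H57

variable {B : Type*} [Fintype B] [DecidableEq B]
variable {W : Type*} [Group W] {M : CoxeterMatrix B}


lemma gram_five {s t : B} (h : M s t = 5) : gram M s t = -φ := by
  rw [gram, h]; push_cast; rw [Real.cos_pi_div_five, Real.goldenRatio]; ring

lemma th_gold (M : CoxeterMatrix B) : Th M φ (gram M) where
  compat := gram_compat M
  sq := Real.goldenRatio_sq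
  two _ _ h := by simp [gram, h]
  three _ _ h := gram_three h
  five _ _ h := gram_five h

/-- the conjugate form -/
noncomputable def conjA (M : CoxeterMatrix B) (s t : B) : ℝ :=
  if M s t = 5 then -2 * Real.cos (3 * Real.pi / 5) else gram M s t

lemma cos_three : -2 * Real.cos (3 * Real.pi / 5) = -ψ := by
  have h1 : 3 * Real.pi / 5 = Real.pi - 2 * (Real.pi / 5) := by ring
  rw [h1, Real.cos_pi_sub, Real.cos_two_mul, Real.cos_pi_div_five, Real.goldenConj]
  have : √5 ^ 2 = 5 := Real.sq_sqrt (by norm_num)
  linear_combination (1 / 4 : ℝ) * this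

lemma th_conj (M : CoxeterMatrix B) : Th M ψ (conjA M) where
  compat :=
    { symm := by intro s t; rw [conjA, conjA, M.symmetric s t, (gram_compat M).symm s t]
      diag := by intro s; rw [conjA, M.diagonal, if_neg (by norm_num), (gram_compat M).diag]
      rel := by
        intro s t hst h0
        by_cases h : M s t = 5
        · refine ⟨3 * Real.pi / 5, 3, by rw [conjA, if_pos h], ?_, ?_⟩
          · apply ne_of_gt
            apply Real.sin_pos_of_pos_of_lt_pi
            · positivity
            · have := Real.pi_pos; linarith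
          · rw [h]; push_cast; ring
        · rw [conjA, if_neg h]
          exact (gram_compat M).rel s t hst h0 }
  sq := Real.goldenConj_sq
  two _ _ h := by rw [conjA, if_neg (by omega)]; simp [gram, h]
  three _ _ h := by rw [conjA, if_neg (by omega)]; exact gram_three h
  five _ _ h := by rw [conjA, if_pos h, cos_three]

lemma supB_iff (C : Set B) (y : B × Bool → ℝ) : SupB C y ↔ SupC {x : B × Bool | x.1 ∈ C} y := by
  constructor
  · rintro h ⟨s, i⟩ hp; exact h s i hp
  · intro h s i hs; exact h (s, i) hs

lemma closed_up (C : Set B) : Closed (unf M C) {x : B × Bool | x.1 ∈ C} := by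
  classical
  intro x y hx hxy hM
  by_contra hy
  apply hM
  rw [unf_apply, if_neg hxy, if_neg (fun h => hy h.2)]

lemma closed_single (C : Set B) {x : B × Bool} (hx : x.1 ∉ C) : Closed (unf M C) {x} := by
  classical
  intro y z hy hyz hM
  exfalso
  apply hM
  rw [Set.mem_singleton_iff] at hy
  subst hy
  rw [unf_apply, if_neg hyz, if_neg (fun h => hx h.1)]

section

variable (cs : CoxeterSystem M W) [Finite W] {C : Set B} (hC : Closed M C)
  (hlab : ∀ s t, s ∈ C → t ∈ C → s ≠ t → M s t = 2 ∨ M s t = 3 ∨ M s t = 5)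

include cs hC hlab

lemma bound_of_norm : ∃ K : ℝ, ∀ x : B × Bool → ℝ, SupB C x → ipr (unf M C) x x = 2 →
    ∀ p, |x p| ≤ K := by
  obtain ⟨c, hc, h1⟩ := form_coercive cs (gram_compat M)
  obtain ⟨c', hc', h1'⟩ := form_coercive cs (th_conj M).compat
  refine ⟨4 * (√(8 / c) + √(8 / c')), ?_⟩
  intro x hx hn
  have k1 := form_PP hC hlab (th_gold M) x x hx
  have k2 := form_PP hC hlab (th_conj M) x x hx
  rw [hn] at k1 k2
  set q := qf M C x x with hq
  have g1 := form_nonneg cs (gram_compat M) (PP φ x)
  have g2 := form_nonneg cs (th_conj M).compat (PP ψ x)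
  have s5 : (2.236 : ℝ) ≤ √5 := by apply Real.le_sqrt_of_sq_le; norm_num
  have s5' : √5 ≤ 2.237 := by
    rw [Real.sqrt_le_left (by norm_num)]; norm_num
  have hφ : φ = (1 + √5) / 2 := rfl
  have hψ : ψ = (1 - √5) / 2 := rfl
  have p1 : (1.618 : ℝ) ≤ φ := by rw [hφ]; linarith
  have p2 : φ ≤ 1.6185 := by rw [hφ]; linarith
  have p3 : ψ ≤ -0.618 := by rw [hψ]; linarith
  have p4 : (-0.6185 : ℝ) ≤ ψ := by rw [hψ]; linarith
  rw [k1] at g1
  rw [k2] at g2
  have q1 : q ≤ 3.3 := by nlinarith
  have q2 : -1.3 ≤ q := by nlinarith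
  have f1 : form (gram M) (PP φ x) (PP φ x) ≤ 8 := by rw [k1]; nlinarith
  have f2 : form (conjA M) (PP ψ x) (PP ψ x) ≤ 8 := by rw [k2]; nlinarith
  have b1 : ∀ s, |PP φ x s| ≤ √(8 / c) := by
    intro s
    apply Real.abs_le_sqrt
    rw [le_div_iff₀ hc]
    have h2 := h1 (PP φ x)
    have h3 := Finset.single_le_sum (f := fun s => PP φ x s ^ 2) (fun _ _ => sq_nonneg _)
      (Finset.mem_univ s)
    nlinarith
  have b2 : ∀ s, |PP ψ x s| ≤ √(8 / c') := by
    intro s
    apply Real.abs_le_sqrt
    rw [le_div_iff₀ hc']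
    have h2 := h1' (PP ψ x)
    have h3 := Finset.single_le_sum (f := fun s => PP ψ x s ^ 2) (fun _ _ => sq_nonneg _)
      (Finset.mem_univ s)
    nlinarith
  have hK1 : 0 ≤ √(8 / c) := Real.sqrt_nonneg _
  have hK2 : 0 ≤ √(8 / c') := Real.sqrt_nonneg _
  rintro ⟨s, i⟩
  have e1 := b1 s
  have e2 := b2 s
  have u1 : PP φ x s = x (s, false) + φ * x (s, true) := PP_apply _ _ _
  have u2 : PP ψ x s = x (s, false) + ψ * x (s, true) := PP_apply _ _ _
  rw [abs_le] at e1 e2
  have e3 : x (s, true) * √5 = PP φ x s - PP ψ x s := by rw [u1, u2, hφ, hψ]; ring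
  have e4 : |x (s, true)| ≤ √(8 / c) + √(8 / c') := by
    rw [abs_le]
    constructor
    · by_contra hcon
      push Not at hcon
      nlinarith
    · by_contra hcon
      push Not at hcon
      nlinarith
  have e5 : x (s, false) = PP φ x s - φ * x (s, true) := by rw [u1]; ring
  have e6 : |x (s, false)| ≤ 4 * (√(8 / c) + √(8 / c')) := by
    rw [abs_le] at e4
    rw [e5, abs_le]
    constructor
    · nlinarith
    · nlinarith
  cases i
  · exact e6
  · linarith

/-- the unfolded Coxeter group is finite -/
theorem finite_unf : Finite (unf M C).Group := by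
  obtain ⟨K, hK⟩ := bound_of_norm cs hC hlab
  refine finite_of_roots (unf M C).toCoxeterSystem (unf_ne_zero C) _ (finite_int_box (max K 1)) ?_
  rintro w ⟨s, i⟩
  refine ⟨(isInt_al _).act _ (gram_unf_int C) w, ?_⟩
  have hroot : IsRoot (unf M C).toCoxeterSystem (act (unf M C).toCoxeterSystem w (al (s, i))) :=
    (isRoot_al _ _).image _
  by_cases hs : s ∈ C
  · have h1 : SupB C (act (unf M C).toCoxeterSystem w (al (s, i))) := by
      rw [supB_iff]
      apply SupC.act _ (closed_up C)
      apply SupC.al
      exact hs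
    intro p
    exact (hK _ h1 hroot.ipr_self p).trans (le_max_left _ _)
  · have h1 : SupC {(s, i)} (act (unf M C).toCoxeterSystem w (al (s, i))) := by
      apply SupC.act _ (closed_single C hs)
      apply SupC.al
      exact Set.mem_singleton _
    intro p
    refine le_trans ?_ (le_max_right _ _)
    by_cases hp : p = (s, i)
    · subst hp
      have h2 := hroot.ipr_self
      set v := act (unf M C).toCoxeterSystem w (al (s, i)) with hv
      have h3 : v = v (s, i) • al (s, i) := by
        funext p
        by_cases hp : p = (s, i)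
        · subst hp; simp
        · simp [al_ne hp, h1 p hp]
      rw [h3, ipr] at h2
      simp only [map_smul, LinearMap.smul_apply, form_al_al, (gram_compat (unf M C)).diag,
        smul_eq_mul] at h2
      have h4 : v (s, i) ^ 2 = 1 := by nlinarith
      exact le_of_eq (by rw [← sq_eq_sq₀ (abs_nonneg _) zero_le_one, sq_abs, h4]; norm_num)
    · rw [h1 p hp]; simp

end

end H57
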