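import Pool.Agent.H57.Roots

/-!
# Flagged words

A flagged word is a list of pairs `(s, b)`; the letter `s` is used if `b = true` and skipped
otherwise.
-/

set_option linter.unusedSectionVars false

open Finset CoxeterSystem

namespace H57

variable {B : Type*} [Fintype B] [DecidableEq B]
variable {W : Type*} [Group W] {M : CoxeterMatrix B}

lemma nil_or_append {α : Type*} (L : List α) : L = [] ∨ ∃ L' y, L = L' ++ [y] := by
  rcases List.eq_nil_or_concat L with h | ⟨L', y, h⟩
  · exact Or.inl h
  · exact Or.inr ⟨L', y, by rw [h, List.concat_eq_append]⟩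

/-- The product of the used letters. -/
def pr (cs : CoxeterSystem M W) (L : List (B × Bool)) : W :=
  (L.map fun x => if x.2 then cs.simple x.1 else 1).prod

@[simp] lemma pr_nil (cs : CoxeterSystem M W) : pr cs [] = 1 := by simp [pr]

@[simp] lemma pr_cons_true (cs : CoxeterSystem M W) (s : B) (L : List (B × Bool)) :
    pr cs ((s, true) :: L) = cs.simple s * pr cs L := by simp [pr]

@[simp] lemma pr_cons_false (cs : CoxeterSystem M W) (s : B) (L : List (B × Bool)) :
    pr cs ((s, false) :: L) = pr cs L := by simp [pr]

@[simp] lemma pr_append (cs : CoxeterSystem M W) (L L' : List (B × Bool)) :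
    pr cs (L ++ L') = pr cs L * pr cs L' := by simp [pr]

/-- number of used letters -/
def cnt (L : List (B × Bool)) : ℕ := L.countP (·.2)

@[simp] lemma cnt_nil : cnt ([] : List (B × Bool)) = 0 := by simp [cnt]
@[simp] lemma cnt_cons_true (s : B) (L : List (B × Bool)) :
    cnt ((s, true) :: L) = cnt L + 1 := by simp [cnt]
@[simp] lemma cnt_cons_false (s : B) (L : List (B × Bool)) :
    cnt ((s, false) :: L) = cnt L := by simp [cnt]
@[simp] lemma cnt_append (L L' : List (B × Bool)) : cnt (L ++ L') = cnt L + cnt L' := by
  simp [cnt]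

/-- A flagged word is reduced if its used letters form a reduced word. -/
def Red (cs : CoxeterSystem M W) (L : List (B × Bool)) : Prop :=
  cs.length (pr cs L) = cnt L

lemma length_pr_le (cs : CoxeterSystem M W) (L : List (B × Bool)) :
    cs.length (pr cs L) ≤ cnt L := by
  induction L with
  | nil => simp
  | cons x L ih =>
    obtain ⟨s, b⟩ := x
    cases b
    · simpa using ih
    · rw [pr_cons_true, cnt_cons_true]
      have := cs.length_mul_le (cs.simple s) (pr cs L)
      rw [cs.length_simple] at this
      omega

lemma Red.left {cs : CoxeterSystem M W} {L L' : List (B × Bool)} (h : Red cs (L ++ L')) :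
    Red cs L := by
  unfold Red at *
  rw [pr_append, cnt_append] at h
  have h1 := cs.length_mul_le (pr cs L) (pr cs L')
  have h2 := length_pr_le cs L
  have h3 := length_pr_le cs L'
  omega

lemma Red.right {cs : CoxeterSystem M W} {L L' : List (B × Bool)} (h : Red cs (L ++ L')) :
    Red cs L' := by
  unfold Red at *
  rw [pr_append, cnt_append] at h
  have h1 := cs.length_mul_le (pr cs L) (pr cs L')
  have h2 := length_pr_le cs L
  have h3 := length_pr_le cs L'
  omega

lemma Red.length_append {cs : CoxeterSystem M W} {L L' : List (B × Bool)} (h : Red cs (L ++ L')) :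
    cs.length (pr cs L * pr cs L') = cs.length (pr cs L) + cs.length (pr cs L') := by
  have h1 := h.left
  have h2 := h.right
  unfold Red at *
  rw [pr_append, cnt_append] at h
  omega

lemma Red.root_nonneg {cs : CoxeterSystem M W} [Finite W] {L L' : List (B × Bool)} {s : B}
    (h : Red cs (L ++ (s, true) :: L')) : 0 ≤ act cs (pr cs L) (al s) := by
  apply act_al_nonneg cs (M_ne_zero cs)
  have e : L ++ (s, true) :: L' = (L ++ [(s, true)]) ++ L' := by simp
  rw [e] at h
  have h1 := h.left
  have h2 := h1.left
  unfold Red at h1 h2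
  simp at h1
  rw [h1, h2]
  omega

lemma red_append_true {cs : CoxeterSystem M W} [Finite W] {L : List (B × Bool)} {s : B}
    (h : Red cs L) (hs : 0 ≤ act cs (pr cs L) (al s)) : Red cs (L ++ [(s, true)]) := by
  rw [act_al_nonneg_iff cs (M_ne_zero cs)] at hs
  have := cs.length_mul_simple (pr cs L) s
  unfold Red at *
  simp
  omega

lemma red_append_false {cs : CoxeterSystem M W} {L : List (B × Bool)} {s : B} :
    Red cs (L ++ [(s, false)]) ↔ Red cs L := by
  unfold Red; simp

section

variable {cs : CoxeterSystem M W} [Finite W]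

/-- the inversions of the product of a reduced flagged word are the roots of the used letters. -/
lemma mem_inver_pr {L : List (B × Bool)} (h : Red cs L) (v : B → ℝ) :
    v ∈ inver cs (pr cs L) ↔
      ∃ L₁ s L₂, L = L₁ ++ (s, true) :: L₂ ∧ v = act cs (pr cs L₁) (al s) := by
  classical
  induction L using List.reverseRecOn with
  | nil =>
    simp [inver_one]
  | append_singleton L x ih =>
    obtain ⟨s, b⟩ := x
    have hL := h.left
    cases b with
    | false =>
      rw [pr_append, pr_cons_false, pr_nil, mul_one, ih hL]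
      constructor
      · rintro ⟨L₁, s', L₂, rfl, rfl⟩
        exact ⟨L₁, s', L₂ ++ [(s, false)], by simp, rfl⟩
      · rintro ⟨L₁, s', L₂, he, rfl⟩
        rcases nil_or_append L₂ with rfl | ⟨L₂', y, rfl⟩
        · have := congrArg List.getLast? he
          simp at this
        · refine ⟨L₁, s', L₂', ?_, rfl⟩
          have e : L₁ ++ (s', true) :: (L₂' ++ [y]) = (L₁ ++ (s', true) :: L₂') ++ [y] := by simp
          rw [e] at he
          exact (List.append_inj' he rfl).1
    | true =>
      have hpos := h.root_nonneg (L' := [])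
      rw [pr_append, pr_cons_true, pr_nil, mul_one, inver_mul_simple hpos, Finset.mem_insert, ih hL]
      constructor
      · rintro (rfl | ⟨L₁, s', L₂, rfl, rfl⟩)
        · exact ⟨L, s, [], rfl, rfl⟩
        · exact ⟨L₁, s', L₂ ++ [(s, true)], by simp, rfl⟩
      · rintro ⟨L₁, s', L₂, he, rfl⟩
        rcases nil_or_append L₂ with rfl | ⟨L₂', y, rfl⟩
        · left
          have := List.append_inj' he rfl
          obtain ⟨h1, h2⟩ := this
          simp at h2
          rw [h1, h2]
        · right
          refine ⟨L₁, s', L₂', ?_, rfl⟩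
          have e : L₁ ++ (s', true) :: (L₂' ++ [y]) = (L₁ ++ (s', true) :: L₂') ++ [y] := by simp
          rw [e] at he
          exact (List.append_inj' he rfl).1

lemma inver_pr_subset {L L' : List (B × Bool)} (h : Red cs (L ++ L')) :
    inver cs (pr cs L) ⊆ inver cs (pr cs (L ++ L')) := by
  intro v hv
  rw [mem_inver_pr h.left] at hv
  rw [mem_inver_pr h]
  obtain ⟨L₁, s, L₂, rfl, rfl⟩ := hv
  exact ⟨L₁, s, L₂ ++ L', by simp, rfl⟩

/-- an inversion of the product which is not an inversion of the first part is the root of a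
letter of the second part. -/
lemma exists_of_mem_of_notMem {L L' : List (B × Bool)} (h : Red cs (L ++ L')) {v : B → ℝ}
    (hv : v ∈ inver cs (pr cs (L ++ L'))) (hv' : v ∉ inver cs (pr cs L)) :
    ∃ L₁ s L₂, L' = L₁ ++ (s, true) :: L₂ ∧ v = act cs (pr cs (L ++ L₁)) (al s) := by
  rw [mem_inver_pr h] at hv
  obtain ⟨L₁, s, L₂, he, rfl⟩ := hv
  rw [List.append_eq_append_iff] at he
  rcases he with ⟨a, ha1, ha2⟩ | ⟨c, hc1, hc2⟩
  · exact ⟨a, s, L₂, ha2, by rw [ha1]⟩
  · cases c with
    | nil =>
      simp at hc1 hc2
      exact ⟨[], s, L₂, hc2.symm, by rw [hc1]; simp⟩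
    | cons x c =>
      exfalso
      simp at hc2
      obtain ⟨rfl, hc2⟩ := hc2
      apply hv'
      rw [mem_inver_pr h.left]
      exact ⟨L₁, s, c, hc1, rfl⟩

/-- the action is faithful. -/
lemma act_eq_iff {w w' : W} : act cs w = act cs w' ↔ w = w' := by
  refine ⟨fun h => ?_, fun h => by rw [h]⟩
  by_contra hne
  have h1 : w'⁻¹ * w ≠ 1 := by
    intro h2; apply hne; rw [inv_mul_eq_one] at h2; exact h2.symm
  obtain ⟨s, hs⟩ := cs.exists_rightDescent_of_ne_one h1
  have h2 := act_al_nonpos cs (M_ne_zero cs) _ s hs
  rw [act_mul, h, act_inv_act] at h2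
  exact (isRoot_al cs s).not_both (al_nonneg s) h2

/-- deleting a used letter multiplies by a reflection. -/
lemma pr_flip {L₁ L₂ : List (B × Bool)} {s t : B} {w : W}
    (hw : w = pr cs (L₁ ++ (s, true) :: L₂))
    (hroot : act cs (pr cs L₁) (al s) = - act cs w (al t)) :
    pr cs (L₁ ++ (s, false) :: L₂) = w * cs.simple t := by
  have h1 : (pr cs L₁ * cs.simple s * (pr cs L₁)⁻¹) = w * cs.simple t * w⁻¹ := by
    rw [← act_eq_iff (cs := cs)]
    refine LinearMap.ext fun x => ?_
    rw [act_mul_simple_mul_inv, act_mul_simple_mul_inv, hroot, rr_neg_left]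
  have h2 : pr cs (L₁ ++ (s, false) :: L₂) = (pr cs L₁ * cs.simple s * (pr cs L₁)⁻¹) * w := by
    rw [hw]
    simp only [pr_append, pr_cons_false, pr_cons_true]
    have := cs.simple_mul_simple_self s
    calc pr cs L₁ * pr cs L₂ = pr cs L₁ * (cs.simple s * cs.simple s) * pr cs L₂ := by
          rw [this]; group
      _ = _ := by group
  rw [h2, h1]; group

/-- A word contains an element. -/
def Has (cs : CoxeterSystem M W) (Q : List B) (w : W) : Prop :=
  ∃ L : List (B × Bool), L.map Prod.fst = Q ∧ pr cs L = w

/-- Positive facets exist. -/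
theorem exists_pos_facet (Q : List B) (w : W) (h : Has cs Q w) :
    ∃ L : List (B × Bool), L.map Prod.fst = Q ∧ pr cs L = w ∧ Red cs L ∧
      ∀ L₁ s L₂, L = L₁ ++ (s, false) :: L₂ → 0 ≤ act cs (pr cs L₁) (al s) := by
  have h0 := M_ne_zero cs
  induction Q using List.reverseRecOn generalizing w with
  | nil =>
    obtain ⟨L, hL1, hL2⟩ := h
    simp at hL1
    subst hL1
    refine ⟨[], rfl, hL2, by simp [Red], ?_⟩
    intro L₁ s L₂ he
    simp at he
  | append_singleton Q q ih =>
    obtain ⟨L, hL1, hL2⟩ := h
    rcases nil_or_append L with rfl | ⟨L', ⟨s, b⟩, rfl⟩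
    · simp at hL1
    rw [List.map_append] at hL1
    obtain ⟨hL3, hq⟩ := List.append_inj' hL1 rfl
    simp at hq
    subst hq
    -- deletion property
    have hdel : ∀ v : W, Has cs Q v → cs.length (v * cs.simple s) < cs.length v →
        Has cs Q (v * cs.simple s) := by
      intro v hv hlt
      obtain ⟨K, hK1, hK2, hK3, -⟩ := ih v hv
      have h1 := act_al_nonpos cs h0 v s hlt
      have h2 : - act cs v (al s) ∈ inver cs (pr cs K) := by
        rw [mem_inver]
        refine ⟨((isRoot_al cs s).image v).neg, neg_nonneg.mpr h1, ?_⟩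
        rw [map_neg, hK2, act_inv_act]
        exact neg_nonpos.mpr (al_nonneg s)
      rw [mem_inver_pr hK3] at h2
      obtain ⟨K₁, a, K₂, rfl, hroot⟩ := h2
      refine ⟨K₁ ++ (a, false) :: K₂, ?_, ?_⟩
      · rw [← hK1]; simp
      · exact pr_flip hK2.symm hroot.symm
    rcases lt_or_gt_of_ne (cs.length_mul_simple_ne w s) with hlt | hgt
    · -- `w s < w`: the last letter must be used
      have hHas : Has cs Q (w * cs.simple s) := by
        cases b with
        | true =>
          refine ⟨L', hL3, ?_⟩
          rw [← hL2]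
          simp
        | false =>
          apply hdel w _ hlt
          refine ⟨L', hL3, ?_⟩
          rw [← hL2]; simp
      obtain ⟨K, hK1, hK2, hK3, hK4⟩ := ih _ hHas
      refine ⟨K ++ [(s, true)], by simp [hK1], by simp [hK2], ?_, ?_⟩
      · apply red_append_true hK3
        rw [hK2]
        apply act_al_nonneg cs h0
        rw [cs.simple_mul_simple_cancel_right]
        exact hlt
      · intro L₁ a L₂ he
        rcases nil_or_append L₂ with rfl | ⟨L₂', y, rfl⟩
        · have := congrArg List.getLast? he
          simp at this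
        · have e : L₁ ++ (a, false) :: (L₂' ++ [y]) = (L₁ ++ (a, false) :: L₂') ++ [y] := by simp
          rw [e] at he
          exact hK4 _ _ _ (List.append_inj' he rfl).1
    · -- `w s > w`: the last letter must be skipped
      have hHas : Has cs Q w := by
        cases b with
        | true =>
          have h1 : Has cs Q (w * cs.simple s) := by
            refine ⟨L', hL3, ?_⟩
            rw [← hL2]
            simp
          have h2 := hdel _ h1 (by rw [cs.simple_mul_simple_cancel_right]; exact hgt)
          rwa [cs.simple_mul_simple_cancel_right] at h2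
        | false =>
          refine ⟨L', hL3, ?_⟩
          rw [← hL2]; simp
      obtain ⟨K, hK1, hK2, hK3, hK4⟩ := ih _ hHas
      refine ⟨K ++ [(s, false)], by simp [hK1], by simp [hK2], ?_, ?_⟩
      · rw [red_append_false]; exact hK3
      · intro L₁ a L₂ he
        rcases nil_or_append L₂ with rfl | ⟨L₂', y, rfl⟩
        · obtain ⟨h1, h2⟩ := List.append_inj' he rfl
          simp at h2
          rw [← h1, ← h2, hK2]
          exact act_al_nonneg cs h0 _ _ hgt
        · have e : L₁ ++ (a, false) :: (L₂' ++ [y]) = (L₁ ++ (a, false) :: L₂') ++ [y] := by simp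
          rw [e] at he
          exact hK4 _ _ _ (List.append_inj' he rfl).1

end

end H57
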