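import Pool.Agent.H57.Polygon

/-!
# The weak order through inversion sets
-/

set_option linter.unusedSectionVars false

open Finset CoxeterSystem

namespace H57

variable {B : Type*} [Fintype B] [DecidableEq B]
variable {W : Type*} [Group W] {M : CoxeterMatrix B}
variable {cs : CoxeterSystem M W} [Finite W]

lemma inver_injective {u w : W} (h : inver cs u = inver cs w) : u = w := by
  by_contra hne
  have h0 := M_ne_zero cs
  have h1 : u⁻¹ * w ≠ 1 := by
    intro h2; apply hne; rw [inv_mul_eq_one] at h2; exact h2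
  obtain ⟨s, hs⟩ := cs.exists_rightDescent_of_ne_one h1
  have h2 := act_al_nonpos cs h0 _ s hs
  rw [act_mul] at h2
  set β := act cs w (al s) with hβ
  have hβr : IsRoot cs β := (isRoot_al cs s).image w
  rcases hβr.pos_or_neg h0 with h3 | h3
  · have h4 : β ∈ inver cs u := mem_inver.mpr ⟨hβr, h3, h2⟩
    rw [h] at h4
    exact al_notMem_inver h4
  · have h4 : -β ∈ inver cs w := by
      rw [mem_inver]
      refine ⟨hβr.neg, neg_nonneg.mpr h3, ?_⟩
      rw [map_neg, hβ, act_inv_act]
      exact neg_nonpos.mpr (al_nonneg s)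
    rw [← h, mem_inver, map_neg] at h4
    exact (hβr.image _).not_both (neg_nonpos.mp h4.2.2) h2

lemma inver_mul_simple_of_nonpos [DecidableEq (B → ℝ)] {w : W} {s : B} (h : act cs w (al s) ≤ 0) :
    inver cs w = insert (- act cs w (al s)) (inver cs (w * cs.simple s)) := by
  classical
  have h1 : act cs (w * cs.simple s) (al s) = - act cs w (al s) := by
    rw [act_mul, act_simple_al, map_neg]
  have h2 : 0 ≤ act cs (w * cs.simple s) (al s) := by rw [h1]; exact neg_nonneg.mpr h
  have h3 := inver_mul_simple h2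
  rw [cs.simple_mul_simple_cancel_right, h1] at h3
  ext v
  have h4 := Finset.ext_iff.mp h3 v
  simp only [Finset.mem_insert] at h4
  simp only [Finset.mem_insert]
  exact h4

/-- a cover above `u` below `w` -/
lemma exists_cover_up {u w : W} (h : inver cs u ⊆ inver cs w) (hne : u ≠ w) :
    ∃ s, 0 ≤ act cs u (al s) ∧ inver cs (u * cs.simple s) ⊆ inver cs w := by
  classical
  have h0 := M_ne_zero cs
  have h1 : w⁻¹ * u ≠ 1 := by
    intro h2; apply hne; rw [inv_mul_eq_one] at h2; exact h2.symm
  obtain ⟨s, hs⟩ := cs.exists_rightDescent_of_ne_one h1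
  have h2 := act_al_nonpos cs h0 _ s hs
  rw [act_mul] at h2
  have hβr : IsRoot cs (act cs u (al s)) := (isRoot_al cs s).image u
  have h3 : 0 ≤ act cs u (al s) := by
    rw [← hβr.not_nonpos_iff h0]
    intro h3
    have h4 : - act cs u (al s) ∈ inver cs u := by
      rw [mem_inver]
      refine ⟨hβr.neg, neg_nonneg.mpr h3, ?_⟩
      rw [map_neg, act_inv_act]
      exact neg_nonpos.mpr (al_nonneg s)
    have h5 := h h4
    rw [mem_inver, map_neg] at h5
    exact (hβr.image _).not_both (neg_nonpos.mp h5.2.2) h2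
  refine ⟨s, h3, ?_⟩
  rw [inver_mul_simple h3, Finset.insert_subset_iff]
  exact ⟨mem_inver.mpr ⟨hβr, h3, h2⟩, h⟩

/-- a cocover below `w` above `u` -/
lemma exists_cover_down {u w : W} (h : inver cs u ⊆ inver cs w) (hne : u ≠ w) :
    ∃ s, act cs w (al s) ≤ 0 ∧ inver cs u ⊆ inver cs (w * cs.simple s) := by
  classical
  have h0 := M_ne_zero cs
  have h1 : u⁻¹ * w ≠ 1 := by
    intro h2; apply hne; rw [inv_mul_eq_one] at h2; exact h2
  obtain ⟨s, hs⟩ := cs.exists_rightDescent_of_ne_one h1
  have h2 := act_al_nonpos cs h0 _ s hs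
  rw [act_mul] at h2
  have hβr : IsRoot cs (act cs w (al s)) := (isRoot_al cs s).image w
  have h3 : act cs w (al s) ≤ 0 := by
    rw [← hβr.not_nonneg_iff h0]
    intro h3
    have h4 : act cs w (al s) ∈ inver cs u := mem_inver.mpr ⟨hβr, h3, h2⟩
    exact al_notMem_inver (h h4)
  refine ⟨s, h3, ?_⟩
  intro γ hγ
  have h4 := h hγ
  rw [inver_mul_simple_of_nonpos h3, Finset.mem_insert] at h4
  rcases h4 with h4 | h4
  · exfalso
    rw [h4, mem_inver, map_neg] at hγ
    exact (hβr.image _).not_both (neg_nonpos.mp hγ.2.2) h2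
  · exact h4

lemma length_mul_simple_of_nonneg {u : W} {s : B} (h : 0 ≤ act cs u (al s)) :
    cs.length (u * cs.simple s) = cs.length u + 1 := by
  rw [act_al_nonneg_iff cs (M_ne_zero cs)] at h
  have := cs.length_mul_simple u s
  omega

lemma length_mul_simple_of_nonpos {u : W} {s : B} (h : act cs u (al s) ≤ 0) :
    cs.length (u * cs.simple s) + 1 = cs.length u := by
  rw [act_al_nonpos_iff cs (M_ne_zero cs)] at h
  have := cs.length_mul_simple u s
  omega

lemma length_le_of_subset {u w : W} (h : inver cs u ⊆ inver cs w) :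
    cs.length u ≤ cs.length w := by
  rw [← card_inver, ← card_inver]; exact Finset.card_le_card h

lemma length_lt_of_subset {u w : W} (h : inver cs u ⊆ inver cs w) (hne : u ≠ w) :
    cs.length u < cs.length w := by
  rw [← card_inver, ← card_inver]
  apply Finset.card_lt_card
  refine ⟨h, fun h' => hne ?_⟩
  exact inver_injective (Finset.Subset.antisymm h h')

/-- weak order by lengths is containment of inversion sets -/
theorem weak_iff {u w : W} :
    cs.length u + cs.length (u⁻¹ * w) = cs.length w ↔ inver cs u ⊆ inver cs w := by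
  classical
  have h0 := M_ne_zero cs
  constructor
  · -- induct on the length of `u⁻¹ w`
    intro h
    induction hn : cs.length (u⁻¹ * w) generalizing u with
    | zero =>
      rw [cs.length_eq_zero_iff, inv_mul_eq_one] at hn
      rw [hn]
    | succ n ih =>
      have h1 : w⁻¹ * u ≠ 1 := by
        intro h2
        rw [inv_mul_eq_one] at h2
        rw [h2] at hn
        simp at hn
      obtain ⟨s, hs⟩ := cs.exists_rightDescent_of_ne_one h1
      rw [cs.isRightDescent_iff] at hs
      have e1 : cs.length ((u * cs.simple s)⁻¹ * w) + 1 = cs.length (u⁻¹ * w) := by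
        rw [← cs.length_inv ((u * cs.simple s)⁻¹ * w), ← cs.length_inv (u⁻¹ * w)]
        have e2 : ((u * cs.simple s)⁻¹ * w)⁻¹ = w⁻¹ * u * cs.simple s := by
          simp [mul_assoc]
        have e3 : (u⁻¹ * w)⁻¹ = w⁻¹ * u := by group
        rw [e2, e3, hs]
      have h2 : cs.length (u * cs.simple s) = cs.length u + 1 := by
        have h3 := cs.length_mul_simple u s
        have h4 := cs.length_mul_le (u * cs.simple s) ((u * cs.simple s)⁻¹ * w)
        have e2 : (u * cs.simple s) * ((u * cs.simple s)⁻¹ * w) = w := by group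
        rw [e2] at h4
        omega
      have h3 : 0 ≤ act cs u (al s) := by
        rw [act_al_nonneg_iff cs h0]; omega
      have h4 := ih (u := u * cs.simple s) (by omega) (by omega)
      rw [inver_mul_simple h3] at h4
      exact (Finset.subset_insert _ _).trans h4
  · intro h
    induction hn : cs.length w - cs.length u generalizing u with
    | zero =>
      by_cases hne : u = w
      · subst hne; simp
      · have := length_lt_of_subset h hne
        omega
    | succ n ih =>
      have hne : u ≠ w := by rintro rfl; simp at hn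
      obtain ⟨s, hs, hsub⟩ := exists_cover_up h hne
      have h1 := length_mul_simple_of_nonneg hs
      have h2 := ih hsub (by omega)
      have h3 := cs.length_mul_le u (u⁻¹ * w)
      have e1 : u * (u⁻¹ * w) = w := by group
      rw [e1] at h3
      have h4 := cs.length_mul_le (cs.simple s) ((u * cs.simple s)⁻¹ * w)
      have e2 : cs.simple s * ((u * cs.simple s)⁻¹ * w) = u⁻¹ * w := by
        rw [mul_inv_rev, cs.inv_simple, ← mul_assoc, ← mul_assoc, cs.simple_mul_simple_self, one_mul]
      rw [e2, cs.length_simple] at h4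
      omega

variable (cs) in
/-- joins -/
def IsJ (a b j : W) : Prop :=
  inver cs a ⊆ inver cs j ∧ inver cs b ⊆ inver cs j ∧
    ∀ c, inver cs a ⊆ inver cs c → inver cs b ⊆ inver cs c → inver cs j ⊆ inver cs c

variable (cs) in
/-- meets -/
def IsMt (a b m : W) : Prop :=
  inver cs m ⊆ inver cs a ∧ inver cs m ⊆ inver cs b ∧
    ∀ c, inver cs c ⊆ inver cs a → inver cs c ⊆ inver cs b → inver cs c ⊆ inver cs m

lemma Poly.sub_xs {s t : B} {x y : W} (hP : Poly cs s t x y) :
    inver cs (x * cs.simple s) ⊆ inver cs y := by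
  classical
  rw [inver_mul_simple hP.xs, Finset.insert_subset_iff]
  exact ⟨hP.psi_xs.mem_y hP.xs, fun ρ h => (hP.mem_inver_y ρ).mpr (Or.inl h)⟩

lemma Poly.sub_xt {s t : B} {x y : W} (hP : Poly cs s t x y) :
    inver cs (x * cs.simple t) ⊆ inver cs y := by
  classical
  rw [inver_mul_simple hP.xt, Finset.insert_subset_iff]
  exact ⟨hP.psi_xt.mem_y hP.xt, fun ρ h => (hP.mem_inver_y ρ).mpr (Or.inl h)⟩

/-- the top of a polygon is the join of the two atoms -/
lemma Poly.isJ {s t : B} {x y : W} (hP : Poly cs s t x y) :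
    IsJ cs (x * cs.simple s) (x * cs.simple t) y := by
  classical
  refine ⟨hP.sub_xs, hP.sub_xt, ?_⟩
  intro c h1 h2 ρ hρ
  rw [inver_mul_simple hP.xs, Finset.insert_subset_iff] at h1
  rw [inver_mul_simple hP.xt, Finset.insert_subset_iff] at h2
  rcases (hP.mem_inver_y ρ).mp hρ with h | ⟨h, h'⟩
  · exact h1.2 h
  · exact mem_inver.mpr ⟨h.1, h', h.neg_of_walls h' (mem_inver.mp h1.1).2.2
      (mem_inver.mp h2.1).2.2⟩

lemma Poly.psi_ys {s t : B} {x y : W} (hP : Poly cs s t x y) : hP.Psi (act cs y (al s)) := by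
  apply hP.psi_of_y ((isRoot_al cs s).image y)
  rw [act_inv_act]; exact Supp2.al_left s t

lemma Poly.psi_yt {s t : B} {x y : W} (hP : Poly cs s t x y) : hP.Psi (act cs y (al t)) := by
  apply hP.psi_of_y ((isRoot_al cs t).image y)
  rw [act_inv_act]; exact Supp2.al_right s t

/-- the bottom of a polygon is the meet of the two coatoms -/
lemma Poly.isMt {s t : B} {x y : W} (hP : Poly cs s t x y) :
    IsMt cs (y * cs.simple s) (y * cs.simple t) x := by
  classical
  have h0 := M_ne_zero cs
  have hxy : inver cs x ⊆ inver cs y := fun ρ h => (hP.mem_inver_y ρ).mpr (Or.inl h)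
  have hout : ∀ {ρ}, hP.Psi ρ → ρ ∉ inver cs x := by
    intro ρ hρ h1
    rw [mem_inver] at h1
    exact (hρ.1.image _).not_both (hρ.nonneg_iff.mp h1.2.1) h1.2.2
  have hsub : ∀ a, act cs y (al a) ≤ 0 → hP.Psi (act cs y (al a)) →
      inver cs x ⊆ inver cs (y * cs.simple a) := by
    intro a ha hPa ρ hρ
    have h1 := hxy hρ
    rw [inver_mul_simple_of_nonpos ha, Finset.mem_insert] at h1
    rcases h1 with h1 | h1
    · exfalso
      rw [h1] at hρ
      exact hout hPa.neg hρ
    · exact h1
  refine ⟨hsub s hP.ys hP.psi_ys, hsub t hP.yt hP.psi_yt, ?_⟩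
  intro c h1 h2 ρ hρ
  have hcy : ρ ∈ inver cs y := by
    have := h1 hρ
    rw [inver_mul_simple_of_nonpos hP.ys, Finset.mem_insert]
    exact Or.inr this
  rcases (hP.mem_inver_y ρ).mp hcy with h | ⟨h, h'⟩
  · exact h
  · exfalso
    have hnot : ∀ a, act cs y (al a) ≤ 0 → inver cs c ⊆ inver cs (y * cs.simple a) →
        0 ≤ act cs c⁻¹ (- act cs y (al a)) := by
      intro a ha hca
      rw [← notMem_inver ((isRoot_al cs a).image y).neg (neg_nonneg.mpr ha)]
      intro h3
      have h4 := hca h3
      have e : - act cs y (al a) = act cs (y * cs.simple a) (al a) := by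
        rw [act_mul, act_simple_al, map_neg]
      rw [e] at h4
      exact al_notMem_inver h4
    have h3 := hnot s hP.ys h1
    have h4 := hnot t hP.yt h2
    have h5 := h.y_nonpos h'
    have h6 : 0 ≤ act cs c⁻¹ ρ := by
      have e : ρ = (- act cs y⁻¹ ρ s) • (- act cs y (al s)) +
          (- act cs y⁻¹ ρ t) • (- act cs y (al t)) := by
        have e1 : ρ = act cs y (act cs y⁻¹ ρ) := by rw [act_act_inv]
        conv_lhs => rw [e1, (Poly.Psi.supp_y (hP := hP) h).eq hP.ne, map_add, map_smul, map_smul]
        module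
      rw [e, map_add, map_smul, map_smul]
      exact add_nonneg (smul_nonneg (neg_nonneg.mpr (h5 s)) h3)
        (smul_nonneg (neg_nonneg.mpr (h5 t)) h4)
    exact (h.1.image _).not_both h6 (mem_inver.mp hρ).2.2

/-- existence of joins -/
theorem exists_join {ω : W} : ∀ (n : ℕ) (x a b : W), cs.length ω - cs.length x = n →
    inver cs x ⊆ inver cs a → inver cs x ⊆ inver cs b → inver cs a ⊆ inver cs ω →
    inver cs b ⊆ inver cs ω → ∃ j, inver cs j ⊆ inver cs ω ∧ IsJ cs a b j := by
  classical
  intro n
  induction n using Nat.strong_induction_on with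
  | _ n ih =>
  intro x a b hn hxa hxb haω hbω
  by_cases hxa' : x = a
  · subst hxa'
    exact ⟨b, hbω, hxb, Finset.Subset.refl _, fun c _ h => h⟩
  by_cases hxb' : x = b
  · subst hxb'
    exact ⟨a, haω, Finset.Subset.refl _, hxa, fun c h _ => h⟩
  obtain ⟨s, hs, hsa⟩ := exists_cover_up hxa hxa'
  obtain ⟨t, ht, htb⟩ := exists_cover_up hxb hxb'
  have hls := length_mul_simple_of_nonneg hs
  have hlt := length_mul_simple_of_nonneg ht
  have hsω := length_le_of_subset (hsa.trans haω)
  have htω := length_le_of_subset (htb.trans hbω)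
  by_cases hst : s = t
  · subst hst
    exact ih _ (by omega) (x * cs.simple s) a b rfl hsa htb haω hbω
  · obtain ⟨y, hP⟩ := exists_poly_top hst hs ht
    have hJ := hP.isJ
    have hyω : inver cs y ⊆ inver cs ω := hJ.2.2 ω (hsa.trans haω) (htb.trans hbω)
    obtain ⟨p, hpω, hp⟩ := ih _ (by omega) (x * cs.simple s) a y rfl hsa hP.sub_xs haω hyω
    obtain ⟨q, hqω, hq⟩ := ih _ (by omega) (x * cs.simple t) p b rfl (hP.sub_xt.trans hp.2.1) htb
      hpω hbω
    refine ⟨q, hqω, hp.1.trans hq.1, hq.2.1, ?_⟩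
    intro c hac hbc
    refine hq.2.2 c (hp.2.2 c hac ?_) hbc
    exact hJ.2.2 c (hsa.trans hac) (htb.trans hbc)

/-- existence of meets -/
theorem exists_meet : ∀ (n : ℕ) (y a b : W), cs.length y = n →
    inver cs a ⊆ inver cs y → inver cs b ⊆ inver cs y → ∃ m, IsMt cs a b m := by
  classical
  intro n
  induction n using Nat.strong_induction_on with
  | _ n ih =>
  intro y a b hn hay hby
  by_cases hay' : a = y
  · subst hay'
    exact ⟨b, hby, Finset.Subset.refl _, fun c _ h => h⟩
  by_cases hby' : b = y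
  · subst hby'
    exact ⟨a, Finset.Subset.refl _, hay, fun c h _ => h⟩
  obtain ⟨s, hs, hsa⟩ := exists_cover_down hay hay'
  obtain ⟨t, ht, htb⟩ := exists_cover_down hby hby'
  have hls := length_mul_simple_of_nonpos hs
  have hlt := length_mul_simple_of_nonpos ht
  by_cases hst : s = t
  · subst hst
    exact ih _ (by omega) (y * cs.simple s) a b rfl hsa htb
  · obtain ⟨x, hP⟩ := exists_poly_bot hst hs ht
    have hJ := hP.isMt
    obtain ⟨p, hp⟩ := ih _ (by omega) (y * cs.simple s) a x rfl hsa hJ.1
    obtain ⟨q, hq⟩ := ih _ (by omega) (y * cs.simple t) p b rfl (hp.2.1.trans hJ.2.1) htb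
    refine ⟨q, hq.1.trans hp.1, hq.2.1, ?_⟩
    intro c hca hcb
    refine hq.2.2 c (hp.2.2 c hca ?_) hcb
    exact hJ.2.2 c (hca.trans hsa) (hcb.trans htb)

end H57
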